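import Mathlib
import Pool.Agent.Lib.MP_209724_lc.MV.Branch

section

/-!
The monomial valuation.
-/

namespace Pool.Agent.Lib.MP_209724_lc.GC

open MvPolynomial Filter Topology

theorem wt_sub_eq {k : ℕ} (ω : Fin k → ℝ) (μ ν : Fin k →₀ ℕ) :
    wt ω ν - wt ω μ = ∑ j, ω j * (((ν j : ℤ) - (μ j : ℤ) : ℤ) : ℝ) := by
  rw [wt, wt, ← Finset.sum_sub_distrib]
  refine Finset.sum_congr rfl fun j _ => ?_
  push_cast
  ring

theorem wt_injective {k : ℕ} {ω : Fin k → ℝ} (hω : LinearIndependent ℚ ω) {μ ν : Fin k →₀ ℕ}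
    (h : wt ω μ = wt ω ν) : μ = ν := by
  rw [Fintype.linearIndependent_iff] at hω
  have h1 : ∑ j, ((μ j : ℚ) - (ν j : ℚ)) • ω j = 0 := by
    have h2 : ∑ j, ((μ j : ℚ) - (ν j : ℚ)) • ω j = wt ω μ - wt ω ν := by
      rw [wt, wt, ← Finset.sum_sub_distrib]
      refine Finset.sum_congr rfl fun j _ => ?_
      rw [Rat.smul_def]
      push_cast
      ring
    rw [h2, h, sub_self]
  ext j
  have := hω _ h1 j
  have h3 : (μ j : ℚ) = (ν j : ℚ) := sub_eq_zero.1 this
  exact_mod_cast h3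

theorem exists_isLow {k : ℕ} {R : Type*} [CommSemiring R] {ω : Fin k → ℝ}
    (hω : LinearIndependent ℚ ω) {P : MvPolynomial (Fin k) R} (hP : P ≠ 0) :
    ∃ μ, IsLow ω P μ := by
  have hne : P.support.Nonempty := support_nonempty.2 hP
  obtain ⟨μ, hμ, hmin⟩ := Finset.exists_min_image P.support (wt ω) hne
  refine ⟨μ, mem_support_iff.1 hμ, fun ν hν hne => ?_⟩
  refine lt_of_le_of_ne (hmin ν (mem_support_iff.2 hν)) fun h => hne (wt_injective hω h).symm

theorem val_monomial_ne_zero {L : Type} [Field L] {k : ℕ} (t : Fin k → L)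
    (ht0 : ∀ j, t j ≠ 0) (𝒪 : ValuationSubring L) (μ : Fin k →₀ ℕ) :
    𝒪.valuation (∏ j, t j ^ μ j) ≠ 0 := by
  rw [Valuation.ne_zero_iff]
  exact Finset.prod_ne_zero_iff.2 fun i _ => pow_ne_zero _ (ht0 i)

theorem val_lt_iff {L : Type} [Field L] {k : ℕ} (t : Fin k → L)
    (ht0 : ∀ j, t j ≠ 0) (𝒪 : ValuationSubring L) (ω : Fin k → ℝ)
    (h𝒪 : ∀ m : Fin k → ℤ, 𝒪.valuation (∏ j, t j ^ m j) < 1 ↔ 0 < ∑ j, ω j * (m j : ℝ))
    (μ ν : Fin k →₀ ℕ) :
    𝒪.valuation (∏ j, t j ^ ν j) < 𝒪.valuation (∏ j, t j ^ μ j) ↔ wt ω μ < wt ω ν := by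
  have h1 : (∏ j, t j ^ ν j) =
      (∏ j, t j ^ ((ν j : ℤ) - (μ j : ℤ))) * ∏ j, t j ^ μ j := by
    rw [← Finset.prod_mul_distrib]
    refine Finset.prod_congr rfl fun j _ => ?_
    rw [← zpow_natCast, ← zpow_natCast, ← zpow_add₀ (ht0 j), sub_add_cancel]
  have h2 := val_monomial_ne_zero t ht0 𝒪 μ
  have h3 := h𝒪 fun j => (ν j : ℤ) - (μ j : ℤ)
  rw [← wt_sub_eq, sub_pos] at h3
  rw [← h3, h1, map_mul]
  constructor
  · intro h
    by_contra hle
    push Not at hle
    exact absurd h (not_lt.2 (le_mul_of_one_le_left' hle))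
  · intro h
    calc _ < 1 * 𝒪.valuation (∏ j, t j ^ μ j) := by
          exact mul_lt_mul_of_pos_right h (zero_lt_iff.2 h2)
      _ = _ := one_mul _

theorem val_const {K L : Type} [Field K] [Field L] [Algebra K L]
    (𝒪 : ValuationSubring L) (hK : ∀ c : K, algebraMap K L c ∈ 𝒪) (c : K) (hc : c ≠ 0) :
    𝒪.valuation (algebraMap K L c) = 1 := by
  have hc' : algebraMap K L c ≠ 0 := by
    rwa [Ne, map_eq_zero]
  have h10 : 𝒪.valuation (algebraMap K L c) ≠ 0 := by rwa [Valuation.ne_zero_iff]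
  refine le_antisymm ((𝒪.valuation_le_one_iff _).2 (hK c)) ?_
  have h2 := (𝒪.valuation_le_one_iff _).2 (hK c⁻¹)
  rw [map_inv₀, map_inv₀] at h2
  exact (inv_le_one₀ (zero_lt_iff.2 h10)).1 h2

theorem val_of_isLow {K L : Type} [Field K] [Field L] [Algebra K L] {k : ℕ} (t : Fin k → L)
    (ht0 : ∀ j, t j ≠ 0) (𝒪 : ValuationSubring L) (hK : ∀ c : K, algebraMap K L c ∈ 𝒪)
    (ω : Fin k → ℝ)
    (h𝒪 : ∀ m : Fin k → ℤ, 𝒪.valuation (∏ j, t j ^ m j) < 1 ↔ 0 < ∑ j, ω j * (m j : ℝ))
    (P : MvPolynomial (Fin k) K) (μ : Fin k →₀ ℕ) (hμ : IsLow ω P μ) :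
    𝒪.valuation (aeval t P) = 𝒪.valuation (∏ j, t j ^ μ j) := by
  classical
  have hsum : aeval t P = ∑ d ∈ P.support, algebraMap K L (P.coeff d) * ∏ i, t i ^ d i := by
    rw [aeval_def, eval₂_eq']
  have hms : μ ∈ P.support := mem_support_iff.2 hμ.1
  have hterm : ∀ d ∈ P.support, 𝒪.valuation (algebraMap K L (P.coeff d) * ∏ i, t i ^ d i) =
      𝒪.valuation (∏ i, t i ^ d i) := fun d hd => by
    rw [map_mul, val_const 𝒪 hK _ (mem_support_iff.1 hd), one_mul]
  rw [hsum, ← Finset.add_sum_erase _ _ hms]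
  have hlt : 𝒪.valuation (∑ d ∈ P.support.erase μ, algebraMap K L (P.coeff d) * ∏ i, t i ^ d i) <
      𝒪.valuation (algebraMap K L (P.coeff μ) * ∏ i, t i ^ μ i) := by
    refine Valuation.map_sum_lt _ ?_ fun d hd => ?_
    · rw [hterm μ hms]
      exact val_monomial_ne_zero t ht0 𝒪 μ
    · rw [Finset.mem_erase] at hd
      rw [hterm μ hms, hterm d hd.2, val_lt_iff t ht0 𝒪 ω h𝒪]
      exact hμ.2 d (mem_support_iff.1 hd.2) hd.1
  rw [add_comm, Valuation.map_add_eq_of_lt_right _ hlt, hterm μ hms]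

theorem algebraicIndependent_t {K L : Type} [Field K] [Field L] [Algebra K L] {k : ℕ}
    (t : Fin k → L) (ht0 : ∀ j, t j ≠ 0) (𝒪 : ValuationSubring L)
    (hK : ∀ c : K, algebraMap K L c ∈ 𝒪) {ω : Fin k → ℝ} (hω : LinearIndependent ℚ ω)
    (h𝒪 : ∀ m : Fin k → ℤ, 𝒪.valuation (∏ j, t j ^ m j) < 1 ↔ 0 < ∑ j, ω j * (m j : ℝ)) :
    AlgebraicIndependent K t := by
  rw [algebraicIndependent_iff]
  intro P hP
  by_contra hne
  obtain ⟨μ, hμ⟩ := exists_isLow hω hne
  have h1 := val_of_isLow t ht0 𝒪 hK ω h𝒪 P μ hμ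
  rw [hP, map_zero] at h1
  exact val_monomial_ne_zero t ht0 𝒪 μ h1.symm

end Pool.Agent.Lib.MP_209724_lc.GC
end

section

/-!
A generic linear projection.
-/

namespace Pool.Agent.Lib.MP_209724_lc.GC

open MvPolynomial

/-- the vectors of `T` in the kernel of `prj Z` -/
private def kerPrj {n d : ℕ} (T : Submodule ℂ (Fin n → ℂ)) (Z : Fin d → Fin n → ℂ) :
    Submodule ℂ (Fin n → ℂ) where
  carrier := {b | b ∈ T ∧ prj Z b = 0}
  add_mem' := by
    rintro a b ⟨ha, ha'⟩ ⟨hb, hb'⟩
    exact ⟨T.add_mem ha hb, by rw [prj_add, ha', hb', add_zero]⟩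
  zero_mem' := ⟨T.zero_mem, by funext j; simp [prj]⟩
  smul_mem' := by
    rintro c b ⟨hb, hb'⟩
    exact ⟨T.smul_mem c hb, by rw [prj_smul, hb', smul_zero]⟩

private theorem mem_kerPrj {n d : ℕ} {T : Submodule ℂ (Fin n → ℂ)} {Z : Fin d → Fin n → ℂ}
    {b : Fin n → ℂ} : b ∈ kerPrj T Z ↔ b ∈ T ∧ prj Z b = 0 := Iff.rfl

/-- the linear map `v ↦ ∑ v_i ξ_i` -/
private noncomputable def evL {n : ℕ} {L : Type} [Field L] [Algebra ℂ L] (ξ : Fin n → L) :
    (Fin n → ℂ) →ₗ[ℂ] L where
  toFun v := ∑ i, algebraMap ℂ L (v i) * ξ i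
  map_add' u v := by
    simp only [Pi.add_apply, map_add, add_mul, Finset.sum_add_distrib]
  map_smul' c v := by
    simp only [Pi.smul_apply, smul_eq_mul, map_mul, RingHom.id_apply, Finset.mul_sum,
      Algebra.smul_def, mul_assoc]

private theorem evL_apply {n : ℕ} {L : Type} [Field L] [Algebra ℂ L] (ξ : Fin n → L)
    (v : Fin n → ℂ) : evL ξ v = ∑ i, algebraMap ℂ L (v i) * ξ i := rfl

private theorem evL_single {n : ℕ} {L : Type} [Field L] [Algebra ℂ L] (ξ : Fin n → L)
    (l : Fin n) : evL ξ (Pi.single l 1) = ξ l := by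
  rw [evL_apply, Finset.sum_eq_single l]
  · simp
  · intro j _ hj
    simp [Pi.single_eq_of_ne hj]
  · simp

private theorem evL_mem {n : ℕ} {L : Type} [Field L] [Algebra ℂ L] (ξ : Fin n → L)
    (v : Fin n → ℂ) : evL ξ v ∈ IntermediateField.adjoin ℂ (Set.range ξ) := by
  rw [evL_apply]
  refine sum_mem fun i _ => mul_mem (IntermediateField.algebraMap_mem _ _) ?_
  exact IntermediateField.subset_adjoin _ _ ⟨i, rfl⟩

/-- a transcendental linear form -/
private theorem exists_transc {n i : ℕ} {L : Type} [Field L] [Algebra ℂ L] (ξ : Fin n → L)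
    (htr : ((i + 1 : ℕ) : Cardinal) ≤ Algebra.trdeg ℂ (IntermediateField.adjoin ℂ (Set.range ξ)))
    (Z : Fin i → Fin n → ℂ) (hZ : AlgebraicIndependent ℂ (fun j => evL ξ (Z j))) :
    ∃ l, Transcendental (Algebra.adjoin ℂ (Set.range fun j => evL ξ (Z j))) (ξ l) := by
  by_contra hcon
  push Not at hcon
  set F := IntermediateField.adjoin ℂ (Set.range fun j => evL ξ (Z j)) with hF
  set K := IntermediateField.adjoin ℂ (Set.range ξ) with hK
  have h1 : ∀ l, IsAlgebraic F (ξ l) := by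
    intro l
    have h2 := hcon l
    rw [Transcendental, not_not] at h2
    exact IntermediateField.isAlgebraic_adjoin_iff.mpr h2
  have h2 : K ≤ (algebraicClosure F L).restrictScalars ℂ := by
    rw [hK, IntermediateField.adjoin_le_iff]
    rintro _ ⟨l, rfl⟩
    exact mem_algebraicClosure_iff.mpr (h1 l)
  let ζ' : Fin i → K := fun j => ⟨evL ξ (Z j), evL_mem ξ (Z j)⟩
  have h3 : AlgebraicIndependent ℂ ζ' := by
    rw [← AlgHom.algebraicIndependent_iff K.val K.val.injective]
    exact hZ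
  have h4 : Algebra.IsAlgebraic (Algebra.adjoin ℂ (Set.range ζ')) K := by
    constructor
    intro x
    by_contra hx
    have h5 := (h3.option_iff_transcendental x).mpr hx
    rw [← AlgHom.algebraicIndependent_iff K.val K.val.injective] at h5
    have h6 : (K.val ∘ fun o : Option (Fin i) => o.elim x ζ') =
        fun o : Option (Fin i) => o.elim (x : L) (fun j => evL ξ (Z j)) := by
      funext o
      rcases o with _ | j
      · rfl
      · rfl
    rw [h6] at h5
    have h7 := (hZ.option_iff_transcendental (x : L)).mp h5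
    apply h7
    rw [← IntermediateField.isAlgebraic_adjoin_iff]
    exact mem_algebraicClosure_iff.mp (h2 x.2)
  have h5 : IsTranscendenceBasis ℂ ζ' :=
    isTranscendenceBasis_iff_algebraicIndependent_isAlgebraic.mpr ⟨h3, h4⟩
  have h6 := h5.cardinalMk_eq_trdeg
  rw [← h6, Cardinal.mk_fintype, Fintype.card_fin] at htr
  have h7 : i + 1 ≤ i := by exact_mod_cast htr
  omega

private theorem exists_proj_aux {n d : ℕ} {L : Type} [Field L] [Algebra ℂ L] (ξ : Fin n → L)
    (htr : (d : Cardinal) ≤ Algebra.trdeg ℂ (IntermediateField.adjoin ℂ (Set.range ξ)))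
    (T : Submodule ℂ (Fin n → ℂ)) (hT : Module.finrank ℂ T ≤ d) (i : ℕ) (hi : i ≤ d) :
    ∃ Z : Fin i → Fin n → ℂ, AlgebraicIndependent ℂ (fun j => evL ξ (Z j)) ∧
      Module.finrank ℂ (kerPrj T Z) ≤ d - i := by
  induction i with
  | zero =>
    refine ⟨Fin.elim0, ?_, ?_⟩
    · rw [algebraicIndependent_empty_type_iff]
      exact (algebraMap ℂ L).injective
    · have h1 : kerPrj T (Fin.elim0 : Fin 0 → Fin n → ℂ) = T := by
        ext b
        rw [mem_kerPrj]
        constructor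
        · exact fun h => h.1
        · intro h
          refine ⟨h, ?_⟩
          funext j
          exact j.elim0
      rw [h1]
      exact hT
  | succ i ih =>
    obtain ⟨Z, hZ, hk⟩ := ih (by omega)
    set A := Algebra.adjoin ℂ (Set.range fun j => evL ξ (Z j)) with hA
    set F := IntermediateField.adjoin ℂ (Set.range fun j => evL ξ (Z j)) with hF
    have htr' : ((i + 1 : ℕ) : Cardinal) ≤
        Algebra.trdeg ℂ (IntermediateField.adjoin ℂ (Set.range ξ)) :=
      le_trans (by exact_mod_cast hi) htr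
    obtain ⟨l, hl⟩ := exists_transc ξ htr' Z hZ
    -- the algebraic linear forms
    have hE : ∀ u v : Fin n → ℂ, IsAlgebraic A (evL ξ (u + v)) → IsAlgebraic A (evL ξ u) →
        IsAlgebraic A (evL ξ v) := by
      intro u v huv hu
      rw [← IntermediateField.isAlgebraic_adjoin_iff] at huv hu ⊢
      have h1 : evL ξ v = evL ξ (u + v) - evL ξ u := by
        rw [map_add]
        ring
      rw [h1]
      exact huv.sub hu
    -- a good vector
    obtain ⟨v, hv, hv'⟩ : ∃ v : Fin n → ℂ, Transcendental A (evL ξ v) ∧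
        (kerPrj T Z = ⊥ ∨ ∃ b ∈ kerPrj T Z, ∑ l, v l * b l ≠ 0) := by
      by_cases hbot : kerPrj T Z = ⊥
      · refine ⟨Pi.single l 1, ?_, Or.inl hbot⟩
        rw [evL_single]
        exact hl
      · obtain ⟨b, hb, hb0⟩ := Submodule.exists_mem_ne_zero_of_ne_bot hbot
        obtain ⟨l', hl'⟩ : ∃ l', b l' ≠ 0 := by
          by_contra hcon
          push Not at hcon
          exact hb0 (funext hcon)
        have h1 : ∑ j, (Pi.single l' 1 : Fin n → ℂ) j * b j = b l' := by
          rw [Finset.sum_eq_single l']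
          · simp
          · intro j _ hj
            simp [Pi.single_eq_of_ne hj]
          · simp
        have h2 : ∑ j, (Pi.single l 1 : Fin n → ℂ) j * b j = b l := by
          rw [Finset.sum_eq_single l]
          · simp
          · intro j _ hj
            simp [Pi.single_eq_of_ne hj]
          · simp
        by_cases hbl : b l = 0
        · by_cases halg : IsAlgebraic A (evL ξ (Pi.single l' 1))
          · refine ⟨Pi.single l' 1 + Pi.single l 1, ?_, Or.inr ⟨b, hb, ?_⟩⟩
            · intro hcon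
              apply hl
              rw [← evL_single ξ l]
              exact hE _ _ hcon halg
            · simp only [Pi.add_apply, add_mul, Finset.sum_add_distrib]
              rw [h1, h2, hbl, add_zero]
              exact hl'
          · exact ⟨Pi.single l' 1, halg, Or.inr ⟨b, hb, by rw [h1]; exact hl'⟩⟩
        · refine ⟨Pi.single l 1, ?_, Or.inr ⟨b, hb, by rw [h2]; exact hbl⟩⟩
          rw [evL_single]
          exact hl
    have hprj : ∀ b : Fin n → ℂ, prj (Fin.cons v Z : Fin (i + 1) → Fin n → ℂ) b = 0 ↔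
        (∑ l, v l * b l = 0 ∧ prj Z b = 0) := by
      intro b
      constructor
      · intro h
        refine ⟨?_, ?_⟩
        · have := congrFun h 0
          simpa [prj] using this
        · funext j
          have := congrFun h j.succ
          simpa [prj] using this
      · rintro ⟨h1, h2⟩
        funext j
        refine Fin.cases ?_ (fun j => ?_) j
        · simpa [prj] using h1
        · have := congrFun h2 j
          simpa [prj] using this
    refine ⟨Fin.cons v Z, ?_, ?_⟩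
    · have h1 := (hZ.option_iff_transcendental (evL ξ v)).mpr hv
      have h2 := h1.comp _ (finSuccEquiv i).injective
      have h3 : (fun o : Option (Fin i) => o.elim (evL ξ v) fun j => evL ξ (Z j)) ∘
          (finSuccEquiv i) = fun j => evL ξ ((Fin.cons v Z : Fin (i + 1) → Fin n → ℂ) j) := by
        funext j
        refine Fin.cases ?_ (fun j => ?_) j
        · simp
        · simp
      rw [h3] at h2
      exact h2
    · have hle : kerPrj T (Fin.cons v Z : Fin (i + 1) → Fin n → ℂ) ≤ kerPrj T Z := by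
        intro b hb
        rw [mem_kerPrj, hprj] at hb
        exact ⟨hb.1, hb.2.2⟩
      rcases hv' with hbot | ⟨b, hb, hb'⟩
      · rw [hbot] at hle
        rw [le_bot_iff.mp hle, finrank_bot]
        exact Nat.zero_le _
      · have hlt : kerPrj T (Fin.cons v Z : Fin (i + 1) → Fin n → ℂ) < kerPrj T Z := by
          refine lt_of_le_of_ne hle ?_
          intro heq
          rw [← heq, mem_kerPrj, hprj] at hb
          exact hb' hb.2.1
        have := Submodule.finrank_lt_finrank_of_lt hlt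
        omega

theorem exists_proj {n d : ℕ} {L : Type} [Field L] [Algebra ℂ L] (ξ : Fin n → L)
    (htr : (d : Cardinal) ≤ Algebra.trdeg ℂ (IntermediateField.adjoin ℂ (Set.range ξ)))
    (T : Submodule ℂ (Fin n → ℂ)) (hT : Module.finrank ℂ T ≤ d) :
    ∃ Z : Fin d → Fin n → ℂ,
      AlgebraicIndependent ℂ (fun j => ∑ i, algebraMap ℂ L (Z j i) * ξ i) ∧
      ∀ b ∈ T, prj Z b = 0 → b = 0 := by
  obtain ⟨Z, hZ, hk⟩ := exists_proj_aux ξ htr T hT d le_rfl
  refine ⟨Z, hZ, fun b hb hb0 => ?_⟩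
  rw [Nat.sub_self, Nat.le_zero, Submodule.finrank_eq_zero] at hk
  have h1 : b ∈ kerPrj T Z := ⟨hb, hb0⟩
  rw [hk] at h1
  exact h1

end Pool.Agent.Lib.MP_209724_lc.GC
end
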