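import Mathlib
import Pool.Agent.Lib.MP_209724_lc.MV.Branch
import Pool.Agent.Lib.MP_209724_lc.GC.Proj

section

/-!
A generic point near a point where a non-degenerate system of equations holds.
-/

namespace Pool.Agent.Lib.MP_209724_lc.GC

open MvPolynomial Filter Topology Metric

private theorem generic_differentiable_eval {d : ℕ} (c : MvPolynomial (Fin d) ℂ) :
    Differentiable ℂ fun z : Fin d → ℂ => eval z c := by
  induction c using MvPolynomial.induction_on with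
  | C a => simp
  | add p q hp hq =>
    simp only [map_add]
    exact hp.add hq
  | mul_X p i hp =>
    simp only [map_mul, eval_X]
    exact hp.mul (by fun_prop)

/-- A function which is complex differentiable on a ball around a real point and vanishes at the
real points of the ball vanishes on the ball. -/
private theorem generic_real_points {n : ℕ} (q : (Fin n → ℂ) → ℂ) (κ₁ : Fin n → ℝ) {δ : ℝ}
    (hq : DifferentiableOn ℂ q (ball (fun i => (κ₁ i : ℂ)) δ))
    (h0 : ∀ κ : Fin n → ℝ, (fun i => (κ i : ℂ)) ∈ ball (fun i => (κ₁ i : ℂ)) δ →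
      q (fun i => (κ i : ℂ)) = 0) :
    ∀ x ∈ ball (fun i => (κ₁ i : ℂ)) δ, q x = 0 := by
  intro x hx
  have hδ : 0 < δ := (dist_nonneg).trans_lt hx
  set p : Fin n → ℂ := fun i => ((x i).re : ℂ) with hp
  set v : Fin n → ℂ := fun i => ((x i).im : ℂ) with hv
  set ℓ : ℂ → Fin n → ℂ := fun s => p + s • v with hℓ
  have hℓd : Differentiable ℂ ℓ := by fun_prop
  set S : Set ℂ := ℓ ⁻¹' ball (fun i => (κ₁ i : ℂ)) δ with hS
  have hSo : IsOpen S := isOpen_ball.preimage hℓd.continuous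
  have hSc : Convex ℝ S := by
    have hlin : ∃ (f : ℂ →ᵃ[ℝ] (Fin n → ℂ)), ⇑f = ℓ := by
      refine ⟨AffineMap.mk ℓ
        (((LinearMap.toSpanSingleton ℂ (Fin n → ℂ) v).restrictScalars ℝ)) ?_, rfl⟩
      intro s t
      simp only [hℓ, vadd_eq_add, LinearMap.coe_restrictScalars,
        LinearMap.toSpanSingleton_apply]
      rw [add_smul]
      abel
    obtain ⟨f, hf⟩ := hlin
    rw [hS, ← hf]
    exact (convex_ball _ _).affine_preimage f
  have hpb : p ∈ ball (fun i => (κ₁ i : ℂ)) δ := by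
    rw [mem_ball, dist_pi_lt_iff hδ] at hx ⊢
    intro i
    refine lt_of_le_of_lt ?_ (hx i)
    rw [Complex.dist_eq, Complex.dist_eq, hp]
    have h1 : (((x i).re : ℂ) - (κ₁ i : ℂ)) = (((x i - (κ₁ i : ℂ)).re : ℝ) : ℂ) := by
      simp
    rw [h1, Complex.norm_real]
    exact Complex.abs_re_le_norm _
  have h0S : (0 : ℂ) ∈ S := by
    rw [hS, Set.mem_preimage]
    simp only [hℓ, zero_smul, add_zero]
    exact hpb
  have hxI : ℓ Complex.I = x := by
    funext i
    simp only [hℓ, Pi.add_apply, Pi.smul_apply, smul_eq_mul, hp, hv]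
    rw [mul_comm]
    exact Complex.re_add_im (x i)
  have hIS : Complex.I ∈ S := by
    rw [hS, Set.mem_preimage, hxI]; exact hx
  have hqℓ : DifferentiableOn ℂ (fun s => q (ℓ s)) S :=
    hq.comp hℓd.differentiableOn (fun s hs => hs)
  have hana : AnalyticOnNhd ℂ (fun s => q (ℓ s)) S := hqℓ.analyticOnNhd hSo
  have hfreq : ∃ᶠ s in 𝓝[≠] (0:ℂ), q (ℓ s) = 0 := by
    have hsub : ∀ᶠ s : ℂ in 𝓝 0, s ∈ S := hSo.mem_nhds h0S
    obtain ⟨η, hη, hball⟩ := Metric.eventually_nhds_iff_ball.1 hsub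
    rw [frequently_iff]
    intro U hU
    obtain ⟨η', hη', hball'⟩ := Metric.mem_nhdsWithin_iff.1 hU
    set s : ℝ := min η η' / 2 with hs
    have hs0 : 0 < s := by positivity
    have hs1 : s < η := by
      have := min_le_left η η'
      linarith
    have hs2 : s < η' := by
      have := min_le_right η η'
      linarith
    refine ⟨(s : ℂ), hball' ⟨?_, ?_⟩, ?_⟩
    · rw [mem_ball, dist_zero_right, Complex.norm_real, Real.norm_of_nonneg hs0.le]
      exact hs2
    · simp [hs0.ne']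
    · have hm : ((s:ℝ):ℂ) ∈ S := hball _ (by
        rw [mem_ball, dist_zero_right, Complex.norm_real, Real.norm_of_nonneg hs0.le]
        exact hs1)
      have hreal : ℓ (s : ℂ) = fun i => (((x i).re + s * (x i).im : ℝ) : ℂ) := by
        funext i
        simp [hℓ, hp, hv]
      rw [hreal]
      refine h0 _ ?_
      rw [← hreal]
      exact hm
  have := hana.eqOn_of_preconnected_of_frequently_eq
    (g := fun _ => (0:ℂ)) (analyticOnNhd_const) hSc.isPreconnected h0S hfreq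
  have h2 := this hIS
  simp only [hxI] at h2
  exact h2

theorem exists_generic {n d k : ℕ} (hdk : d + k = n) (a : Fin n → Fin k → ℤ) (w : Fin n → ℂ)
    (ω : Fin k → ℝ) (hw : ∀ i, (w i).re = -∑ j, a i j * ω j) (H : (Fin d → ℂ) → Fin n → ℂ)
    (z₁ : Fin d → ℂ) {ρ : ℝ} (hρ : 0 < ρ) (hH : ContDiffOn ℂ 1 H (ball z₁ ρ))
    (hHw : H z₁ = w)
    (htrans : ∀ (v : Fin d → ℂ) (β : Fin k → ℂ),
      (∀ i, fderiv ℂ H z₁ v i = ∑ j, (a i j : ℂ) * β j) → v = 0 ∧ β = 0)
    (c : MvPolynomial (Fin d) ℂ) (hc : c ≠ 0) {ε : ℝ} (hε : 0 < ε) :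
    ∃ (κ : Fin n → ℝ) (z₀ : Fin d → ℂ) (ς₀ : Fin k → ℂ), (∀ j, ‖ς₀ j + ω j‖ < ε) ∧
      z₀ ∈ ball z₁ ε ∧
      (∀ i, H z₀ i = 2 * Real.pi * Complex.I * κ i + ∑ j, (a i j : ℂ) * ς₀ j) ∧
      eval z₀ c ≠ 0 := by
  -- the linear map `ς ↦ a ς`
  set aL : (Fin k → ℂ) →L[ℂ] (Fin n → ℂ) := LinearMap.toContinuousLinearMap
    (Matrix.mulVecLin (Matrix.of fun i j => (a i j : ℂ))) with haL
  have haL' : ∀ β i, aL β i = ∑ j, (a i j : ℂ) * β j := by
    intro β i
    simp [haL, Matrix.mulVec, dotProduct]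
  set Ψ : (Fin d → ℂ) × (Fin k → ℂ) → (Fin n → ℂ) := fun q => H q.1 - aL q.2 with hΨ
  set p₁ : (Fin d → ℂ) × (Fin k → ℂ) := (z₁, fun j => -(ω j : ℂ)) with hp₁
  have hHat : ContDiffAt ℂ 1 H z₁ := hH.contDiffAt (ball_mem_nhds z₁ hρ)
  have hHat' : ContDiffAt ℂ 1 H p₁.1 := hHat
  have hΨc : ContDiffAt ℂ 1 Ψ p₁ := by
    have h1 : ContDiffAt ℂ 1 (fun q : (Fin d → ℂ) × (Fin k → ℂ) => H q.1) p₁ :=
      ContDiffAt.comp p₁ hHat' contDiffAt_fst
    have h2 : ContDiffAt ℂ 1 (fun q : (Fin d → ℂ) × (Fin k → ℂ) => aL q.2) p₁ :=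
      (aL.contDiff.comp contDiff_snd).contDiffAt
    exact h1.sub h2
  -- the derivative
  set Ψ' : (Fin d → ℂ) × (Fin k → ℂ) →L[ℂ] (Fin n → ℂ) :=
    (fderiv ℂ H z₁).comp (ContinuousLinearMap.fst ℂ _ _) -
      aL.comp (ContinuousLinearMap.snd ℂ _ _) with hΨ'
  have hder : HasFDerivAt Ψ Ψ' p₁ := by
    have h1 : HasFDerivAt H (fderiv ℂ H z₁) p₁.1 := (hHat.differentiableAt one_ne_zero).hasFDerivAt
    have h2 : HasFDerivAt (fun q : (Fin d → ℂ) × (Fin k → ℂ) => H q.1)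
        ((fderiv ℂ H z₁).comp (ContinuousLinearMap.fst ℂ _ _)) p₁ := h1.comp p₁ hasFDerivAt_fst
    have h3 : HasFDerivAt (fun q : (Fin d → ℂ) × (Fin k → ℂ) => aL q.2)
        (aL.comp (ContinuousLinearMap.snd ℂ _ _)) p₁ := aL.hasFDerivAt.comp p₁ hasFDerivAt_snd
    exact h2.sub h3
  have hinj : Function.Injective Ψ' := by
    rw [injective_iff_map_eq_zero]
    rintro ⟨v, β⟩ h
    have h1 := htrans v β (fun i => by
      have h2 := congrFun h i
      simp only [hΨ', sub_apply, ContinuousLinearMap.comp_apply, Pi.sub_apply, Pi.zero_apply,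
        sub_eq_zero] at h2
      rw [← haL']
      exact h2)
    rw [h1.1, h1.2]
    rfl
  have hfin : Module.finrank ℂ ((Fin d → ℂ) × (Fin k → ℂ)) = Module.finrank ℂ (Fin n → ℂ) := by
    rw [Module.finrank_prod]
    simp [hdk]
  set e : ((Fin d → ℂ) × (Fin k → ℂ)) ≃L[ℂ] (Fin n → ℂ) :=
    (LinearEquiv.ofInjectiveOfFinrankEq (Ψ' : _ →ₗ[ℂ] _) hinj hfin).toContinuousLinearEquiv
    with he
  have heq : (e : ((Fin d → ℂ) × (Fin k → ℂ)) →L[ℂ] (Fin n → ℂ)) = Ψ' := by
    ext x <;> rfl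
  have hder' : HasFDerivAt Ψ (e : ((Fin d → ℂ) × (Fin k → ℂ)) →L[ℂ] (Fin n → ℂ)) p₁ := by
    rw [heq]; exact hder
  have hstrict := hΨc.hasStrictFDerivAt' hder' one_ne_zero
  set g := hΨc.localInverse hder' one_ne_zero with hg
  have hgc : ContDiffAt ℂ 1 g (Ψ p₁) := hΨc.to_localInverse hder' one_ne_zero
  have hg1 : g (Ψ p₁) = p₁ := hΨc.localInverse_apply_image hder' one_ne_zero
  have hgd : ∀ᶠ y in 𝓝 (Ψ p₁), DifferentiableAt ℂ g y := by
    filter_upwards [hgc.eventually (by simp)] with y hy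
    exact hy.differentiableAt one_ne_zero
  have hgr : ∀ᶠ y in 𝓝 (Ψ p₁), Ψ (g y) = y := hstrict.eventually_right_inverse
  have hgl : ∀ᶠ q in 𝓝 p₁, g (Ψ q) = q := hstrict.eventually_left_inverse
  have hgb : ∀ᶠ y in 𝓝 (Ψ p₁), dist (g y) p₁ < ε := by
    have : ContinuousAt g (Ψ p₁) := hgc.continuousAt
    have h2 := this.tendsto
    rw [hg1] at h2
    exact h2 (ball_mem_nhds p₁ hε)
  -- the parametrization `x ↦ 2πi x`
  set κ₁ : Fin n → ℝ := fun i => (w i).im / (2 * Real.pi) with hκ₁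
  set em : (Fin n → ℂ) → (Fin n → ℂ) := fun x i => 2 * Real.pi * Complex.I * x i with hem
  have hemc : Differentiable ℂ em := by
    rw [differentiable_pi]
    intro i
    fun_prop
  have hem1 : em (fun i => (κ₁ i : ℂ)) = Ψ p₁ := by
    funext i
    simp only [hem, hκ₁, hΨ, hp₁, hHw, Pi.sub_apply, haL']
    have h1 : (∑ j, (a i j : ℂ) * -(ω j : ℂ)) = ((w i).re : ℂ) := by
      rw [hw i]
      push_cast
      rw [← Finset.sum_neg_distrib]
      exact Finset.sum_congr rfl fun j _ => by ring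
    rw [h1]
    have h2 : w i - ((w i).re : ℂ) = (w i).im * Complex.I := by
      rw [sub_eq_iff_eq_add, add_comm]
      exact (Complex.re_add_im (w i)).symm
    rw [h2]
    have hpi : (Real.pi : ℂ) ≠ 0 := by exact_mod_cast Real.pi_ne_zero
    push_cast
    field_simp
  have hevx : ∀ᶠ x in 𝓝 (fun i => (κ₁ i : ℂ)), DifferentiableAt ℂ g (em x) ∧
      Ψ (g (em x)) = em x ∧ dist (g (em x)) p₁ < ε := by
    have ht : Tendsto em (𝓝 (fun i => (κ₁ i : ℂ))) (𝓝 (Ψ p₁)) := by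
      rw [← hem1]
      exact hemc.continuous.tendsto _
    filter_upwards [ht.eventually hgd, ht.eventually hgr, ht.eventually hgb] with x h1 h2 h3
    exact ⟨h1, h2, h3⟩
  obtain ⟨δ, hδ, hball⟩ := Metric.eventually_nhds_iff_ball.1 hevx
  -- a real point where `c` does not vanish
  obtain ⟨κ, hκb, hκc⟩ : ∃ κ : Fin n → ℝ, (fun i => (κ i : ℂ)) ∈ ball (fun i => (κ₁ i : ℂ)) δ ∧
      eval (g (em fun i => (κ i : ℂ))).1 c ≠ 0 := by
    by_contra hcon
    push Not at hcon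
    have hq := generic_real_points (fun x => eval (g (em x)).1 c) κ₁ (δ := δ) (by
      intro x hx
      have h1 := (hball x hx).1
      have h2 : DifferentiableAt ℂ (fun x => (g (em x)).1) x :=
        (h1.comp x (hemc x)).fst
      exact ((generic_differentiable_eval c).differentiableAt.comp x h2).differentiableWithinAt)
      hcon
    -- `c` vanishes near `z₁`
    have hz : ∀ᶠ z in 𝓝 z₁, eval z c = 0 := by
      set emi : (Fin n → ℂ) → (Fin n → ℂ) := fun y i => y i / (2 * Real.pi * Complex.I) with hemi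
      have hpi : (2 * Real.pi * Complex.I : ℂ) ≠ 0 := by
        simp [Real.pi_ne_zero]
      have hee : ∀ y, em (emi y) = y := by
        intro y
        funext i
        simp only [hem, hemi]
        field_simp
      have hee' : ∀ x, emi (em x) = x := by
        intro x
        funext i
        simp only [hem, hemi]
        field_simp
      have hi : Tendsto (fun z : Fin d → ℂ => (z, fun j => -(ω j : ℂ))) (𝓝 z₁) (𝓝 p₁) := by
        have : Continuous (fun z : Fin d → ℂ => ((z, fun j => -(ω j : ℂ)) :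
          (Fin d → ℂ) × (Fin k → ℂ))) := by fun_prop
        exact this.tendsto z₁
      have hΨt : Tendsto Ψ (𝓝 p₁) (𝓝 (Ψ p₁)) := hΨc.continuousAt.tendsto
      have hemit : Tendsto emi (𝓝 (Ψ p₁)) (𝓝 (fun i => (κ₁ i : ℂ))) := by
        have : Continuous emi := by fun_prop
        have h2 := this.tendsto (Ψ p₁)
        have h3 : emi (Ψ p₁) = fun i => (κ₁ i : ℂ) := by rw [← hem1, hee']
        rwa [h3] at h2
      have ht := hemit.comp (hΨt.comp hi)
      filter_upwards [hi.eventually hgl, ht.eventually (ball_mem_nhds _ hδ)] with z h1 h2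
      have h3 := hq _ h2
      simp only [Function.comp_apply] at h3
      rw [hee, h1] at h3
      exact h3
    obtain ⟨r, hr, hrb⟩ := Metric.eventually_nhds_iff_ball.1 hz
    apply hc
    refine MvPolynomial.funext_set (fun i => ball (z₁ i) r) (fun i => ?_) ?_
    · exact infinite_of_mem_nhds (z₁ i) (ball_mem_nhds _ hr)
    · intro x hx
      rw [map_zero]
      refine hrb x ?_
      rw [mem_ball, dist_pi_lt_iff hr]
      intro i
      exact hx i (Set.mem_univ i)
  obtain ⟨-, h2, h3⟩ := hball _ hκb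
  refine ⟨κ, (g (em fun i => (κ i : ℂ))).1, (g (em fun i => (κ i : ℂ))).2, ?_, ?_, ?_, hκc⟩
  · intro j
    rw [Prod.dist_eq, max_lt_iff] at h3
    have h4 := (dist_pi_lt_iff hε).1 h3.2 j
    rw [Complex.dist_eq, hp₁] at h4
    simpa using h4
  · rw [Prod.dist_eq, max_lt_iff] at h3
    exact h3.1
  · intro i
    have h4 := congrFun h2 i
    simp only [hΨ, Pi.sub_apply, haL', hem] at h4
    rw [← h4]
    simp only [hem]
    ring

end Pool.Agent.Lib.MP_209724_lc.GC
end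

section

/-!
Multiplying an algebraic element of a valuation ring into the integral closure of the valuation
ring of the base field.
-/

namespace Pool.Agent.Lib.MP_209724_lc.GC

open Polynomial

/-- If `h u ^ j + ∑ c i u ^ i = 0` with `h` and `c i` integral then `h u` is integral. -/
private theorem isIntegral_mul_of_rel {A L : Type*} [CommRing A] [CommRing L] [Algebra A L]
    {h u : L} {j : ℕ} (hj : 0 < j) {c : ℕ → L} (hc : ∀ i, IsIntegral A (c i))
    (hh : IsIntegral A h) (hrel : h * u ^ j + ∑ i ∈ Finset.range j, c i * u ^ i = 0) :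
    IsIntegral A (h * u) := by
  let B := integralClosure A L
  let h' : B := ⟨h, hh⟩
  let c' : ℕ → B := fun i => ⟨c i, hc i⟩
  have h1 : IsIntegral B (h * u) := by
    refine ⟨X ^ j + ∑ i ∈ Finset.range j, C (c' i * h' ^ (j - 1 - i)) * X ^ i, ?_, ?_⟩
    · refine monic_X_pow_add ?_
      rw [← mem_degreeLT]
      refine Submodule.sum_mem _ fun i hi => mem_degreeLT.2 ?_
      refine lt_of_le_of_lt (degree_C_mul_X_pow_le _ _) ?_
      exact_mod_cast Finset.mem_range.1 hi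
    · rw [eval₂_add, eval₂_finsetSum, eval₂_pow, eval₂_X]
      have h2 : ∀ i ∈ Finset.range j,
          eval₂ (algebraMap B L) (h * u) (C (c' i * h' ^ (j - 1 - i)) * X ^ i) =
          h ^ (j - 1) * (c i * u ^ i) := by
        intro i hi
        have hi' := Finset.mem_range.1 hi
        rw [eval₂_mul, eval₂_C, eval₂_pow, eval₂_X, map_mul, map_pow]
        have e1 : (algebraMap B L) (c' i) = c i := rfl
        have e2 : (algebraMap B L) h' = h := rfl
        rw [e1, e2, mul_pow]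
        have e3 : j - 1 = (j - 1 - i) + i := by omega
        conv_rhs => rw [e3, pow_add]
        ring
      rw [Finset.sum_congr rfl h2, ← Finset.mul_sum]
      have h3 : (h * u) ^ j = h ^ (j - 1) * (h * u ^ j) := by
        obtain ⟨k, rfl⟩ := Nat.exists_eq_add_of_lt hj
        simp only [Nat.zero_add, Nat.add_sub_cancel]
        ring
      rw [h3, ← mul_add, hrel, mul_zero]
  exact isIntegral_trans _ h1

private theorem divX_iter_succ {F : Type*} [Field F] (q : F[X]) (j : ℕ) :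
    divX^[j] q = divX^[j + 1] q * X + C (q.coeff j) := by
  rw [Function.iterate_succ_apply']
  have h : ∀ (j i : ℕ), (divX^[j] q).coeff i = q.coeff (i + j) := by
    intro j
    induction j with
    | zero => intro i; rfl
    | succ j ih =>
      intro i
      rw [Function.iterate_succ_apply', coeff_divX, ih]
      congr 1
      omega
  conv_lhs => rw [← divX_mul_X_add (divX^[j] q)]
  rw [h j 0, Nat.zero_add]

private theorem divX_iter_zero {F : Type*} [Field F] (q : F[X]) (j : ℕ) (hj : q.natDegree < j) :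
    divX^[j] q = 0 := by
  ext i
  have h : ∀ (j i : ℕ), (divX^[j] q).coeff i = q.coeff (i + j) := by
    intro j
    induction j with
    | zero => intro i; rfl
    | succ j ih =>
      intro i
      rw [Function.iterate_succ_apply', coeff_divX, ih]
      congr 1
      omega
  rw [h, coeff_zero]
  exact coeff_eq_zero_of_natDegree_lt (by omega)

theorem exists_unit_mul_vInt {F L : Type} [Field F] [Field L] [Algebra F L]
    (𝒪 : ValuationSubring L) {u : L} (hu : u ∈ 𝒪) (halg : IsAlgebraic F u) :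
    ∃ y : L, VInt F 𝒪 y ∧ VInt F 𝒪 (y * u) ∧ 𝒪.valuation y = 1 := by
  obtain ⟨p, hp0, hp⟩ := halg
  have hvu : 𝒪.valuation u ≤ 1 := (𝒪.valuation_le_one_iff u).2 hu
  -- normalize
  obtain ⟨i₀, hi₀, hmax⟩ := Finset.exists_max_image p.support
    (fun i => 𝒪.valuation (algebraMap F L (p.coeff i))) (support_nonempty.2 hp0)
  have hc0 : p.coeff i₀ ≠ 0 := mem_support_iff.1 hi₀
  set q : F[X] := C (p.coeff i₀)⁻¹ * p with hq
  have hqc : ∀ i, q.coeff i = (p.coeff i₀)⁻¹ * p.coeff i := fun i => by rw [hq, coeff_C_mul]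
  have hq1 : q.coeff i₀ = 1 := by rw [hqc, inv_mul_cancel₀ hc0]
  have hval0 : 𝒪.valuation (algebraMap F L (p.coeff i₀)) ≠ 0 := by
    rw [ne_eq, map_eq_zero, map_eq_zero]
    exact hc0
  have hqle : ∀ i, 𝒪.valuation (algebraMap F L (q.coeff i)) ≤ 1 := by
    intro i
    rw [hqc, map_mul, map_inv₀, map_mul, map_inv₀]
    by_cases hi : i ∈ p.support
    · have h1 := hmax i hi
      calc _ ≤ (𝒪.valuation (algebraMap F L (p.coeff i₀)))⁻¹ *
            𝒪.valuation (algebraMap F L (p.coeff i₀)) := mul_le_mul_right h1 _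
        _ = 1 := inv_mul_cancel₀ hval0
    · rw [notMem_support_iff.1 hi, map_zero, map_zero, mul_zero]
      exact zero_le_one
  have hqu : aeval u q = 0 := by rw [hq, map_mul, hp, mul_zero]
  have hqint : ∀ i, IsIntegral (base F 𝒪) (algebraMap F L (q.coeff i)) := by
    intro i
    have h1 : q.coeff i ∈ base F 𝒪 := mem_base.2 ((𝒪.valuation_le_one_iff _).1 (hqle i))
    exact isIntegral_algebraMap (R := base F 𝒪) (A := L) (x := ⟨q.coeff i, h1⟩)
  -- Horner sums
  set h : ℕ → L := fun j => aeval u (divX^[j] q) with hh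
  have hstep : ∀ j, h j = h (j + 1) * u + algebraMap F L (q.coeff j) := by
    intro j
    simp only [hh]
    rw [divX_iter_succ q j, map_add, map_mul, aeval_X, aeval_C]
  have hzero : ∀ j, q.natDegree < j → h j = 0 := by
    intro j hj
    simp only [hh]
    rw [divX_iter_zero q j hj, map_zero]
  have hrel : ∀ j, h j * u ^ j + ∑ i ∈ Finset.range j, algebraMap F L (q.coeff i) * u ^ i = 0 := by
    intro j
    induction j with
    | zero =>
      simp only [hh, Function.iterate_zero, id_eq, hqu, zero_mul, Finset.range_zero,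
        Finset.sum_empty, add_zero]
    | succ j ih =>
      rw [Finset.sum_range_succ, ← ih, hstep j]
      ring
  have hint : ∀ d j, 1 ≤ j → q.natDegree < j + d →
      IsIntegral (base F 𝒪) (h j) ∧ IsIntegral (base F 𝒪) (h j * u) := by
    intro d
    induction d with
    | zero =>
      intro j _ hj
      rw [hzero j (by omega), zero_mul]
      exact ⟨isIntegral_zero, isIntegral_zero⟩
    | succ d ih =>
      intro j hj1 hj
      obtain ⟨h1, h2⟩ := ih (j + 1) (by omega) (by omega)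
      have h3 : IsIntegral (base F 𝒪) (h j) := by
        rw [hstep j]
        exact h2.add (hqint j)
      exact ⟨h3, isIntegral_mul_of_rel hj1 hqint h3 (hrel j)⟩
  -- the largest coefficient of value one
  classical
  have hex : ∃ i ≤ q.natDegree, 𝒪.valuation (algebraMap F L (q.coeff i)) = 1 := by
    refine ⟨i₀, le_natDegree_of_ne_zero (by rw [hq1]; exact one_ne_zero), ?_⟩
    rw [hq1, map_one, map_one]
  obtain ⟨i₁, hi₁, hi₁'⟩ := hex
  set r := Nat.findGreatest (fun i => 𝒪.valuation (algebraMap F L (q.coeff i)) = 1)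
    q.natDegree with hr
  have hr1 : 𝒪.valuation (algebraMap F L (q.coeff r)) = 1 :=
    Nat.findGreatest_spec (P := fun i => 𝒪.valuation (algebraMap F L (q.coeff i)) = 1) hi₁ hi₁'
  have hr2 : ∀ j, r < j → 𝒪.valuation (algebraMap F L (q.coeff j)) < 1 := by
    intro j hj
    rcases lt_or_eq_of_le (hqle j) with h1 | h1
    · exact h1
    · exfalso
      rcases le_or_gt j q.natDegree with h2 | h2
      · have := Nat.le_findGreatest
          (P := fun i => 𝒪.valuation (algebraMap F L (q.coeff i)) = 1) h2 h1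
        omega
      · rw [coeff_eq_zero_of_natDegree_lt h2, map_zero, map_zero] at h1
        exact zero_ne_one h1
  have hlt : ∀ d j, r < j → q.natDegree < j + d → 𝒪.valuation (h j) < 1 := by
    intro d
    induction d with
    | zero =>
      intro j _ hj
      rw [hzero j (by omega), map_zero]
      exact zero_lt_one
    | succ d ih =>
      intro j hj1 hj
      rw [hstep j]
      refine lt_of_le_of_lt (Valuation.map_add _ _ _) (max_lt ?_ (hr2 j hj1))
      rw [map_mul]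
      calc _ ≤ 𝒪.valuation (h (j + 1)) * 1 := mul_le_mul_right hvu _
        _ = 𝒪.valuation (h (j + 1)) := mul_one _
        _ < 1 := ih (j + 1) (by omega) (by omega)
  have hy : 𝒪.valuation (h r) = 1 := by
    rw [hstep r, add_comm]
    have h1 : 𝒪.valuation (h (r + 1) * u) < 𝒪.valuation (algebraMap F L (q.coeff r)) := by
      rw [hr1, map_mul]
      calc _ ≤ 𝒪.valuation (h (r + 1)) * 1 := mul_le_mul_right hvu _
        _ = 𝒪.valuation (h (r + 1)) := mul_one _
        _ < 1 := hlt (q.natDegree + 1) (r + 1) (by omega) (by omega)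
    rw [Valuation.map_add_eq_of_lt_left _ h1, hr1]
  have hrpos : 1 ≤ r := by
    by_contra hcon
    have h0 : r = 0 := by omega
    rw [h0] at hy
    have h1 : h 0 = 0 := by
      simp only [hh, Function.iterate_zero, id_eq, hqu]
    rw [h1, map_zero] at hy
    exact zero_ne_one hy
  obtain ⟨h1, h2⟩ := hint (q.natDegree + 1) r hrpos (by omega)
  exact ⟨h r, vInt_iff.2 h1, vInt_iff.2 h2, hy⟩

end Pool.Agent.Lib.MP_209724_lc.GC
end

section

/-!
The variables `t`, the units `u`, and linear algebra of tangent functionals.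
-/

namespace Pool.Agent.Lib.MP_209724_lc.GC

open MvPolynomial Filter Topology

theorem zpow_finset_sum {L ι : Type*} [Field L] {x : L} (hx : x ≠ 0) (s : Finset ι) (f : ι → ℤ) :
    x ^ (∑ j ∈ s, f j) = ∏ j ∈ s, x ^ f j := by
  classical
  induction s using Finset.induction_on with
  | empty => simp
  | insert a s ha ih => rw [Finset.sum_insert ha, Finset.prod_insert ha, zpow_add₀ hx, ih]

section

variable {n k : ℕ} {L : Type} [Field L] (η : Fin n → L) (hη : ∀ i, η i ≠ 0)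

include hη in
theorem prod_zpow_sum (m : Fin k → Fin n → ℤ) (μ : Fin k → ℤ) :
    ∏ j, (∏ i, η i ^ m j i) ^ μ j = ∏ i, η i ^ (∑ j, μ j * m j i) := by
  have h1 : ∀ j, (∏ i, η i ^ m j i) ^ μ j = ∏ i, η i ^ (μ j * m j i) := by
    intro j
    rw [← Finset.prod_zpow]
    refine Finset.prod_congr rfl fun i _ => ?_
    rw [← zpow_mul, mul_comm]
  rw [Finset.prod_congr rfl fun j _ => h1 j, Finset.prod_comm]
  refine Finset.prod_congr rfl fun i _ => ?_
  rw [zpow_finset_sum (hη i)]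

include hη in
theorem exists_units (ρ : Fin n → ℝ) (𝒪 : ValuationSubring L)
    (h𝒪 : ∀ m : Fin n → ℤ, 𝒪.valuation (∏ i, η i ^ m i) < 1 ↔ 0 < ∑ i, ρ i * (m i : ℝ))
    (ω : Fin k → ℝ) (m : Fin k → Fin n → ℤ) (a : Fin n → Fin k → ℤ)
    (hωm : ∀ j, ω j = ∑ i, m j i * ρ i) (hρa : ∀ i, ρ i = ∑ j, a i j * ω j)
    (t : Fin k → L) (ht : ∀ j, t j = ∏ i, η i ^ m j i)
    (u : Fin n → L) (hu : ∀ i, u i = η i * ∏ j, t j ^ (-a i j)) :
    (∀ j, t j ≠ 0) ∧ (∀ i, u i ≠ 0) ∧
      (∀ μ : Fin k → ℤ, 𝒪.valuation (∏ j, t j ^ μ j) < 1 ↔ 0 < ∑ j, ω j * (μ j : ℝ)) ∧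
      ∀ i, u i ∈ 𝒪 ∧ (u i)⁻¹ ∈ 𝒪 := by
  classical
  have ht0 : ∀ j, t j ≠ 0 := fun j => by
    rw [ht]; exact Finset.prod_ne_zero_iff.2 fun i _ => zpow_ne_zero _ (hη i)
  have hu0 : ∀ i, u i ≠ 0 := fun i => by
    rw [hu]
    exact mul_ne_zero (hη i) (Finset.prod_ne_zero_iff.2 fun j _ => zpow_ne_zero _ (ht0 j))
  have htμ : ∀ μ : Fin k → ℤ, ∏ j, t j ^ μ j = ∏ i, η i ^ (∑ j, μ j * m j i) := by
    intro μ
    simp only [ht]
    exact prod_zpow_sum η hη m μ
  have hwt : ∀ μ : Fin k → ℤ, ∑ i, ρ i * ((∑ j, μ j * m j i : ℤ) : ℝ) = ∑ j, ω j * (μ j : ℝ) := by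
    intro μ
    push_cast
    simp only [Finset.mul_sum]
    rw [Finset.sum_comm]
    refine Finset.sum_congr rfl fun j _ => ?_
    rw [hωm, Finset.sum_mul]
    exact Finset.sum_congr rfl fun i _ => by ring
  refine ⟨ht0, hu0, fun μ => ?_, fun i => ?_⟩
  · rw [htμ, h𝒪, hwt]
  · have h1 : u i = ∏ l, η l ^ ((Pi.single i 1 : Fin n → ℤ) l + ∑ j, (-a i j) * m j l) := by
      rw [hu, htμ (fun j => -a i j), ← Finset.prod_congr rfl fun l _ => (zpow_add₀ (hη l) _ _).symm,
        Finset.prod_mul_distrib]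
      congr 1
      rw [Finset.prod_eq_single i]
      · simp
      · intro l _ hl
        simp [Pi.single_eq_of_ne hl]
      · simp
    have h2 : ∑ l, ρ l * (((Pi.single i 1 : Fin n → ℤ) l + ∑ j, (-a i j) * m j l : ℤ) : ℝ) =
        0 := by
      have h3 : ∑ l, ρ l * (((Pi.single i 1 : Fin n → ℤ) l : ℤ) : ℝ) = ρ i := by
        rw [Finset.sum_eq_single i]
        · simp
        · intro l _ hl
          simp [Pi.single_eq_of_ne hl]
        · simp
      have h4 := hwt (fun j => -a i j)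
      have h5 : ∑ j, ω j * ((-a i j : ℤ) : ℝ) = - ρ i := by
        rw [hρa i, ← Finset.sum_neg_distrib]
        exact Finset.sum_congr rfl fun j _ => by push_cast; ring
      rw [h5] at h4
      have h6 : ∀ l, ρ l * (((Pi.single i 1 : Fin n → ℤ) l + ∑ j, (-a i j) * m j l : ℤ) : ℝ) =
          ρ l * (((Pi.single i 1 : Fin n → ℤ) l : ℤ) : ℝ) +
            ρ l * ((∑ j, (-a i j) * m j l : ℤ) : ℝ) := by
        intro l
        push_cast
        ring
      rw [Finset.sum_congr rfl fun l _ => h6 l, Finset.sum_add_distrib, h3, h4]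
      ring
    have hv : 𝒪.valuation (u i) ≠ 0 := (Valuation.ne_zero_iff _).mpr (hu0 i)
    have h7 : ¬ 𝒪.valuation (u i) < 1 := by
      rw [h1, h𝒪, h2]
      exact lt_irrefl _
    have h8 : ¬ 𝒪.valuation (u i)⁻¹ < 1 := by
      have h9 : (u i)⁻¹ =
          ∏ l, η l ^ (-((Pi.single i 1 : Fin n → ℤ) l + ∑ j, (-a i j) * m j l)) := by
        rw [h1, ← Finset.prod_inv_distrib]
        exact Finset.prod_congr rfl fun l _ => by rw [zpow_neg]
      rw [h9, h𝒪]
      have h10 : ∑ l, ρ l *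
          ((-((Pi.single i 1 : Fin n → ℤ) l + ∑ j, (-a i j) * m j l) : ℤ) : ℝ) = 0 := by
        rw [← neg_zero, ← h2, ← Finset.sum_neg_distrib]
        exact Finset.sum_congr rfl fun l _ => by push_cast; ring
      rw [h10]
      exact lt_irrefl _
    rw [not_lt] at h7 h8
    rw [map_inv₀] at h8
    constructor
    · rw [← ValuationSubring.valuation_le_one_iff]
      exact (one_le_inv₀ (zero_lt_iff.mpr hv)).mp h8
    · rw [← ValuationSubring.valuation_le_one_iff, map_inv₀]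
      exact (inv_le_one₀ (zero_lt_iff.mpr hv)).mpr h7

omit hη in
/-- the relation between `η`, `u`, `t` under homomorphisms. -/
theorem hom_eta (a : Fin n → Fin k → ℤ) (t : Fin k → L) (ht0 : ∀ j, t j ≠ 0)
    (u : Fin n → L) (hu : ∀ i, u i = η i * ∏ j, t j ^ (-a i j)) [Algebra ℂ L]
    (A : Subalgebra ℂ L) (hηA : ∀ i, η i ∈ A) (htA : ∀ j, t j ∈ A) (huA : ∀ i, u i ∈ A)
    (i : Fin n) (ψ : A →ₐ[ℂ] ℂ) (ς : Fin k → ℂ) (hψ : ∀ j, ψ ⟨t j, htA j⟩ = Complex.exp (ς j)) :
    ψ ⟨η i, hηA i⟩ = ψ ⟨u i, huA i⟩ * Complex.exp (∑ j, (a i j : ℂ) * ς j) := by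
  classical
  have h1 : (⟨u i, huA i⟩ : A) * ∏ j, (⟨t j, htA j⟩ : A) ^ (a i j).toNat =
      ⟨η i, hηA i⟩ * ∏ j, (⟨t j, htA j⟩ : A) ^ (-a i j).toNat := by
    apply Subtype.ext
    have h2 : ∀ e : Fin k → ℕ, ((∏ j, (⟨t j, htA j⟩ : A) ^ e j : A) : L) = ∏ j, t j ^ e j := by
      intro e
      rw [← Subalgebra.val_apply, map_prod]
      simp
    change (u i) * ((∏ j, (⟨t j, htA j⟩ : A) ^ (a i j).toNat : A) : L) =
      η i * ((∏ j, (⟨t j, htA j⟩ : A) ^ (-a i j).toNat : A) : L)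
    rw [h2, h2, hu, mul_assoc, ← Finset.prod_mul_distrib]
    congr 1
    refine Finset.prod_congr rfl fun j _ => ?_
    rw [← zpow_natCast, ← zpow_natCast, ← zpow_add₀ (ht0 j)]
    congr 1
    omega
  have h2 := congrArg ψ h1
  rw [map_mul, map_mul, map_prod, map_prod] at h2
  simp only [map_pow, hψ, ← Complex.exp_nat_mul, ← Complex.exp_sum] at h2
  have h3 : ∑ j, (a i j : ℂ) * ς j =
      ∑ j, ((a i j).toNat : ℂ) * ς j - ∑ j, ((-a i j).toNat : ℂ) * ς j := by
    rw [← Finset.sum_sub_distrib]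
    refine Finset.sum_congr rfl fun j _ => ?_
    have h4 : (a i j : ℤ) = ((a i j).toNat : ℤ) - ((-a i j).toNat : ℤ) := by omega
    have h5 : (a i j : ℂ) = ((a i j).toNat : ℂ) - ((-a i j).toNat : ℂ) := by
      exact_mod_cast congrArg (fun x : ℤ => (x : ℂ)) h4
    rw [h5]
    ring
  rw [h3, Complex.exp_sub, ← mul_div_assoc, h2, mul_div_assoc,
    div_self (Complex.exp_ne_zero _), mul_one]

end

/-- choosing equations of the cone. -/
theorem exists_functionals {n d k : ℕ} (hdk : d + k = n) (w : Fin n → ℂ) (S : Set (Fin n → ℂ))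
    (a : Fin n → Fin k → ℤ)
    (h : ∀ β : Fin k → ℂ, β ≠ 0 → ∃ F : MvPolynomial (Fin n) ℂ, (∀ w' ∈ S, eval w' F = 0) ∧
      ∑ i, (∑ j, (a i j : ℂ) * β j) * eval w (pderiv i F) ≠ 0) :
    ∃ F : Fin k → MvPolynomial (Fin n) ℂ, (∀ l, ∀ w' ∈ S, eval w' (F l) = 0) ∧
      (∀ β : Fin k → ℂ, (∀ l, ∑ i, (∑ j, (a i j : ℂ) * β j) * eval w (pderiv i (F l)) = 0) →
        β = 0) ∧
      ∃ T : Submodule ℂ (Fin n → ℂ), Module.finrank ℂ T ≤ d ∧
        ∀ b : Fin n → ℂ, (∀ l, ∑ i, b i * eval w (pderiv i (F l)) = 0) → b ∈ T := by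
  classical
  -- the functionals
  let A : (Fin k → ℂ) →ₗ[ℂ] (Fin n → ℂ) :=
    { toFun := fun β i => ∑ j, (a i j : ℂ) * β j
      map_add' := fun x y => by
        funext i
        simp [mul_add, Finset.sum_add_distrib]
      map_smul' := fun c x => by
        funext i
        simp only [Pi.smul_apply, smul_eq_mul, RingHom.id_apply, Finset.mul_sum]
        exact Finset.sum_congr rfl fun j _ => by ring }
  let D : MvPolynomial (Fin n) ℂ → ((Fin n → ℂ) →ₗ[ℂ] ℂ) := fun F =>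
    { toFun := fun b => ∑ i, b i * eval w (pderiv i F)
      map_add' := fun x y => by simp [add_mul, Finset.sum_add_distrib]
      map_smul' := fun c x => by
        simp only [Pi.smul_apply, smul_eq_mul, RingHom.id_apply, Finset.mul_sum]
        exact Finset.sum_congr rfl fun j _ => by ring }
  let Φ : Set (Module.Dual ℂ (Fin k → ℂ)) :=
    {φ | ∃ F : MvPolynomial (Fin n) ℂ, (∀ w' ∈ S, eval w' F = 0) ∧ φ = (D F).comp A}
  have hco : (Submodule.span ℂ Φ).dualCoannihilator = ⊥ := by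
    rw [Submodule.eq_bot_iff]
    intro β hβ
    by_contra hβ0
    obtain ⟨F, hF, hFβ⟩ := h β hβ0
    rw [Submodule.mem_dualCoannihilator] at hβ
    exact hFβ (hβ ((D F).comp A) (Submodule.subset_span ⟨F, hF, rfl⟩))
  have hspan : Submodule.span ℂ Φ = ⊤ := by
    have h1 := Subspace.dualCoannihilator_dualAnnihilator_eq (W := Submodule.span ℂ Φ)
    rw [hco, Submodule.dualAnnihilator_bot] at h1
    exact h1.symm
  have hk : Module.finrank ℂ (Submodule.span ℂ Φ) = k := by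
    rw [hspan, finrank_top, Subspace.dual_finrank_eq, Module.finrank_fin_fun]
  obtain ⟨f, hf, hfspan, hflin⟩ := Submodule.exists_fun_fin_finrank_span_eq ℂ Φ
  choose F' hF' hF'f using hf
  let F : Fin k → MvPolynomial (Fin n) ℂ := fun l => F' (Fin.cast hk.symm l)
  have hinj : ∀ β : Fin k → ℂ, (∀ l, D (F l) (A β) = 0) → β = 0 := by
    intro β hβ
    have h1 : β ∈ (Submodule.span ℂ (Set.range f)).dualCoannihilator := by
      rw [Submodule.mem_dualCoannihilator]
      intro φ hφ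
      refine Submodule.span_induction (p := fun φ _ => φ β = 0) ?_ ?_ ?_ ?_ hφ
      · rintro _ ⟨l, rfl⟩
        rw [hF'f l]
        have := hβ (Fin.cast hk l)
        exact this
      · rfl
      · intro x y _ _ hx hy
        rw [LinearMap.add_apply, hx, hy, add_zero]
      · intro c x _ hx
        rw [LinearMap.smul_apply, hx, smul_zero]
    rw [hfspan, hco] at h1
    exact (Submodule.mem_bot ℂ).1 h1
  let G : (Fin n → ℂ) →ₗ[ℂ] (Fin k → ℂ) := LinearMap.pi fun l => D (F l)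
  have hGA : Function.Injective (G.comp A) := by
    rw [← LinearMap.ker_eq_bot, Submodule.eq_bot_iff]
    intro β hβ
    apply hinj
    intro l
    exact congrFun (LinearMap.mem_ker.1 hβ) l
  have hGs : Function.Surjective G := by
    have h1 : Function.Surjective (G.comp A) := LinearMap.injective_iff_surjective.1 hGA
    intro y
    obtain ⟨x, hx⟩ := h1 y
    exact ⟨A x, hx⟩
  refine ⟨F, fun l => hF' _, hinj, LinearMap.ker G, ?_, ?_⟩
  · have h1 := LinearMap.finrank_range_add_finrank_ker G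
    rw [LinearMap.range_eq_top.2 hGs, finrank_top, Module.finrank_fin_fun,
      Module.finrank_fin_fun] at h1
    omega
  · intro b hb
    rw [LinearMap.mem_ker]
    funext l
    exact hb l

end Pool.Agent.Lib.MP_209724_lc.GC
end

section

/-!
Relations over the monomial valuation ring.
-/

namespace Pool.Agent.Lib.MP_209724_lc.GC

open MvPolynomial Filter Topology

private theorem rel_val_one {d : ℕ} {L : Type} [Field L] [Algebra ℂ L]
    (ζ : Fin d → L) (hζ : AlgebraicIndependent ℂ ζ) (𝒪 : ValuationSubring L)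
    (hK : ∀ c ∈ IntermediateField.adjoin ℂ (Set.range ζ), c ∈ 𝒪)
    (c : MvPolynomial (Fin d) ℂ) (hc : c ≠ 0) : 𝒪.valuation (aeval ζ c) = 1 := by
  have h0 : aeval ζ c ≠ 0 := fun h => hc ((algebraicIndependent_iff.1 hζ) c h)
  have hmem : aeval ζ c ∈ IntermediateField.adjoin ℂ (Set.range ζ) := by
    have h1 : aeval ζ c ∈ Algebra.adjoin ℂ (Set.range ζ) := by
      rw [Algebra.adjoin_range_eq_range_aeval]; exact ⟨c, rfl⟩
    exact IntermediateField.algebra_adjoin_le_adjoin _ _ h1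
  have h10 : 𝒪.valuation (aeval ζ c) ≠ 0 := by rwa [Valuation.ne_zero_iff]
  refine le_antisymm ((𝒪.valuation_le_one_iff _).2 (hK _ hmem)) ?_
  have h2 := (𝒪.valuation_le_one_iff _).2 (hK _ (inv_mem hmem))
  rw [map_inv₀] at h2
  exact (inv_le_one₀ (zero_lt_iff.2 h10)).1 h2

theorem val_evM_of_isLow {k d : ℕ} {L : Type} [Field L] [Algebra ℂ L] (t : Fin k → L)
    (ht0 : ∀ j, t j ≠ 0) (ζ : Fin d → L) (hζ : AlgebraicIndependent ℂ ζ) (𝒪 : ValuationSubring L)
    (hK : ∀ c ∈ IntermediateField.adjoin ℂ (Set.range ζ), c ∈ 𝒪) (ω : Fin k → ℝ)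
    (h𝒪 : ∀ m : Fin k → ℤ, 𝒪.valuation (∏ j, t j ^ m j) < 1 ↔ 0 < ∑ j, ω j * (m j : ℝ))
    (P : MvPolynomial (Fin k) (MvPolynomial (Fin d) ℂ)) (μ : Fin k →₀ ℕ) (hμ : IsLow ω P μ) :
    𝒪.valuation (evM ζ t P) = 𝒪.valuation (∏ j, t j ^ μ j) := by
  classical
  have hsum := evM_eq_sum ζ t P
  have hms : μ ∈ P.support := mem_support_iff.2 hμ.1
  have hterm : ∀ d ∈ P.support, 𝒪.valuation (aeval ζ (P.coeff d) * ∏ i, t i ^ d i) =
      𝒪.valuation (∏ i, t i ^ d i) := fun d hd => by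
    rw [map_mul, rel_val_one ζ hζ 𝒪 hK _ (mem_support_iff.1 hd), one_mul]
  rw [hsum, ← Finset.add_sum_erase _ _ hms]
  have hlt : 𝒪.valuation (∑ d ∈ P.support.erase μ, aeval ζ (P.coeff d) * ∏ i, t i ^ d i) <
      𝒪.valuation (aeval ζ (P.coeff μ) * ∏ i, t i ^ μ i) := by
    refine Valuation.map_sum_lt _ ?_ fun d hd => ?_
    · rw [hterm μ hms]
      exact val_monomial_ne_zero t ht0 𝒪 μ
    · rw [Finset.mem_erase] at hd
      rw [hterm μ hms, hterm d hd.2, val_lt_iff t ht0 𝒪 ω h𝒪]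
      exact hμ.2 d (mem_support_iff.1 hd.2) hd.1
  rw [add_comm, Valuation.map_add_eq_of_lt_right _ hlt, hterm μ hms]

private theorem rel_denom {k d : ℕ} {L : Type} [Field L] [Algebra ℂ L] (t : Fin k → L)
    (ζ : Fin d → L) (x : ℕ → L)
    (hx : ∀ i, x i ∈ IntermediateField.adjoin ℂ (Set.range (Sum.elim t ζ))) (N : ℕ) :
    ∃ (e : MvPolynomial (Fin k) (MvPolynomial (Fin d) ℂ))
      (a : ℕ → MvPolynomial (Fin k) (MvPolynomial (Fin d) ℂ)), evM ζ t e ≠ 0 ∧
      ∀ i < N, evM ζ t (a i) = evM ζ t e * x i := by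
  induction N with
  | zero => exact ⟨1, fun _ => 0, by simp, by simp⟩
  | succ N ih =>
    obtain ⟨c, p, hc, hp⟩ := ih
    obtain ⟨d', q, hd, hq⟩ : ∃ d' q : MvPolynomial (Fin k) (MvPolynomial (Fin d) ℂ),
        evM ζ t d' ≠ 0 ∧ evM ζ t q = evM ζ t d' * x N := by
      obtain ⟨r, s, hrs⟩ := (IntermediateField.mem_adjoin_range_iff ℂ _ (x N)).1 (hx N)
      by_cases hs : aeval (Sum.elim t ζ) s = 0
      · refine ⟨1, 0, by simp, ?_⟩
        rw [hrs, hs]
        simp
      · refine ⟨sumAlgEquiv ℂ (Fin k) (Fin d) s, sumAlgEquiv ℂ (Fin k) (Fin d) r, ?_, ?_⟩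
        · rwa [evM_sum]
        · rw [evM_sum, evM_sum, hrs]
          field_simp
    refine ⟨c * d', fun k => if k = N then c * q else p k * d', ?_, ?_⟩
    · rw [map_mul]; exact mul_ne_zero hc hd
    · intro k hk
      by_cases hkN : k = N
      · subst hkN
        simp only [if_true, map_mul, hq]
        ring
      · have hk' : k < N := by omega
        simp only [hkN, if_false, map_mul, hp k hk']
        ring

private theorem rel_above {k d : ℕ} {L : Type} [Field L] [Algebra ℂ L] (t : Fin k → L)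
    (ht0 : ∀ j, t j ≠ 0) (ζ : Fin d → L) (hζ : AlgebraicIndependent ℂ ζ) (𝒪 : ValuationSubring L)
    (hK : ∀ c ∈ IntermediateField.adjoin ℂ (Set.range ζ), c ∈ 𝒪) {ω : Fin k → ℝ}
    (hω : LinearIndependent ℚ ω)
    (h𝒪 : ∀ m : Fin k → ℤ, 𝒪.valuation (∏ j, t j ^ m j) < 1 ↔ 0 < ∑ j, ω j * (m j : ℝ))
    (e a : MvPolynomial (Fin k) (MvPolynomial (Fin d) ℂ)) (μ : Fin k →₀ ℕ) (hμ : IsLow ω e μ)
    (h : 𝒪.valuation (evM ζ t a) ≤ 𝒪.valuation (evM ζ t e)) : Above ω a μ := by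
  intro ν hν hne
  have ha : a ≠ 0 := by rintro rfl; exact hν (coeff_zero _)
  obtain ⟨ν₀, hν₀⟩ := exists_isLow hω ha
  rw [val_evM_of_isLow t ht0 ζ hζ 𝒪 hK ω h𝒪 e μ hμ,
    val_evM_of_isLow t ht0 ζ hζ 𝒪 hK ω h𝒪 a ν₀ hν₀] at h
  have h1 : wt ω μ ≤ wt ω ν₀ := by
    by_contra hlt
    push Not at hlt
    exact absurd ((val_lt_iff t ht0 𝒪 ω h𝒪 ν₀ μ).2 hlt) (not_lt.2 h)
  by_cases h2 : ν = ν₀
  · subst h2
    exact lt_of_le_of_ne h1 fun h3 => hne (wt_injective hω h3).symm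
  · exact h1.trans_lt (hν₀.2 ν hν h2)

private theorem rel_strictAbove {k d : ℕ} {L : Type} [Field L] [Algebra ℂ L] (t : Fin k → L)
    (ht0 : ∀ j, t j ≠ 0) (ζ : Fin d → L) (hζ : AlgebraicIndependent ℂ ζ) (𝒪 : ValuationSubring L)
    (hK : ∀ c ∈ IntermediateField.adjoin ℂ (Set.range ζ), c ∈ 𝒪) {ω : Fin k → ℝ}
    (hω : LinearIndependent ℚ ω)
    (h𝒪 : ∀ m : Fin k → ℤ, 𝒪.valuation (∏ j, t j ^ m j) < 1 ↔ 0 < ∑ j, ω j * (m j : ℝ))
    (e a : MvPolynomial (Fin k) (MvPolynomial (Fin d) ℂ)) (μ : Fin k →₀ ℕ) (hμ : IsLow ω e μ)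
    (h : 𝒪.valuation (evM ζ t a) < 𝒪.valuation (evM ζ t e)) : StrictAbove ω a μ := by
  intro ν hν
  have ha : a ≠ 0 := by rintro rfl; exact hν (coeff_zero _)
  obtain ⟨ν₀, hν₀⟩ := exists_isLow hω ha
  rw [val_evM_of_isLow t ht0 ζ hζ 𝒪 hK ω h𝒪 e μ hμ,
    val_evM_of_isLow t ht0 ζ hζ 𝒪 hK ω h𝒪 a ν₀ hν₀, val_lt_iff t ht0 𝒪 ω h𝒪] at h
  by_cases h2 : ν = ν₀
  · subst h2; exact h
  · exact h.trans (hν₀.2 ν hν h2)

private theorem rel_t0 {k d : ℕ} {L : Type} [Field L] [Algebra ℂ L] {t : Fin k → L}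
    {ζ : Fin d → L} (hind : AlgebraicIndependent ℂ (Sum.elim t ζ)) (j : Fin k) : t j ≠ 0 :=
  hind.ne_zero (Sum.inl j)

private theorem rel_zeta {k d : ℕ} {L : Type} [Field L] [Algebra ℂ L] {t : Fin k → L}
    {ζ : Fin d → L} (hind : AlgebraicIndependent ℂ (Sum.elim t ζ)) :
    AlgebraicIndependent ℂ ζ := hind.comp Sum.inr Sum.inr_injective

theorem intRel_of_vInt {k d : ℕ} {L : Type} [Field L] [Algebra ℂ L] (t : Fin k → L)
    (ζ : Fin d → L) (hind : AlgebraicIndependent ℂ (Sum.elim t ζ)) (𝒪 : ValuationSubring L)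
    (hK : ∀ c ∈ IntermediateField.adjoin ℂ (Set.range ζ), c ∈ 𝒪) {ω : Fin k → ℝ}
    (hω : LinearIndependent ℚ ω)
    (h𝒪 : ∀ m : Fin k → ℤ, 𝒪.valuation (∏ j, t j ^ m j) < 1 ↔ 0 < ∑ j, ω j * (m j : ℝ))
    {x : L} (hx : VInt (IntermediateField.adjoin ℂ (Set.range (Sum.elim t ζ))) 𝒪 x) :
    IntRel ω ζ t x := by
  have ht0 := rel_t0 hind
  have hζ := rel_zeta hind
  obtain ⟨p, hp, hc, h0⟩ := hx
  obtain ⟨e, a, he, ha⟩ := rel_denom t ζ (fun i => (p.coeff i : L)) (fun i => (p.coeff i).2)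
    p.natDegree
  have he0 : e ≠ 0 := by rintro rfl; exact he (map_zero _)
  obtain ⟨μ, hμ⟩ := exists_isLow hω he0
  refine ⟨p.natDegree, μ, e, fun i => if i < p.natDegree then a i else 0, hμ, fun i => ?_, ?_⟩
  · dsimp only
    by_cases hi : i < p.natDegree
    · rw [if_pos hi]
      refine rel_above t ht0 ζ hζ 𝒪 hK hω h𝒪 e (a i) μ hμ ?_
      rw [ha i hi, map_mul]
      exact mul_le_of_le_one_right' ((𝒪.valuation_le_one_iff _).2 (hc i))
    · rw [if_neg hi]
      intro ν hν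
      exact absurd (coeff_zero _) hν
  · have h2 : x ^ p.natDegree + ∑ i ∈ Finset.range p.natDegree, (p.coeff i : L) * x ^ i = 0 := by
      rw [← h0, Polynomial.aeval_eq_sum_range, Finset.sum_range_succ, hp.coeff_natDegree,
        one_smul, add_comm]
      rfl
    rw [← mul_zero (evM ζ t e), ← h2, mul_add, Finset.mul_sum]
    congr 1
    refine Finset.sum_congr rfl fun i hi => ?_
    have hi' := Finset.mem_range.1 hi
    simp only [if_pos hi', ha i hi', mul_assoc]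

theorem smallRel_of_mem {k d : ℕ} {L : Type} [Field L] [Algebra ℂ L] (t : Fin k → L)
    (ζ : Fin d → L) (hind : AlgebraicIndependent ℂ (Sum.elim t ζ)) (𝒪 : ValuationSubring L)
    (hK : ∀ c ∈ IntermediateField.adjoin ℂ (Set.range ζ), c ∈ 𝒪) {ω : Fin k → ℝ}
    (hω : LinearIndependent ℚ ω)
    (h𝒪 : ∀ m : Fin k → ℤ, 𝒪.valuation (∏ j, t j ^ m j) < 1 ↔ 0 < ∑ j, ω j * (m j : ℝ))
    {x : L} (hx : x ∈ IntermediateField.adjoin ℂ (Set.range (Sum.elim t ζ)))
    (hx1 : 𝒪.valuation x < 1) : SmallRel ω ζ t x := by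
  have ht0 := rel_t0 hind
  have hζ := rel_zeta hind
  obtain ⟨e, a, he, ha⟩ := rel_denom t ζ (fun _ => x) (fun _ => hx) 1
  have ha := ha 0 zero_lt_one
  have he0 : e ≠ 0 := by rintro rfl; exact he (map_zero _)
  obtain ⟨μ, hμ⟩ := exists_isLow hω he0
  refine ⟨μ, e, a 0, hμ, rel_strictAbove t ht0 ζ hζ 𝒪 hK hω h𝒪 e (a 0) μ hμ ?_, ha.symm⟩
  rw [ha, map_mul]
  have h1 : 0 < 𝒪.valuation (evM ζ t e) := zero_lt_iff.2 ((Valuation.ne_zero_iff _).2 he)
  calc _ < 𝒪.valuation (evM ζ t e) * 1 := (mul_lt_mul_iff_right₀ h1).2 hx1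
    _ = _ := mul_one _

private theorem rel_wt_comb {k : ℕ} (ω : Fin k → ℝ) (N : ℕ) (μ ν : Fin k →₀ ℕ) :
    wt ω (N • μ + ν) = N * wt ω μ + wt ω ν := by
  rw [wt, wt, wt, Finset.mul_sum, ← Finset.sum_add_distrib]
  refine Finset.sum_congr rfl fun j _ => ?_
  simp only [Finsupp.add_apply, Finsupp.smul_apply, smul_eq_mul]
  push_cast
  ring

private theorem rel_prod_comb {k : ℕ} {L : Type} [Field L] (t : Fin k → L) (N : ℕ)
    (μ ν : Fin k →₀ ℕ) :
    ∏ j, t j ^ (N • μ + ν) j = (∏ j, t j ^ μ j) ^ N * ∏ j, t j ^ ν j := by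
  rw [← Finset.prod_pow, ← Finset.prod_mul_distrib]
  refine Finset.prod_congr rfl fun j _ => ?_
  simp only [Finsupp.add_apply, Finsupp.smul_apply, smul_eq_mul]
  rw [pow_add, mul_comm N, pow_mul]

theorem arch {k d : ℕ} {L : Type} [Field L] [Algebra ℂ L] (t : Fin k → L)
    (ζ : Fin d → L) (hind : AlgebraicIndependent ℂ (Sum.elim t ζ)) (𝒪 : ValuationSubring L)
    (hK : ∀ c ∈ IntermediateField.adjoin ℂ (Set.range ζ), c ∈ 𝒪) {ω : Fin k → ℝ}
    (hω : LinearIndependent ℚ ω)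
    (h𝒪 : ∀ m : Fin k → ℤ, 𝒪.valuation (∏ j, t j ^ m j) < 1 ↔ 0 < ∑ j, ω j * (m j : ℝ))
    {x y : L} (hx : x ∈ IntermediateField.adjoin ℂ (Set.range (Sum.elim t ζ)))
    (hy : y ∈ IntermediateField.adjoin ℂ (Set.range (Sum.elim t ζ))) (hx0 : x ≠ 0)
    (hy1 : 𝒪.valuation y < 1) : ∃ N : ℕ, 𝒪.valuation y ^ N ≤ 𝒪.valuation x := by
  have ht0 := rel_t0 hind
  have hζ := rel_zeta hind
  by_cases hy0 : y = 0
  · refine ⟨1, ?_⟩
    rw [hy0, map_zero, pow_one]
    exact zero_le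
  obtain ⟨e, a, he, ha⟩ := rel_denom t ζ (fun i => if i = 0 then x else y)
    (fun i => by split_ifs; exacts [hx, hy]) 2
  have hax : evM ζ t (a 0) = evM ζ t e * x := ha 0 (by norm_num)
  have hay : evM ζ t (a 1) = evM ζ t e * y := ha 1 (by norm_num)
  have he0 : e ≠ 0 := by rintro rfl; exact he (map_zero _)
  have ha0 : a 0 ≠ 0 := by
    intro h
    rw [h, map_zero] at hax
    exact mul_ne_zero he hx0 hax.symm
  have ha1 : a 1 ≠ 0 := by
    intro h
    rw [h, map_zero] at hay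
    exact mul_ne_zero he hy0 hay.symm
  obtain ⟨μ, hμ⟩ := exists_isLow hω he0
  obtain ⟨α, hα⟩ := exists_isLow hω ha0
  obtain ⟨β, hβ⟩ := exists_isLow hω ha1
  have vx := congrArg 𝒪.valuation hax
  have vy := congrArg 𝒪.valuation hay
  rw [map_mul, val_evM_of_isLow t ht0 ζ hζ 𝒪 hK ω h𝒪 e μ hμ,
    val_evM_of_isLow t ht0 ζ hζ 𝒪 hK ω h𝒪 _ α hα] at vx
  rw [map_mul, val_evM_of_isLow t ht0 ζ hζ 𝒪 hK ω h𝒪 e μ hμ,
    val_evM_of_isLow t ht0 ζ hζ 𝒪 hK ω h𝒪 _ β hβ] at vy
  set V := 𝒪.valuation (∏ j, t j ^ μ j) with hV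
  have hV0 : 0 < V := zero_lt_iff.2 (val_monomial_ne_zero t ht0 𝒪 μ)
  have hβμ : wt ω μ < wt ω β := by
    rw [← val_lt_iff t ht0 𝒪 ω h𝒪, vy]
    calc _ < V * 1 := (mul_lt_mul_iff_right₀ hV0).2 hy1
      _ = _ := mul_one _
  obtain ⟨N, hN⟩ := exists_nat_gt ((wt ω α - wt ω μ) / (wt ω β - wt ω μ))
  rw [div_lt_iff₀ (by linarith)] at hN
  refine ⟨N, ?_⟩
  have h1 : wt ω (N • μ + α) < wt ω (N • β + μ) := by
    rw [rel_wt_comb, rel_wt_comb]
    linarith
  rw [← val_lt_iff t ht0 𝒪 ω h𝒪, rel_prod_comb, rel_prod_comb, map_mul, map_mul, map_pow, map_pow,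
    ← hV, vx, vy, mul_pow] at h1
  have h2 : V ^ N * V * 𝒪.valuation y ^ N < V ^ N * V * 𝒪.valuation x := by
    calc _ = V ^ N * 𝒪.valuation y ^ N * V := by rw [mul_right_comm]
      _ < V ^ N * (V * 𝒪.valuation x) := h1
      _ = _ := by rw [mul_assoc]
  exact ((mul_lt_mul_iff_right₀ (mul_pos (pow_pos hV0 N) hV0)).1 h2).le

end Pool.Agent.Lib.MP_209724_lc.GC
end

section

/-!
GC-5: closeness of the rescaled zero set to the chart of the cone.
-/

namespace Pool.Agent.Lib.MP_209724_lc.GC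

open MvPolynomial Filter Topology Metric

theorem closeness {n d : ℕ} (p : Ideal (MvPolynomial (Fin n) ℂ)) (w : Fin n → ℂ)
    (Z : Fin d → Fin n → ℂ) (H : (Fin d → ℂ) → Fin n → ℂ) {ρ₁ r₀ : ℝ}
    (hH : ContinuousOn H (ball (prj Z w) ρ₁))
    (hr₀ : ∀ w' : Fin n → ℂ, ‖w' - w‖ ≤ r₀ → prj Z w' ∈ ball (prj Z w) ρ₁)
    (huniq : ∀ w' ∈ cone p, ‖w' - w‖ ≤ r₀ → w' = H (prj Z w')) :
    ∀ ε : ℝ, 0 < ε → ∀ᶠ r : ℝ in atTop, ∀ x : Fin n → ℂ, (∀ f ∈ p, eval x f = 0) →
      ‖(fun i => x i / (r : ℂ)) - w‖ ≤ r₀ →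
      ‖(fun i => x i / (r : ℂ)) - H (prj Z fun i => x i / (r : ℂ))‖ < ε := by
  intro ε hε
  by_contra hcon
  rw [not_eventually, frequently_atTop] at hcon
  have h1 : ∀ j : ℕ, ∃ r : ℝ, (j : ℝ) + 1 ≤ r ∧ ∃ x : Fin n → ℂ, (∀ f ∈ p, eval x f = 0) ∧
      ‖(fun i => x i / (r : ℂ)) - w‖ ≤ r₀ ∧
      ε ≤ ‖(fun i => x i / (r : ℂ)) - H (prj Z fun i => x i / (r : ℂ))‖ := by
    intro j
    obtain ⟨r, hr, hx⟩ := hcon ((j : ℝ) + 1)
    push Not at hx
    obtain ⟨x, hx1, hx2, hx3⟩ := hx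
    exact ⟨r, hr, x, hx1, hx2, hx3⟩
  choose r hr x hx hxw hxε using h1
  set y : ℕ → Fin n → ℂ := fun j i => x j i / (r j : ℂ) with hy
  have hyc : ∀ j, y j ∈ closedBall w r₀ := fun j => by
    rw [mem_closedBall, dist_eq_norm]
    exact hxw j
  obtain ⟨w', hw', φ, hφ, hlim⟩ := (isCompact_closedBall w r₀).tendsto_subseq hyc
  have hw'n : ‖w' - w‖ ≤ r₀ := by
    rw [mem_closedBall, dist_eq_norm] at hw'
    exact hw'
  have hrt : Tendsto (fun j => r (φ j)) atTop atTop := by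
    have h2 : Tendsto (fun j : ℕ => (j : ℝ)) atTop atTop := tendsto_natCast_atTop_atTop
    refine tendsto_atTop_mono (fun j => ?_) h2
    have h3 : (j : ℝ) ≤ (φ j : ℝ) := by exact_mod_cast hφ.id_le j
    have h4 := hr (φ j)
    linarith
  have hcone : w' ∈ cone p := by
    refine ⟨fun j => r (φ j), fun j => x (φ j), hrt, fun j => hx (φ j), ?_⟩
    have h5 : (fun j => (r (φ j))⁻¹ • x (φ j)) = y ∘ φ := by
      funext j
      funext i
      simp only [hy, Function.comp_apply, Pi.smul_apply, Complex.real_smul]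
      push_cast
      rw [div_eq_inv_mul]
    rw [h5]
    exact hlim
  have hfix := huniq w' hcone hw'n
  have hcont : ContinuousAt H (prj Z w') :=
    hH.continuousAt (isOpen_ball.mem_nhds (hr₀ w' hw'n))
  have hT1 : Tendsto (fun j => prj Z (y (φ j))) atTop (𝓝 (prj Z w')) :=
    ((continuous_prj Z).tendsto w').comp hlim
  have hT2 : Tendsto (fun j => ‖y (φ j) - H (prj Z (y (φ j)))‖) atTop
      (𝓝 ‖w' - H (prj Z w')‖) :=
    (Tendsto.sub hlim (hcont.tendsto.comp hT1)).norm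
  rw [← hfix, sub_self, norm_zero] at hT2
  have h6 : ε ≤ 0 := ge_of_tendsto hT2 (Eventually.of_forall fun j => hxε (φ j))
  linarith

end Pool.Agent.Lib.MP_209724_lc.GC
end
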