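import Mathlib
import Pool.Agent.Lib.MP_209724_lc.MV.Branch
import Pool.Agent.Lib.MP_209724_lc.GC.Proj
import Pool.Agent.Lib.MP_209724_lc.MV.Sheets
import Pool.Agent.Lib.MP_209724_lc.MV.CoreA
import Pool.Agent.Lib.MP_209724_lc.MV.Idem
import Pool.Agent.Lib.MP_209724_lc.MV.GenericPoint

section

/-!
The minimal polynomial of `g` over `ℂ(ξ,t)`, with denominators in `ℂ[ζ,t]` (GC-14).
-/

namespace Pool.Agent.Lib.MP_209724_lc.GC

open MvPolynomial

namespace MinPolyAux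

section Rep

variable {n d k : ℕ} {L : Type} [Field L] [Algebra ℂ L] (ξ : Fin n → L) (ζ : Fin d → L)
  (t : Fin k → L)

/-- Elements of the form `p(ξ,t) / c(ζ,t)`. -/
def Rep (x : L) : Prop :=
  ∃ (c : MvPolynomial (Fin k) (MvPolynomial (Fin d) ℂ))
    (p : MvPolynomial (Fin k) (MvPolynomial (Fin n) ℂ)),
    evM ζ t c ≠ 0 ∧ evM ζ t c * x = evM ξ t p

/-- substitution of the linear forms for the variables -/
noncomputable def linSub (Z : Fin d → Fin n → ℂ) :
    MvPolynomial (Fin d) ℂ →ₐ[ℂ] MvPolynomial (Fin n) ℂ :=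
  aeval fun j => ∑ i, C (Z j i) * X i

theorem aeval_linSub {S : Type*} [CommRing S] [Algebra ℂ S] (x : Fin n → S) (z : Fin d → S)
    (Z : Fin d → Fin n → ℂ) (hz : ∀ j, z j = ∑ i, algebraMap ℂ S (Z j i) * x i)
    (c : MvPolynomial (Fin d) ℂ) : aeval x (linSub Z c) = aeval z c := by
  unfold linSub
  rw [MvPolynomial.comp_aeval_apply]
  congr 1
  congr 1
  funext j
  rw [hz, map_sum]
  refine Finset.sum_congr rfl fun i _ => ?_
  rw [map_mul, aeval_X, aeval_C]

theorem evM_linSub {S : Type*} [CommRing S] [Algebra ℂ S] (x : Fin n → S) (z : Fin d → S)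
    (s : Fin k → S)
    (Z : Fin d → Fin n → ℂ) (hz : ∀ j, z j = ∑ i, algebraMap ℂ S (Z j i) * x i)
    (c : MvPolynomial (Fin k) (MvPolynomial (Fin d) ℂ)) :
    evM x s (MvPolynomial.map (linSub Z : MvPolynomial (Fin d) ℂ →+* MvPolynomial (Fin n) ℂ) c) =
      evM z s c := by
  have h : (evM x s).comp
      (MvPolynomial.map (linSub Z : MvPolynomial (Fin d) ℂ →+* MvPolynomial (Fin n) ℂ)) =
      evM z s := by
    apply MvPolynomial.ringHom_ext
    · intro c
      rw [RingHom.comp_apply, MvPolynomial.map_C, evM_C, evM_C]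
      exact aeval_linSub x z Z hz c
    · intro i
      rw [RingHom.comp_apply, MvPolynomial.map_X, evM_X, evM_X]
  exact congrArg (fun g => g c) h

variable (Z : Fin d → Fin n → ℂ) (hζ : ∀ j, ζ j = ∑ i, algebraMap ℂ L (Z j i) * ξ i)

theorem rep_evM (p : MvPolynomial (Fin k) (MvPolynomial (Fin n) ℂ)) :
    Rep ξ ζ t (evM ξ t p) :=
  ⟨1, p, by simp, by simp⟩

include hζ

theorem rep_add {x y : L} (hx : Rep ξ ζ t x) (hy : Rep ξ ζ t y) : Rep ξ ζ t (x + y) := by
  obtain ⟨c, p, h1, h2⟩ := hx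
  obtain ⟨d, q, h3, h4⟩ := hy
  refine ⟨c * d, MvPolynomial.map (linSub Z : _ →+* MvPolynomial (Fin n) ℂ) d * p +
    MvPolynomial.map (linSub Z : _ →+* MvPolynomial (Fin n) ℂ) c * q,
    by rw [map_mul]; exact mul_ne_zero h1 h3, ?_⟩
  rw [map_add, map_mul (evM ξ t), map_mul (evM ξ t), evM_linSub ξ ζ t Z hζ,
    evM_linSub ξ ζ t Z hζ, ← h2, ← h4, map_mul]
  ring

omit hζ in
theorem rep_mul {x y : L} (hx : Rep ξ ζ t x) (hy : Rep ξ ζ t y) : Rep ξ ζ t (x * y) := by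
  obtain ⟨c, p, h1, h2⟩ := hx
  obtain ⟨d, q, h3, h4⟩ := hy
  refine ⟨c * d, p * q, by rw [map_mul]; exact mul_ne_zero h1 h3, ?_⟩
  rw [map_mul (evM ξ t), ← h2, ← h4, map_mul]
  ring

theorem exists_common (s : Finset ℕ) (x : ℕ → L) (hx : ∀ k ∈ s, Rep ξ ζ t (x k)) :
    ∃ (c : MvPolynomial (Fin k) (MvPolynomial (Fin d) ℂ))
      (a : ℕ → MvPolynomial (Fin k) (MvPolynomial (Fin n) ℂ)),
      evM ζ t c ≠ 0 ∧ ∀ k ∈ s, evM ζ t c * x k = evM ξ t (a k) := by
  choose! c p h1 h2 using hx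
  refine ⟨∏ j ∈ s, c j, fun k => MvPolynomial.map (linSub Z : _ →+* MvPolynomial (Fin n) ℂ)
    (∏ j ∈ s.erase k, c j) * p k, ?_, ?_⟩
  · rw [map_prod]
    exact Finset.prod_ne_zero_iff.2 h1
  · intro k hk
    rw [map_mul (evM ξ t), evM_linSub ξ ζ t Z hζ, ← h2 k hk, ← Finset.mul_prod_erase s c hk,
      map_mul]
    ring

theorem rep_F₀ {x : L}
    (hx : x ∈ IntermediateField.adjoin ℂ (Set.range (Sum.elim t ζ))) : Rep ξ ζ t x := by
  rw [IntermediateField.mem_adjoin_range_iff] at hx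
  obtain ⟨r, s, hrs⟩ := hx
  by_cases hs : aeval (Sum.elim t ζ) s = 0
  · rw [hs, div_zero] at hrs
    rw [hrs, ← map_zero (evM ξ t)]
    exact rep_evM ξ ζ t 0
  · refine ⟨sumAlgEquiv ℂ (Fin k) (Fin d) s, MvPolynomial.map
      (linSub Z : _ →+* MvPolynomial (Fin n) ℂ) (sumAlgEquiv ℂ (Fin k) (Fin d) r), ?_, ?_⟩
    · rw [evM_sum]
      exact hs
    · rw [evM_linSub ξ ζ t Z hζ, evM_sum, evM_sum, hrs]
      field_simp

theorem rep_F₁ (halg : ∀ i, IsAlgebraic (IntermediateField.adjoin ℂ (Set.range (Sum.elim t ζ)))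
    (ξ i)) {x : L} (hx : x ∈ IntermediateField.adjoin ℂ (Set.range ξ ∪ Set.range t)) :
    Rep ξ ζ t x := by
  set F := IntermediateField.adjoin ℂ (Set.range (Sum.elim t ζ)) with hF
  have hle : IntermediateField.adjoin ℂ (Set.range ξ ∪ Set.range t) ≤
      IntermediateField.restrictScalars ℂ (IntermediateField.adjoin F (Set.range ξ)) := by
    rw [IntermediateField.adjoin_le_iff]
    rintro _ (⟨i, rfl⟩ | ⟨j, rfl⟩)
    · rw [SetLike.mem_coe, IntermediateField.mem_restrictScalars]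
      exact IntermediateField.subset_adjoin F _ ⟨i, rfl⟩
    · rw [SetLike.mem_coe, IntermediateField.mem_restrictScalars]
      exact (IntermediateField.adjoin F (Set.range ξ)).algebraMap_mem
        ⟨t j, IntermediateField.subset_adjoin _ _ ⟨Sum.inl j, rfl⟩⟩
  have hx3 : x ∈ Algebra.adjoin F (Set.range ξ) := by
    have h1 := hle hx
    rw [IntermediateField.mem_restrictScalars] at h1
    rw [← IntermediateField.adjoin_toSubalgebra_of_isAlgebraic]
    · exact h1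
    · rintro _ ⟨i, rfl⟩
      exact halg i
  clear hx hle
  induction hx3 using Algebra.adjoin_induction with
  | mem y hy =>
    obtain ⟨i, rfl⟩ := hy
    have : evM ξ t (C (X i)) = ξ i := by rw [evM_C, aeval_X]
    rw [← this]
    exact rep_evM ξ ζ t _
  | algebraMap r => exact rep_F₀ ξ ζ t Z hζ r.2
  | add y z hy hz h1 h2 => exact rep_add ξ ζ t Z hζ h1 h2
  | mul y z hy hz h1 h2 => exact rep_mul ξ ζ t h1 h2

end Rep

section Vals

theorem minpoly_coeff_mem {F L : Type*} [Field F] [Field L] [Algebra F L]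
    (𝒪 : ValuationSubring L) (g : L) (hg : VInt F 𝒪 g) (i : ℕ) :
    algebraMap F L ((minpoly F g).coeff i) ∈ 𝒪 := by
  rw [vInt_iff] at hg
  have : IsFractionRing (base F 𝒪) F :=
    inferInstanceAs (IsFractionRing (𝒪.comap (algebraMap F L)) F)
  have : IsIntegrallyClosed (base F 𝒪) :=
    inferInstanceAs (IsIntegrallyClosed (𝒪.comap (algebraMap F L)))
  have : IsScalarTower (base F 𝒪) F L := IsScalarTower.of_algebraMap_eq fun x => rfl
  rw [minpoly.isIntegrallyClosed_eq_field_fractions' F hg, Polynomial.coeff_map]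
  exact (((minpoly (base F 𝒪) g).coeff i)).2

theorem minpoly_one {F L : Type*} [Field F] [Field L] [Algebra F L]
    (𝒪 : ValuationSubring L) (g : L) (hg : VInt F 𝒪 g) (hg1 : 𝒪.valuation (g - 1) < 1) :
    𝒪.valuation (1 + ∑ k ∈ Finset.range (minpoly F g).natDegree,
      algebraMap F L ((minpoly F g).coeff k)) < 1 := by
  have hint : IsIntegral F g := by
    obtain ⟨p, hp, _, h0⟩ := hg
    exact ⟨p, hp, h0⟩
  have hmon := minpoly.monic hint
  have hgO : g ∈ 𝒪 := by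
    have h1 : g - 1 ∈ 𝒪 := (𝒪.valuation_le_one_iff _).1 hg1.le
    have h2 := 𝒪.add_mem _ _ h1 𝒪.one_mem
    rwa [sub_add_cancel] at h2
  have h1 : ∑ k ∈ Finset.range (minpoly F g).natDegree,
      algebraMap F L ((minpoly F g).coeff k) * g ^ k + g ^ (minpoly F g).natDegree = 0 := by
    have h1 : Polynomial.aeval g (minpoly F g) = 0 := minpoly.aeval F g
    rw [Polynomial.aeval_eq_sum_range, Finset.sum_range_succ, hmon.coeff_natDegree, one_smul] at h1
    rw [← h1]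
    congr 1
    exact Finset.sum_congr rfl fun k _ => (Algebra.smul_def _ _).symm
  have h2 : 1 + ∑ k ∈ Finset.range (minpoly F g).natDegree,
      algebraMap F L ((minpoly F g).coeff k) =
      - ((g - 1) * ((∑ i ∈ Finset.range (minpoly F g).natDegree, g ^ i) +
        ∑ k ∈ Finset.range (minpoly F g).natDegree, algebraMap F L ((minpoly F g).coeff k) *
          ∑ i ∈ Finset.range k, g ^ i)) := by
    rw [mul_add, mul_comm (g - 1), geom_sum_mul, Finset.mul_sum]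
    have h3 : ∀ k, (g - 1) * (algebraMap F L ((minpoly F g).coeff k) *
          ∑ i ∈ Finset.range k, g ^ i) = algebraMap F L ((minpoly F g).coeff k) * g ^ k -
            algebraMap F L ((minpoly F g).coeff k) := by
      intro k
      have := geom_sum_mul g k
      linear_combination (algebraMap F L ((minpoly F g).coeff k)) * this
    rw [Finset.sum_congr rfl fun k _ => h3 k, Finset.sum_sub_distrib]
    linear_combination h1
  rw [h2, Valuation.map_neg, map_mul]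
  refine mul_lt_one_of_lt_of_le hg1 ((𝒪.valuation_le_one_iff _).2 ?_)
  refine 𝒪.add_mem _ _ (sum_mem fun i _ => pow_mem hgO i) (sum_mem fun k _ => 𝒪.mul_mem _ _
    (minpoly_coeff_mem 𝒪 g hg k) (sum_mem fun i _ => pow_mem hgO i))


end Vals

section Low

variable {k : ℕ} {L : Type} [Field L] [Algebra ℂ L]

theorem exists_reduced {n : ℕ} (ξ : Fin n → L) (t : Fin k → L)
    (p : MvPolynomial (Fin k) (MvPolynomial (Fin n) ℂ)) :
    ∃ q : MvPolynomial (Fin k) (MvPolynomial (Fin n) ℂ), evM ξ t q = evM ξ t p ∧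
      ∀ ν, q.coeff ν ≠ 0 → aeval ξ (q.coeff ν) ≠ 0 := by
  classical
  refine ⟨∑ ν ∈ p.support.filter (fun ν => aeval ξ (p.coeff ν) ≠ 0), monomial ν (p.coeff ν),
    ?_, ?_⟩
  · rw [evM_eq_sum ξ t p, map_sum]
    have h1 : ∀ ν ∈ p.support.filter (fun ν => aeval ξ (p.coeff ν) ≠ 0),
        evM ξ t (monomial ν (p.coeff ν)) = aeval ξ (p.coeff ν) * ∏ j, t j ^ ν j := by
      intro ν _
      unfold evM
      rw [coe_eval₂Hom, eval₂_monomial, Finsupp.prod_fintype _ _ (fun i => pow_zero _)]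
      rfl
    rw [Finset.sum_congr rfl h1, Finset.sum_filter]
    refine Finset.sum_congr rfl fun ν _ => ?_
    split_ifs with h
    · rfl
    · rw [not_not] at h
      rw [h, zero_mul]
  · intro ν hν
    rw [coeff_sum] at hν ⊢
    simp only [coeff_monomial, Finset.sum_ite_eq'] at hν ⊢
    split_ifs at hν ⊢ with h
    · exact (Finset.mem_filter.1 h).2
    · exact absurd rfl hν

theorem val_low {τ : Type} (K : IntermediateField ℂ L) (x : τ → L) (hx : ∀ i, x i ∈ K)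
    (t : Fin k → L) (ht0 : ∀ j, t j ≠ 0) (𝒪 : ValuationSubring L) (hK : ∀ c ∈ K, c ∈ 𝒪)
    (ω : Fin k → ℝ)
    (h𝒪 : ∀ m : Fin k → ℤ, 𝒪.valuation (∏ j, t j ^ m j) < 1 ↔ 0 < ∑ j, ω j * (m j : ℝ))
    (e : MvPolynomial (Fin k) (MvPolynomial τ ℂ)) (μ : Fin k →₀ ℕ) (h : IsLow ω e μ)
    (hμ : aeval x (e.coeff μ) ≠ 0) :
    𝒪.valuation (evM x t e) = 𝒪.valuation (∏ j, t j ^ μ j) := by
  let ρ : MvPolynomial τ ℂ →ₐ[ℂ] K := aeval fun i => ⟨x i, hx i⟩
  have hρ : ∀ c, algebraMap K L (ρ c) = aeval x c := by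
    intro c
    have : (IsScalarTower.toAlgHom ℂ K L).comp ρ = aeval x := by
      ext i
      simp [ρ]
    exact congrArg (fun f => f c) this
  have h1 : aeval t (MvPolynomial.map (ρ : MvPolynomial τ ℂ →+* K) e) = evM x t e := by
    rw [aeval_def, eval₂_map]
    unfold evM
    rw [coe_eval₂Hom]
    congr 1
    ext c
    · simp
    · simp [hρ]
  rw [← h1]
  refine val_of_isLow t ht0 𝒪 (fun c => hK _ c.2) ω h𝒪 _ μ ⟨?_, ?_⟩
  · rw [coeff_map]
    intro h0
    apply hμ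
    rw [← hρ]
    have : ρ (e.coeff μ) = 0 := h0
    rw [this, map_zero]
  · intro ν hν hne
    refine h.2 ν ?_ hne
    intro h0
    apply hν
    rw [coeff_map, h0, map_zero]

end Low

end MinPolyAux

open MinPolyAux in
theorem exists_minpoly {n d k : ℕ} {L : Type} [Field L] [Algebra ℂ L] (ξ : Fin n → L)
    (Z : Fin d → Fin n → ℂ) (ζ : Fin d → L)
    (hζ : ∀ j, ζ j = ∑ i, algebraMap ℂ L (Z j i) * ξ i) (t : Fin k → L) (ht0 : ∀ j, t j ≠ 0)
    (hind : AlgebraicIndependent ℂ (Sum.elim t ζ))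
    (hξ : ∀ i, IsAlgebraic (Algebra.adjoin ℂ (Set.range ζ)) (ξ i))
    (𝒪 : ValuationSubring L) (hK : ∀ c ∈ IntermediateField.adjoin ℂ (Set.range ξ), c ∈ 𝒪)
    {ω : Fin k → ℝ} (hω : LinearIndependent ℚ ω)
    (h𝒪 : ∀ m : Fin k → ℤ, 𝒪.valuation (∏ j, t j ^ m j) < 1 ↔ 0 < ∑ j, ω j * (m j : ℝ))
    (g : L) (hg : VInt (IntermediateField.adjoin ℂ (Set.range (Sum.elim t ζ))) 𝒪 g)
    (hg1 : 𝒪.valuation (g - 1) < 1)
    (B : Subalgebra ℂ L) (hB : B = Algebra.adjoin ℂ (Set.range ξ ∪ Set.range t))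
    (hξB : ∀ i, ξ i ∈ B) (hζB : ∀ j, ζ j ∈ B) (htB : ∀ j, t j ∈ B) :
    ∃ (m : ℕ) (μ : Fin k →₀ ℕ) (e₀ : MvPolynomial (Fin k) (MvPolynomial (Fin d) ℂ))
      (a : ℕ → MvPolynomial (Fin k) (MvPolynomial (Fin n) ℂ))
      (e : MvPolynomial (Fin k) (MvPolynomial (Fin n) ℂ)),
      0 < m ∧ IsLow ω e₀ μ ∧ StrictAbove ω e μ ∧
      evM ζ t e₀ + ∑ i ∈ Finset.range m, evM ξ t (a i) = evM ξ t e ∧
      ∀ φ : B →ₐ[ℂ] ℂ,
        evM (fun j => φ ⟨ζ j, hζB j⟩) (fun j => φ ⟨t j, htB j⟩) e₀ ≠ 0 → ∀ r : ℂ,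
        evM (fun j => φ ⟨ζ j, hζB j⟩) (fun j => φ ⟨t j, htB j⟩) e₀ * r ^ m +
          ∑ i ∈ Finset.range m,
            evM (fun i => φ ⟨ξ i, hξB i⟩) (fun j => φ ⟨t j, htB j⟩) (a i) * r ^ i = 0 →
        ∀ h : Polynomial B, Polynomial.aeval g h = 0 → (h.map (φ : B →+* ℂ)).eval r = 0 := by
  classical
  set F₀ := IntermediateField.adjoin ℂ (Set.range (Sum.elim t ζ)) with hF₀
  set F₁ := IntermediateField.adjoin ℂ (Set.range ξ ∪ Set.range t) with hF₁
  set K := IntermediateField.adjoin ℂ (Set.range ξ) with hKdef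
  have hξK : ∀ i, ξ i ∈ K := fun i => IntermediateField.subset_adjoin _ _ ⟨i, rfl⟩
  have hζK : ∀ j, ζ j ∈ K := by
    intro j
    rw [hζ]
    exact sum_mem fun i _ => mul_mem (K.algebraMap_mem _) (hξK i)
  have hξF : ∀ i, ξ i ∈ F₁ := fun i => IntermediateField.subset_adjoin _ _ (Or.inl ⟨i, rfl⟩)
  have htF : ∀ j, t j ∈ F₁ := fun j => IntermediateField.subset_adjoin _ _ (Or.inr ⟨j, rfl⟩)
  have hζF : ∀ j, ζ j ∈ F₁ := by
    intro j
    rw [hζ]
    exact sum_mem fun i _ => mul_mem (F₁.algebraMap_mem _) (hξF i)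
  have hle : F₀ ≤ F₁ := by
    rw [hF₀, IntermediateField.adjoin_le_iff]
    rintro _ ⟨j | j, rfl⟩
    · exact htF j
    · exact hζF j
  have hgF : VInt F₁ 𝒪 g := by
    obtain ⟨p, hp, hc, h0⟩ := hg
    refine ⟨p.map (IntermediateField.inclusion hle : F₀ →+* F₁), hp.map _, ?_, ?_⟩
    · intro i
      rw [Polynomial.coeff_map]
      exact hc i
    · rw [Polynomial.aeval_def, Polynomial.eval₂_map]
      exact h0
  have halg : ∀ i, IsAlgebraic F₀ (ξ i) := by
    intro i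
    have hle' : ∀ x : Algebra.adjoin ℂ (Set.range ζ), (x : L) ∈ F₀ := by
      rintro ⟨x, hx⟩
      have h1 : Algebra.adjoin ℂ (Set.range ζ) ≤ F₀.toSubalgebra := by
        apply Algebra.adjoin_le
        rintro _ ⟨j, rfl⟩
        exact IntermediateField.subset_adjoin _ _ ⟨Sum.inr j, rfl⟩
      exact h1 hx
    let ι : Algebra.adjoin ℂ (Set.range ζ) →+* F₀ :=
      RingHom.codRestrict (algebraMap (Algebra.adjoin ℂ (Set.range ζ)) L) F₀ hle'
    refine (hξ i).ringHom_of_comp_eq ι (RingHom.id L) ?_ ?_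
    · intro x y hxy
      exact Subtype.ext (congrArg (fun z : F₀ => (z : L)) hxy)
    · ext x
      rfl
  have hint : IsIntegral F₁ g := by
    obtain ⟨p, hp, _, h0⟩ := hgF
    exact ⟨p, hp, h0⟩
  set M₁ := minpoly F₁ g with hM₁
  have hmon : M₁.Monic := minpoly.monic hint
  have hm : 0 < M₁.natDegree := minpoly.natDegree_pos hint
  have hv1 := minpoly_one 𝒪 g hgF hg1
  rw [← hM₁] at hv1
  have hμg : g ^ M₁.natDegree + ∑ i ∈ Finset.range M₁.natDegree, (M₁.coeff i : L) * g ^ i = 0 := by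
    have h1 : Polynomial.aeval g M₁ = 0 := minpoly.aeval F₁ g
    rw [Polynomial.aeval_eq_sum_range, Finset.sum_range_succ, hmon.coeff_natDegree, one_smul] at h1
    rw [← h1, add_comm]
    rfl
  -- common denominators
  obtain ⟨e₀, a, he₀, ha⟩ := exists_common ξ ζ t Z hζ (Finset.range M₁.natDegree)
    (fun i => (M₁.coeff i : L)) (fun i _ => rep_F₁ ξ ζ t Z hζ halg (M₁.coeff i).2)
  have he₀0 : e₀ ≠ 0 := by
    rintro rfl
    exact he₀ (map_zero _)
  obtain ⟨μ, hμ⟩ := exists_isLow hω he₀0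
  obtain ⟨e, hee, hered⟩ := exists_reduced ξ t
    (MvPolynomial.map (linSub Z : _ →+* MvPolynomial (Fin n) ℂ) e₀ +
      ∑ i ∈ Finset.range M₁.natDegree, a i)
  rw [map_add, map_sum, evM_linSub ξ ζ t Z hζ] at hee
  have hval : evM ξ t e = evM ζ t e₀ *
      (1 + ∑ i ∈ Finset.range M₁.natDegree, algebraMap F₁ L (M₁.coeff i)) := by
    rw [hee, mul_add, mul_one, Finset.mul_sum]
    congr 1
    exact Finset.sum_congr rfl fun i hi => (ha i hi).symm
  refine ⟨M₁.natDegree, μ, e₀, a, e, hm, hμ, ?_, hee.symm, ?_⟩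
  · -- the exponents of `e`
    intro ν hν
    have he0 : e ≠ 0 := by
      rintro rfl
      exact hν (coeff_zero _)
    obtain ⟨ν₀, hν₀⟩ := exists_isLow hω he0
    have h1 := val_low K ξ hξK t ht0 𝒪 hK ω h𝒪 e ν₀ hν₀ (hered _ hν₀.1)
    have hζind : AlgebraicIndependent ℂ ζ := hind.comp Sum.inr Sum.inr_injective
    have h2 := val_low K ζ hζK t ht0 𝒪 hK ω h𝒪 e₀ μ hμ (by
      intro h0
      exact hμ.1 (hζind (h0.trans (map_zero _).symm)))
    have h3 : 𝒪.valuation (∏ j, t j ^ ν₀ j) < 𝒪.valuation (∏ j, t j ^ μ j) := by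
      rw [← h1, ← h2, hval, map_mul]
      exact mul_lt_of_lt_one_right (zero_lt_iff.2 (by
        rw [Ne, map_eq_zero]
        exact he₀)) hv1
    rw [val_lt_iff t ht0 𝒪 ω h𝒪] at h3
    by_cases hνν : ν = ν₀
    · rw [hνν]
      exact h3
    · exact h3.trans (hν₀.2 ν hν hνν)
  · intro φ hφ r hr h hh
    -- the polynomial over `B`
    let cB : B := evM (fun j => (⟨ζ j, hζB j⟩ : B)) (fun j => (⟨t j, htB j⟩ : B)) e₀
    let aB : ℕ → B := fun i =>
      evM (fun i => (⟨ξ i, hξB i⟩ : B)) (fun j => (⟨t j, htB j⟩ : B)) (a i)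
    have hcB : (cB : L) = evM ζ t e₀ := by
      change B.val (evM (fun j => (⟨ζ j, hζB j⟩ : B)) (fun j => (⟨t j, htB j⟩ : B)) e₀) = _
      rw [map_evM]
      rfl
    have haB : ∀ i, (aB i : L) = evM ξ t (a i) := by
      intro i
      change B.val (evM (fun i => (⟨ξ i, hξB i⟩ : B)) (fun j => (⟨t j, htB j⟩ : B)) (a i)) = _
      rw [map_evM]
      rfl
    have hφc : φ cB = evM (fun j => φ ⟨ζ j, hζB j⟩) (fun j => φ ⟨t j, htB j⟩) e₀ :=
      map_evM φ _ _ _
    have hφa : ∀ i, φ (aB i) =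
        evM (fun i => φ ⟨ξ i, hξB i⟩) (fun j => φ ⟨t j, htB j⟩) (a i) := fun i => map_evM φ _ _ _
    let M : Polynomial B := Polynomial.C cB * Polynomial.X ^ M₁.natDegree +
      ∑ i ∈ Finset.range M₁.natDegree, Polynomial.C (aB i) * Polynomial.X ^ i
    have hMdeg : M.natDegree ≤ M₁.natDegree := by
      refine (Polynomial.natDegree_add_le _ _).trans (max_le ?_ ?_)
      · exact Polynomial.natDegree_C_mul_X_pow_le _ _
      · refine Polynomial.natDegree_sum_le_of_forall_le _ _ ?_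
        intro i hi
        exact (Polynomial.natDegree_C_mul_X_pow_le _ _).trans (Finset.mem_range.1 hi).le
    have hMc : M.coeff M₁.natDegree = cB := by
      simp only [M, Polynomial.coeff_add, Polynomial.finsetSum_coeff, Polynomial.coeff_C_mul,
        Polynomial.coeff_X_pow, if_true, mul_one]
      rw [Finset.sum_eq_zero, add_zero]
      intro i hi
      rw [if_neg (Finset.mem_range.1 hi).ne', mul_zero]
    have hMg : Polynomial.aeval g M = 0 := by
      have h1 : Polynomial.aeval g M = (cB : L) * g ^ M₁.natDegree +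
          ∑ i ∈ Finset.range M₁.natDegree, (aB i : L) * g ^ i := by
        simp only [M, map_add, map_mul, map_sum, map_pow, Polynomial.aeval_X, Polynomial.aeval_C]
        rfl
      rw [h1, hcB]
      have h2 : ∑ i ∈ Finset.range M₁.natDegree, (aB i : L) * g ^ i =
          evM ζ t e₀ * ∑ i ∈ Finset.range M₁.natDegree, (M₁.coeff i : L) * g ^ i := by
        rw [Finset.mul_sum]
        refine Finset.sum_congr rfl fun i hi => ?_
        rw [haB, ← ha i hi]
        ring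
      rw [h2, ← mul_add, hμg, mul_zero]
    have hMr : (M.map (φ : B →+* ℂ)).eval r = 0 := by
      have h1 : (M.map (φ : B →+* ℂ)).eval r = φ cB * r ^ M₁.natDegree +
          ∑ i ∈ Finset.range M₁.natDegree, φ (aB i) * r ^ i := by
        simp only [M, Polynomial.eval_map, Polynomial.eval₂_add, Polynomial.eval₂_mul,
          Polynomial.eval₂_C, Polynomial.eval₂_X_pow, Polynomial.eval₂_finsetSum]
        rfl
      rw [h1, hφc, ← hr]
      congr 1
      refine Finset.sum_congr rfl fun i _ => ?_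
      rw [hφa]
    obtain ⟨j, q, rem, hdiv, hrem⟩ :=
      MV.MinPolyAux.pseudo_div cB M₁.natDegree hm M hMdeg hMc h.natDegree h le_rfl
    have hremg : Polynomial.aeval g rem = 0 := by
      have h1 := congrArg (Polynomial.aeval g) hdiv
      rw [map_mul, hh, mul_zero, map_add, map_mul, hMg, zero_mul, zero_add] at h1
      exact h1.symm
    -- the remainder vanishes
    have hmemR : ∀ x : B, (x : L) ∈ F₁ := by
      rintro ⟨x, hx⟩
      have h1 : B ≤ F₁.toSubalgebra := by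
        rw [hB]
        apply Algebra.adjoin_le
        rintro _ (⟨i, rfl⟩ | ⟨j, rfl⟩)
        · exact hξF i
        · exact htF j
      exact h1 hx
    let ι : B →+* F₁ := RingHom.codRestrict (algebraMap B L) F₁ hmemR
    have hιinj : Function.Injective ι := by
      intro x y hxy
      have h1 := congrArg (fun z : F₁ => (z : L)) hxy
      exact Subtype.ext h1
    have hrem0 : rem = 0 := by
      by_contra hne
      have h1 : rem.map ι ≠ 0 := by
        intro h2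
        exact hne ((Polynomial.map_eq_zero_iff hιinj).1 h2)
      have h3 : Polynomial.aeval g (rem.map ι) = 0 := by
        rw [Polynomial.aeval_def, Polynomial.eval₂_map]
        exact hremg
      have h5 : M₁.natDegree ≤ (rem.map ι).natDegree :=
        Polynomial.natDegree_le_natDegree (minpoly.degree_le_of_ne_zero F₁ g h1 h3)
      have h6 : (rem.map ι).natDegree ≤ rem.natDegree := Polynomial.natDegree_map_le
      omega
    rw [hrem0, add_zero] at hdiv
    have h1 := congrArg (fun p : Polynomial B => (p.map (φ : B →+* ℂ)).eval r) hdiv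
    simp only [Polynomial.map_mul, Polynomial.eval_mul, hMr, zero_mul, Polynomial.map_pow,
      Polynomial.map_C, Polynomial.eval_pow, Polynomial.eval_C] at h1
    rcases mul_eq_zero.1 h1 with h2 | h2
    · exfalso
      refine hφ ?_
      rw [← hφc]
      exact eq_zero_of_pow_eq_zero h2
    · exact h2

end Pool.Agent.Lib.MP_209724_lc.GC
end

section

/-!
Good starting points (GC-15).
-/

namespace Pool.Agent.Lib.MP_209724_lc.GC

open MvPolynomial Filter Topology Metric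
open MV (lead)

/-- A root close to `1`. -/
private theorem gc_good_root {p : Polynomial ℂ} {m : ℕ} (hm : p.natDegree = m) (hp : p ≠ 0)
    {δ : ℝ} (h1 : δ ≤ ‖p.leadingCoeff‖) (h2 : ‖p.eval 1‖ < δ * (1 / 2) ^ m) :
    ∃ r : ℂ, p.eval r = 0 ∧ ‖r - 1‖ ≤ 1 / 2 := by
  by_contra hcon
  push Not at hcon
  have hs : p.Splits := IsAlgClosed.splits p
  have hcard : p.roots.card = m := by rw [← hm]; exact hs.natDegree_eq_card_roots.symm
  have h3 : ∀ s : Multiset ℂ, (∀ r ∈ s, (1 / 2 : ℝ) ≤ ‖1 - r‖) →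
      (1 / 2 : ℝ) ^ s.card ≤ ‖(s.map fun r => 1 - r).prod‖ := by
    intro s
    induction s using Multiset.induction with
    | empty => intro _; simp
    | cons a s ih =>
      intro h
      rw [Multiset.card_cons, Multiset.map_cons, Multiset.prod_cons, norm_mul, pow_succ, mul_comm]
      have := ih fun r hr => h r (Multiset.mem_cons_of_mem hr)
      have h' := h a (Multiset.mem_cons_self a s)
      gcongr
  have h4 := h3 p.roots (fun r hr => by
    have := hcon r ((Polynomial.mem_roots hp).1 hr)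
    rw [norm_sub_rev]
    exact this.le)
  rw [hcard] at h4
  have h5 : p.eval 1 = p.leadingCoeff * (p.roots.map fun r => 1 - r).prod :=
    hs.eval_eq_prod_roots 1
  rw [h5, norm_mul] at h2
  have h6 : δ * (1 / 2) ^ m ≤ ‖p.leadingCoeff‖ * ‖(p.roots.map fun r => 1 - r).prod‖ := by
    by_cases hδ : 0 ≤ δ
    · gcongr
    · push Not at hδ
      exact le_trans (mul_nonpos_of_nonpos_of_nonneg hδ.le (by positivity)) (by positivity)
  linarith

/-- The evaluation as a homomorphism of algebras. -/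
private noncomputable def evMA {σ τ S : Type*} [CommRing S] [Algebra ℂ S] (x : τ → S)
    (t : σ → S) : MvPolynomial σ (MvPolynomial τ ℂ) →ₐ[ℂ] S :=
  { evM x t with
    commutes' := fun r => by
      have h : algebraMap ℂ (MvPolynomial σ (MvPolynomial τ ℂ)) r = C (C r) := rfl
      rw [h]
      change evM x t (C (C r)) = _
      rw [evM_C, ← algebraMap_eq, AlgHom.commutes] }

private theorem gc_good_coeff {n k : ℕ} {L : Type} [Field L] [Algebra ℂ L] (ξ : Fin n → L)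
    (t : Fin k → L) (ht : AlgebraicIndependent (IntermediateField.adjoin ℂ (Set.range ξ)) t)
    (q : MvPolynomial (Fin k) (MvPolynomial (Fin n) ℂ)) (hq : evM ξ t q = 0) (ν : Fin k →₀ ℕ) :
    aeval ξ (q.coeff ν) = 0 := by
  set K := IntermediateField.adjoin ℂ (Set.range ξ)
  let ρ : MvPolynomial (Fin n) ℂ →ₐ[ℂ] K :=
    aeval fun i => ⟨ξ i, IntermediateField.subset_adjoin _ _ ⟨i, rfl⟩⟩
  have hρ : ∀ c, algebraMap K L (ρ c) = aeval ξ c := by
    intro c
    have : (IsScalarTower.toAlgHom ℂ K L).comp ρ = aeval ξ := by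
      ext i
      simp [ρ]
    exact congrArg (fun f => f c) this
  have h1 : aeval t (map (ρ : MvPolynomial (Fin n) ℂ →+* K) q) = evM ξ t q := by
    rw [aeval_def, eval₂_map]
    unfold evM
    rw [coe_eval₂Hom]
    congr 1
    ext c
    · simp
    · simp [hρ]
  rw [hq] at h1
  have h2 := ht.eq_zero_of_aeval_eq_zero _ h1
  have h3 := congrArg (fun p => algebraMap K L (coeff ν p)) h2
  simp only [coeff_map, coeff_zero, map_zero] at h3
  rw [← hρ]
  exact h3

private theorem gc_good_hom {n k : ℕ} {L : Type} [Field L] [Algebra ℂ L] (ξ : Fin n → L)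
    (t : Fin k → L) (ht : AlgebraicIndependent (IntermediateField.adjoin ℂ (Set.range ξ)) t)
    (B : Subalgebra ℂ L) (hB : B = Algebra.adjoin ℂ (Set.range ξ ∪ Set.range t))
    (hξB : ∀ i, ξ i ∈ B) (htB : ∀ j, t j ∈ B) (x : Fin n → ℂ)
    (hx : ∀ f : MvPolynomial (Fin n) ℂ, aeval ξ f = 0 → eval x f = 0) (t₀ : Fin k → ℂ) :
    ∃ φ : B →ₐ[ℂ] ℂ, (∀ i, φ ⟨ξ i, hξB i⟩ = x i) ∧ ∀ j, φ ⟨t j, htB j⟩ = t₀ j := by
  let f : MvPolynomial (Fin k) (MvPolynomial (Fin n) ℂ) →ₐ[ℂ] B :=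
    evMA (fun i => ⟨ξ i, hξB i⟩) (fun j => ⟨t j, htB j⟩)
  let f₀ : MvPolynomial (Fin k) (MvPolynomial (Fin n) ℂ) →ₐ[ℂ] ℂ := evMA x t₀
  have hval : ∀ q, B.val (f q) = evM ξ t q := by
    intro q
    exact map_evM B.val _ _ q
  have hf : Function.Surjective f := by
    intro y
    have h1 : B ≤ (evMA ξ t).range := by
      rw [hB]
      apply Algebra.adjoin_le
      rintro _ (⟨i, rfl⟩ | ⟨j, rfl⟩)
      · exact ⟨C (X i), by
          change evM ξ t (C (X i)) = ξ i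
          rw [evM_C, aeval_X]⟩
      · exact ⟨X j, by
          change evM ξ t (X j) = t j
          rw [evM_X]⟩
    obtain ⟨q, hq⟩ := h1 y.2
    refine ⟨q, Subtype.ext ?_⟩
    rw [← hq]
    exact hval q
  have hker : RingHom.ker f.toRingHom ≤ RingHom.ker f₀.toRingHom := by
    intro q hq
    rw [RingHom.mem_ker] at hq ⊢
    have h1 : evM ξ t q = 0 := by
      rw [← hval q]
      have : f q = 0 := hq
      rw [this, map_zero]
    change evM x t₀ q = 0
    rw [evM_eq_sum]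
    apply Finset.sum_eq_zero
    intro ν _
    rw [aeval_eq_eval]
    have h2 := hx _ (gc_good_coeff ξ t ht q h1 ν)
    change eval x (coeff ν q) * _ = 0
    rw [h2, zero_mul]
  refine ⟨AlgHom.liftOfSurjective f hf f₀ hker, fun i => ?_, fun j => ?_⟩
  · have h1 : f (C (X i)) = ⟨ξ i, hξB i⟩ := by
      change evM _ _ (C (X i)) = _
      rw [evM_C, aeval_X]
    rw [← h1, AlgHom.liftOfSurjective_apply]
    change evM _ _ (C (X i)) = _
    rw [evM_C, aeval_X]
  · have h1 : f (X j) = ⟨t j, htB j⟩ := by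
      change evM _ _ (X j) = _
      rw [evM_X]
    rw [← h1, AlgHom.liftOfSurjective_apply]
    change evM _ _ (X j) = _
    rw [evM_X]

private theorem gc_good_beta {d k : ℕ} {L : Type} [Field L] [Algebra ℂ L] (ζ : Fin d → L)
    (t : Fin k → L) (B : Subalgebra ℂ L) (hζB : ∀ j, ζ j ∈ B) (htB : ∀ j, t j ∈ B)
    (halg : ∀ y ∈ B, IsAlgebraic (Algebra.adjoin ℂ (Set.range (Sum.elim t ζ))) y)
    (b : B) (hb : b ≠ 0) :
    ∃ β : MvPolynomial (Fin k) (MvPolynomial (Fin d) ℂ), β ≠ 0 ∧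
      b ∣ evM (fun j => (⟨ζ j, hζB j⟩ : B)) (fun j => ⟨t j, htB j⟩) β := by
  set R := Algebra.adjoin ℂ (Set.range (Sum.elim t ζ)) with hR
  have hRB : R ≤ B := by
    apply Algebra.adjoin_le
    rintro _ ⟨j | j, rfl⟩
    · exact htB j
    · exact hζB j
  let algB : Algebra R B := (Subalgebra.inclusion hRB).toRingHom.toAlgebra
  have hmapB : ∀ r : R, algebraMap R B r = Subalgebra.inclusion hRB r := fun r => rfl
  have hbalg : IsAlgebraic R b := by
    refine (halg b b.2).of_ringHom_of_comp_eq (RingHom.id R) (B.val : B →+* L)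
      Function.surjective_id Subtype.val_injective ?_
    ext r
    rfl
  obtain ⟨r, hr, hdvd⟩ := hbalg.exists_nonzero_dvd (mem_nonZeroDivisors_of_ne_zero hb)
  have h1 : (r : L) ∈ (aeval (Sum.elim t ζ) : MvPolynomial (Fin k ⊕ Fin d) ℂ →ₐ[ℂ] L).range := by
    rw [← Algebra.adjoin_range_eq_range_aeval]
    exact r.2
  obtain ⟨β', hβ'⟩ := h1
  have h2 : evM (fun j => (⟨ζ j, hζB j⟩ : B)) (fun j => ⟨t j, htB j⟩)
      (sumAlgEquiv ℂ (Fin k) (Fin d) β') = algebraMap R B r := by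
    apply Subtype.val_injective
    have h3 := map_evM B.val (fun j => (⟨ζ j, hζB j⟩ : B)) (fun j => ⟨t j, htB j⟩)
      (sumAlgEquiv ℂ (Fin k) (Fin d) β')
    have h4 : evM ζ t (sumAlgEquiv ℂ (Fin k) (Fin d) β') = r := by
      rw [evM_sum]
      exact hβ'
    exact h3.trans h4
  refine ⟨sumAlgEquiv ℂ (Fin k) (Fin d) β', ?_, by rw [h2]; exact hdvd⟩
  intro h0
  rw [h0, map_zero] at h2
  apply hr
  apply Subalgebra.inclusion_injective hRB
  rw [map_zero]
  exact h2.symm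

theorem exists_good {n d k : ℕ} {L : Type} [Field L] [Algebra ℂ L] (ξ : Fin n → L)
    (Z : Fin d → Fin n → ℂ) (ζ : Fin d → L)
    (hζ : ∀ j, ζ j = ∑ i, algebraMap ℂ L (Z j i) * ξ i) (t : Fin k → L) (ht0 : ∀ j, t j ≠ 0)
    (hind : AlgebraicIndependent ℂ (Sum.elim t ζ))
    (hξ : ∀ i, IsAlgebraic (Algebra.adjoin ℂ (Set.range ζ)) (ξ i))
    (𝒪 : ValuationSubring L) (hK : ∀ c ∈ IntermediateField.adjoin ℂ (Set.range ξ), c ∈ 𝒪)
    {ω : Fin k → ℝ} (hω : LinearIndependent ℚ ω)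
    (h𝒪 : ∀ m : Fin k → ℤ, 𝒪.valuation (∏ j, t j ^ m j) < 1 ↔ 0 < ∑ j, ω j * (m j : ℝ))
    (g : L) (hg : VInt (IntermediateField.adjoin ℂ (Set.range (Sum.elim t ζ))) 𝒪 g)
    (hg1 : 𝒪.valuation (g - 1) < 1)
    (A : Subalgebra ℂ L) (hA : A.FG) (hξA : ∀ i, ξ i ∈ A) (htA : ∀ j, t j ∈ A) (hgA : g ∈ A)
    (halg : ∀ x ∈ A, IsAlgebraic (Algebra.adjoin ℂ (Set.range (Sum.elim t ζ))) x) :
    ∃ c : MvPolynomial (Fin d) ℂ, c ≠ 0 ∧ ∃ ε : ℝ, 0 < ε ∧
      ∀ D : Set (Fin d → ℂ), IsCompact D → (∀ z ∈ D, eval z c ≠ 0) →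
        ∀ R : ℝ, ∀ᶠ r : ℝ in atTop, ∀ x : Fin n → ℂ, ‖x‖ ≤ R * r →
          (∀ f : MvPolynomial (Fin n) ℂ, aeval ξ f = 0 → eval x f = 0) →
          ∀ z ∈ D, (∀ j, prj Z x j = r * z j) → ∀ ς : Fin k → ℂ, (∀ j, ‖ς j + ω j‖ ≤ ε) →
          ∃ ψ : A →ₐ[ℂ] ℂ, (∀ i, ψ ⟨ξ i, hξA i⟩ = x i) ∧
            (∀ j, ψ ⟨t j, htA j⟩ = Complex.exp (r * ς j)) ∧ ‖ψ ⟨g, hgA⟩ - 1‖ ≤ 1 / 2 := by
  have ht : AlgebraicIndependent (IntermediateField.adjoin ℂ (Set.range ξ)) t :=
    algebraicIndependent_t t ht0 𝒪 (fun c => hK c c.2) hω h𝒪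
  set B : Subalgebra ℂ L := Algebra.adjoin ℂ (Set.range ξ ∪ Set.range t) with hB
  have hξB : ∀ i, ξ i ∈ B := fun i => Algebra.subset_adjoin (Or.inl ⟨i, rfl⟩)
  have htB : ∀ j, t j ∈ B := fun j => Algebra.subset_adjoin (Or.inr ⟨j, rfl⟩)
  have hζB : ∀ j, ζ j ∈ B := by
    intro j
    rw [hζ]
    exact Subalgebra.sum_mem _ fun i _ => B.mul_mem (B.algebraMap_mem _) (hξB i)
  have hζsub : ∀ j, (⟨ζ j, hζB j⟩ : B) = ∑ i, algebraMap ℂ B (Z j i) * ⟨ξ i, hξB i⟩ := by
    intro j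
    apply Subtype.val_injective
    have : B.val (∑ i, algebraMap ℂ B (Z j i) * ⟨ξ i, hξB i⟩) =
        ∑ i, algebraMap ℂ L (Z j i) * ξ i := by
      rw [map_sum]
      rfl
    exact (hζ j).trans this.symm
  have hBA : B ≤ A := by
    apply Algebra.adjoin_le
    rintro _ (⟨i, rfl⟩ | ⟨j, rfl⟩)
    · exact hξA i
    · exact htA j
  have hRB : Algebra.adjoin ℂ (Set.range (Sum.elim t ζ)) ≤ B := by
    apply Algebra.adjoin_le
    rintro _ ⟨j | j, rfl⟩
    · exact htB j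
    · exact hζB j
  have halgB : ∀ x ∈ A, IsAlgebraic B x := by
    intro x hx
    refine (halg x hx).ringHom_of_comp_eq (Subalgebra.inclusion hRB).toRingHom (RingHom.id L)
      (Subalgebra.inclusion_injective hRB) ?_
    ext y
    rfl
  obtain ⟨b, hb, hext⟩ := MV.exists_ext B A hBA hA halgB g hgA
  obtain ⟨β, hβ, hdvd⟩ := gc_good_beta ζ t B hζB htB (fun y hy => halg y (hBA hy)) b hb
  obtain ⟨m, μ, e₀, a, e, hm, he₀, he, hrel, hcompat⟩ :=
    exists_minpoly ξ Z ζ hζ t ht0 hind hξ 𝒪 hK hω h𝒪 g hg hg1 B hB hξB hζB htB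
  obtain ⟨ν, hν⟩ := exists_isLow hω hβ
  obtain ⟨ε₁, hε₁, hlow₁⟩ := lower_bound ω e₀ μ he₀
  obtain ⟨ε₂, hε₂, hlow₂⟩ := lower_bound ω β ν hν
  obtain ⟨ε₃, hε₃, δ, hδ, hup⟩ := small_bound ω e μ he
  refine ⟨lead (e₀.coeff μ) * lead (β.coeff ν),
    mul_ne_zero (MV.lead_ne_zero he₀.1) (MV.lead_ne_zero hν.1), min ε₁ (min ε₂ ε₃),
    lt_min hε₁ (lt_min hε₂ hε₃), ?_⟩
  intro D hD hcD R
  have hcD1 : ∀ w ∈ D, eval w (lead (e₀.coeff μ)) ≠ 0 := fun w hw h => hcD w hw (by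
    rw [map_mul, h, zero_mul])
  have hcD2 : ∀ w ∈ D, eval w (lead (β.coeff ν)) ≠ 0 := fun w hw h => hcD w hw (by
    rw [map_mul, h, mul_zero])
  obtain ⟨c₁, hc₁, hl1⟩ := hlow₁ D hD hcD1
  obtain ⟨c₂, hc₂, hl2⟩ := hlow₂ D hD hcD2
  have hup' := hup R
  have hlim : ∀ᶠ r : ℝ in atTop, Real.exp (-(δ * r)) < c₁ * (1 / 2) ^ m := by
    have h1 : Tendsto (fun r : ℝ => Real.exp (-(δ * r))) atTop (𝓝 0) :=
      Real.tendsto_exp_neg_atTop_nhds_zero.comp (tendsto_id.const_mul_atTop hδ)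
    exact h1.eventually_lt_const (by positivity)
  filter_upwards [hl1, hl2, hup', hlim] with r h1 h2 h3 h4
  intro x hxR hxP z hz hxz ς hς
  have hς1 : ∀ j, ‖ς j + ω j‖ ≤ ε₁ := fun j => (hς j).trans (min_le_left _ _)
  have hς2 : ∀ j, ‖ς j + ω j‖ ≤ ε₂ :=
    fun j => (hς j).trans ((min_le_right _ _).trans (min_le_left _ _))
  have hς3 : ∀ j, ‖ς j + ω j‖ ≤ ε₃ :=
    fun j => (hς j).trans ((min_le_right _ _).trans (min_le_right _ _))
  set t₀ : Fin k → ℂ := fun j => Complex.exp (r * ς j) with ht₀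
  obtain ⟨φ, hφξ, hφt⟩ := gc_good_hom ξ t ht B hB hξB htB x hxP t₀
  have hφt' : (fun j => φ ⟨t j, htB j⟩) = t₀ := funext hφt
  have hφx : (fun i => φ ⟨ξ i, hξB i⟩) = x := funext hφξ
  have hφζ : (fun j => φ ⟨ζ j, hζB j⟩) = fun j => (r : ℂ) * z j := by
    funext j
    rw [hζsub, map_sum, ← hxz j]
    unfold prj
    apply Finset.sum_congr rfl
    intro i _
    rw [map_mul, AlgHom.commutes, hφξ]
    rfl
  set T : ℝ := ‖∏ j, Complex.exp (r * ς j) ^ μ j‖ with hT
  have hTpos : 0 < T := by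
    rw [hT, norm_pos_iff]
    exact Finset.prod_ne_zero_iff.2 fun j _ => pow_ne_zero _ (Complex.exp_ne_zero _)
  -- `φ b ≠ 0`
  have hφb : φ b ≠ 0 := by
    intro h0
    obtain ⟨y, hy⟩ := hdvd
    have h5 := congrArg φ hy
    rw [map_mul, h0, zero_mul, map_evM, hφt', hφζ] at h5
    have h6 := h2 z hz ς hς2
    rw [h5, norm_zero] at h6
    have h7 : 0 < ‖∏ j, Complex.exp (r * ς j) ^ ν j‖ := by
      rw [norm_pos_iff]
      exact Finset.prod_ne_zero_iff.2 fun j _ => pow_ne_zero _ (Complex.exp_ne_zero _)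
    have h8 := mul_pos hc₂ h7
    linarith
  set c₀ : ℂ := evM (fun j => (r : ℂ) * z j) t₀ e₀ with hc₀
  have hc₀n : c₁ * T ≤ ‖c₀‖ := h1 z hz ς hς1
  have hc₀0 : c₀ ≠ 0 := by
    intro h0
    rw [h0, norm_zero] at hc₀n
    have := mul_pos hc₁ hTpos
    linarith
  -- the polynomial
  set p : Polynomial ℂ := Polynomial.C c₀ * Polynomial.X ^ m +
    ∑ i ∈ Finset.range m, Polynomial.C (evM x t₀ (a i)) * Polynomial.X ^ i with hp
  have hlow' : (∑ i ∈ Finset.range m, Polynomial.C (evM x t₀ (a i)) * Polynomial.X ^ i).degree <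
      (Polynomial.C c₀ * Polynomial.X ^ m).degree := by
    rw [Polynomial.degree_C_mul_X_pow m hc₀0]
    refine Polynomial.mem_degreeLT.1 (Submodule.sum_mem _ fun k hk => Polynomial.mem_degreeLT.2 ?_)
    refine lt_of_le_of_lt (Polynomial.degree_C_mul_X_pow_le k _) ?_
    exact_mod_cast Finset.mem_range.1 hk
  have hpdeg : p.degree = m := by
    rw [hp, Polynomial.degree_add_eq_left_of_degree_lt hlow', Polynomial.degree_C_mul_X_pow m hc₀0]
  have hpnat : p.natDegree = m := Polynomial.natDegree_eq_of_degree_eq_some hpdeg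
  have hplead : p.leadingCoeff = c₀ := by
    rw [hp, Polynomial.leadingCoeff_add_of_degree_lt' hlow', Polynomial.leadingCoeff_C_mul_X_pow]
  have hp0 : p ≠ 0 := by
    intro h0
    rw [h0, Polynomial.degree_zero] at hpdeg
    exact absurd hpdeg.symm (WithBot.coe_ne_bot)
  have heval : ∀ s : ℂ, p.eval s = c₀ * s ^ m +
      ∑ i ∈ Finset.range m, evM x t₀ (a i) * s ^ i := by
    intro s
    rw [hp, Polynomial.eval_add, Polynomial.eval_finsetSum]
    simp
  -- the value at `1`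
  have hrelB : evM (fun j => (⟨ζ j, hζB j⟩ : B)) (fun j => ⟨t j, htB j⟩) e₀ +
      ∑ i ∈ Finset.range m, evM (fun i => (⟨ξ i, hξB i⟩ : B)) (fun j => ⟨t j, htB j⟩) (a i) =
        evM (fun i => (⟨ξ i, hξB i⟩ : B)) (fun j => ⟨t j, htB j⟩) e := by
    apply Subtype.val_injective
    have e1 : B.val (evM (fun j => (⟨ζ j, hζB j⟩ : B)) (fun j => ⟨t j, htB j⟩) e₀) =
        evM ζ t e₀ := map_evM B.val _ _ _
    have e2 : ∀ q, B.val (evM (fun i => (⟨ξ i, hξB i⟩ : B)) (fun j => ⟨t j, htB j⟩) q) =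
        evM ξ t q := fun q => map_evM B.val _ _ q
    have e3 : B.val (evM (fun j => (⟨ζ j, hζB j⟩ : B)) (fun j => ⟨t j, htB j⟩) e₀ +
        ∑ i ∈ Finset.range m,
          evM (fun i => (⟨ξ i, hξB i⟩ : B)) (fun j => ⟨t j, htB j⟩) (a i)) =
        B.val (evM (fun i => (⟨ξ i, hξB i⟩ : B)) (fun j => ⟨t j, htB j⟩) e) := by
      rw [map_add, map_sum, e1, e2]
      simp only [e2]
      exact hrel
    exact e3
  have hval1 : p.eval 1 = evM x t₀ e := by
    have h5 := congrArg φ hrelB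
    rw [map_add, map_sum, map_evM, map_evM, hφt', hφx, hφζ] at h5
    simp only [map_evM, hφt', hφx] at h5
    rw [heval 1, ← h5]
    congr 1
    · rw [one_pow, mul_one]
    · apply Finset.sum_congr rfl
      intro k _
      rw [one_pow, mul_one]
  have hsmall : ‖p.eval 1‖ < c₁ * T * (1 / 2) ^ m := by
    rw [hval1]
    refine lt_of_le_of_lt (h3 x hxR ς hς3) ?_
    have := mul_lt_mul_of_pos_right h4 hTpos
    calc Real.exp (-(δ * r)) * T < c₁ * (1 / 2) ^ m * T := this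
      _ = c₁ * T * (1 / 2) ^ m := by ring
  obtain ⟨s, hs, hs1⟩ := gc_good_root hpnat hp0 (by rw [hplead]; exact hc₀n) hsmall
  obtain ⟨ψ, hψ, hψg⟩ := hext φ hφb s (hcompat φ (by rw [hφζ, hφt']; exact hc₀0) s (by
    rw [hφζ, hφt', hφx, ← hs, heval s]))
  refine ⟨ψ, fun i => ?_, fun j => ?_, ?_⟩
  · rw [← hφξ i]
    exact hψ ⟨ξ i, hξB i⟩
  · have h9 := hψ ⟨t j, htB j⟩
    rw [hφt j] at h9
    exact h9
  · rw [hψg]
    exact hs1

end Pool.Agent.Lib.MP_209724_lc.GC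
end
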