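import Mathlib
import Pool.Agent.Lib.MP_209724_lc.MV.Branch
import Pool.Agent.Lib.MP_209724_lc.GC.Close
import Pool.Agent.Lib.MP_209724_lc.MV.HurwitzMulti
import Pool.Agent.Lib.MP_209724_lc.MV.CoreA
import Pool.Agent.Lib.MP_209724_lc.MV.Idem
import Pool.Agent.Lib.MP_209724_lc.MV.Sheets
import Pool.Agent.Lib.MP_209724_lc.GC.Proj
import Pool.Agent.Lib.MP_209724_lc.GC.Good

section

/-!
The approximate idempotent of a place which is finite over a valuation ring of rank one.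
-/

namespace Pool.Agent.Lib.MP_209724_lc.GC

open MV (lead)

theorem finite_maximal {F L : Type} [Field F] [Field L] [Algebra F L] [FiniteDimensional F L]
    (𝒪 : ValuationSubring L) : Finite (MaximalSpectrum (integralClosure (base F 𝒪) L)) := by
  classical
  by_contra hfin
  rw [not_finite_iff_infinite] at hfin
  set N := Module.finrank F L with hN
  let m : Fin (N + 1) → MaximalSpectrum (integralClosure (base F 𝒪) L) := fun i =>
    Infinite.natEmbedding _ i.val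
  have hm : Function.Injective m := fun i j h =>
    Fin.ext ((Infinite.natEmbedding _).injective h)
  have hcop : Pairwise (Function.onFun IsCoprime fun i => (m i).asIdeal) := by
    intro i j hij
    simp only [Function.onFun]
    rw [Ideal.isCoprime_iff_sup_eq]
    apply Ideal.IsMaximal.coprime_of_ne (m i).isMaximal (m j).isMaximal
    intro h
    exact hij (hm (MaximalSpectrum.ext h))
  have hex : ∀ i, ∃ e : integralClosure (base F 𝒪) L, e - 1 ∈ (m i).asIdeal ∧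
      ∀ j, j ≠ i → e ∈ (m j).asIdeal := by
    intro i
    obtain ⟨e, he⟩ := Ideal.exists_forall_sub_mem_ideal hcop (fun j => if j = i then 1 else 0)
    refine ⟨e, by simpa using he i, fun j hj => ?_⟩
    simpa [hj] using he j
  choose e he1 he0 using hex
  have hdep : ¬ LinearIndependent F (fun i => (e i : L)) := by
    intro h
    have := h.fintype_card_le_finrank
    rw [Fintype.card_fin, ← hN] at this
    omega
  rw [Fintype.not_linearIndependent_iff] at hdep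
  obtain ⟨α, hα, i1, hi1⟩ := hdep
  obtain ⟨i0, hi0⟩ := Finite.exists_max fun i => 𝒪.valuation (algebraMap F L (α i))
  have hα0 : α i0 ≠ 0 := by
    intro h
    have h1 := hi0 i1
    rw [h, map_zero, map_zero, le_zero_iff, map_eq_zero, map_eq_zero] at h1
    exact hi1 h1
  have hβ : ∀ i, α i / α i0 ∈ base F 𝒪 := by
    intro i
    rw [mem_base, ← ValuationSubring.valuation_le_one_iff, map_div₀, map_div₀]
    exact div_le_one_of_le₀ (hi0 i) zero_le
  have hsum : e i0 = -∑ i ∈ Finset.univ.erase i0, (⟨_, hβ i⟩ : base F 𝒪) • e i := by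
    apply Subtype.ext
    have h1 : (∑ i, (α i / α i0) • (e i : L)) = 0 := by
      have h2 : (∑ i, (α i / α i0) • (e i : L)) = (α i0)⁻¹ • ∑ i, α i • (e i : L) := by
        rw [Finset.smul_sum]
        refine Finset.sum_congr rfl fun i _ => ?_
        rw [smul_smul, div_eq_inv_mul]
      rw [h2, hα, smul_zero]
    rw [← Finset.add_sum_erase _ _ (Finset.mem_univ i0), div_self hα0, one_smul] at h1
    have h3 : ((-∑ i ∈ Finset.univ.erase i0, (⟨_, hβ i⟩ : base F 𝒪) • e i :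
        integralClosure (base F 𝒪) L) : L) =
        -∑ i ∈ Finset.univ.erase i0, (α i / α i0) • (e i : L) := by
      push_cast
      rfl
    rw [h3]
    exact eq_neg_of_add_eq_zero_left h1
  have hmem : e i0 ∈ (m i0).asIdeal := by
    rw [hsum]
    apply neg_mem
    apply sum_mem
    intro i hi
    rw [Finset.mem_erase] at hi
    rw [Algebra.smul_def]
    exact Ideal.mul_mem_left _ _ (he0 i i0 hi.1.symm)
  apply (m i0).isMaximal.ne_top
  rw [Ideal.eq_top_iff_one]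
  have := sub_mem hmem (he1 i0)
  simpa using this

theorem idem_integral_mem {F L : Type} [Field F] [Field L] [Algebra F L]
    (𝒪 : ValuationSubring L) {x : L} (hx : IsIntegral (base F 𝒪) x) : x ∈ 𝒪 := by
  obtain ⟨p, hp, h0⟩ := hx
  let φ : base F 𝒪 →+* 𝒪 :=
    ((algebraMap F L).comp (base F 𝒪).subtype).codRestrict 𝒪.toSubring fun c => c.2
  have h1 : IsIntegral 𝒪 x := by
    refine ⟨p.map φ, hp.map _, ?_⟩
    rw [Polynomial.eval₂_map]
    exact h0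
  obtain ⟨y, hy⟩ := IsIntegrallyClosed.isIntegral_iff.1 h1
  rw [← hy]
  exact y.2

theorem exists_idem {F L : Type} [Field F] [Field L] [Algebra F L] [FiniteDimensional F L]
    (𝒪 : ValuationSubring L)
    (harch : ∀ x y : F, x ≠ 0 → 𝒪.valuation (algebraMap F L y) < 1 →
      ∃ N : ℕ, 𝒪.valuation (algebraMap F L y) ^ N ≤ 𝒪.valuation (algebraMap F L x))
    (U : Finset L) (hU : ∀ u ∈ U, u ∈ 𝒪) :
    ∃ (g f : L) (b : F) (k M : ℕ), 0 < M ∧ VInt F 𝒪 g ∧ 𝒪.valuation (g - 1) < 1 ∧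
      VInt F 𝒪 f ∧ 𝒪.valuation (algebraMap F L b) < 1 ∧
      (g * (g - 1)) ^ M = algebraMap F L b * f ∧ ∀ u ∈ U, VInt F 𝒪 (g ^ k * u) := by
  classical
  let A := base F 𝒪
  let B := integralClosure A L
  have := finite_maximal (F := F) 𝒪
  let φ : B →+* 𝒪 := (algebraMap B L).codRestrict 𝒪.toSubring fun b => idem_integral_mem 𝒪 b.2
  have hφ : ∀ b : B, ((φ b : 𝒪) : L) = b := fun b => rfl
  let P : Ideal B := (IsLocalRing.maximalIdeal 𝒪).comap φ
  have hP : ∀ b : B, b ∈ P ↔ 𝒪.valuation (b : L) < 1 := by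
    intro b
    rw [Ideal.mem_comap, ValuationSubring.valuation_lt_one_iff, hφ]
  have hPp : P.IsPrime := Ideal.comap_isPrime φ _
  -- the maximal ideal of A
  let 𝔪 : Ideal A := P.comap (algebraMap A B)
  have h𝔪 : ∀ c : A, c ∈ 𝔪 ↔ 𝒪.valuation (algebraMap F L c) < 1 := fun c => hP _
  have hval : ∀ c : A, 𝒪.valuation (algebraMap F L c) ≤ 1 := fun c =>
    (ValuationSubring.valuation_le_one_iff _ _).2 c.2
  have hdiv : ∀ x y : A, 𝒪.valuation (algebraMap F L x) ≤ 𝒪.valuation (algebraMap F L y) →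
      (y : F) ≠ 0 → ∃ c : A, x = y * c := by
    intro x y hxy hy
    refine ⟨⟨x / y, ?_⟩, ?_⟩
    · rw [mem_base, ← ValuationSubring.valuation_le_one_iff, map_div₀, map_div₀]
      exact div_le_one_of_le₀ hxy zero_le
    · apply Subtype.ext
      push_cast
      field_simp
  have hmax : 𝔪.IsMaximal := by
    rw [Ideal.isMaximal_iff]
    refine ⟨?_, ?_⟩
    · rw [h𝔪]
      simp
    · intro J x _ hx hxJ
      rw [h𝔪, not_lt] at hx
      have hx0 : (x : F) ≠ 0 := by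
        intro h
        rw [h, map_zero, map_zero] at hx
        exact absurd hx (by simp)
      obtain ⟨c, hc⟩ := hdiv 1 x (by simpa using hx) hx0
      rw [hc]
      exact J.mul_mem_right _ hxJ
  have hmaxof : ∀ 𝔮 : Ideal B, 𝔮.IsPrime → (∀ c ∈ 𝔪, algebraMap A B c ∈ 𝔮) → 𝔮.IsMaximal := by
    intro 𝔮 h𝔮 hle
    apply Ideal.isMaximal_of_isIntegral_of_isMaximal_comap (R := A) 𝔮
    have h1 : 𝔪 = 𝔮.comap (algebraMap A B) :=
      hmax.eq_of_le (Ideal.comap_ne_top _ h𝔮.ne_top) hle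
    rw [← h1]
    exact hmax
  have hPmax : P.IsMaximal := hmaxof P hPp fun c hc => hc
  -- the element g
  have : Fintype (MaximalSpectrum B) := Fintype.ofFinite _
  have hcop : Pairwise (Function.onFun IsCoprime fun n : MaximalSpectrum B => n.asIdeal) := by
    intro i j hij
    simp only [Function.onFun]
    rw [Ideal.isCoprime_iff_sup_eq]
    apply Ideal.IsMaximal.coprime_of_ne i.isMaximal j.isMaximal
    intro h
    exact hij (MaximalSpectrum.ext h)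
  obtain ⟨g, hg⟩ := Ideal.exists_forall_sub_mem_ideal hcop
    (fun n => if n.asIdeal = P then 1 else 0)
  have hg1 : g - 1 ∈ P := by simpa using hg ⟨P, hPmax⟩
  have hg0 : ∀ 𝔫 : Ideal B, 𝔫.IsMaximal → 𝔫 ≠ P → g ∈ 𝔫 := by
    intro 𝔫 h𝔫 hne
    simpa [hne] using hg ⟨𝔫, h𝔫⟩
  -- claim 1
  have hrad : g * (g - 1) ∈ (Ideal.map (algebraMap A B) 𝔪).radical := by
    rw [Ideal.radical_eq_sInf, Submodule.mem_sInf]
    rintro J ⟨hJ, hJp⟩
    have hJm : Ideal.IsMaximal J := hmaxof J hJp fun c hc => hJ (Ideal.mem_map_of_mem _ hc)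
    by_cases h : J = P
    · rw [h]
      exact P.mul_mem_left _ hg1
    · exact Ideal.mul_mem_right _ J (hg0 J hJm h)
  obtain ⟨M, hM⟩ := hrad
  have hmap : ∀ x ∈ Ideal.map (algebraMap A B) 𝔪, ∃ c ∈ 𝔪, ∃ y : B, x = algebraMap A B c * y := by
    intro x hx
    refine Submodule.span_induction (p := fun x _ => ∃ c ∈ 𝔪, ∃ y : B, x = algebraMap A B c * y)
      ?_ ?_ ?_ ?_ hx
    · rintro _ ⟨c, hc, rfl⟩
      exact ⟨c, hc, 1, by rw [mul_one]⟩
    · exact ⟨0, 𝔪.zero_mem, 0, by simp⟩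
    · rintro _ _ _ _ ⟨c, hc, y, rfl⟩ ⟨c', hc', y', rfl⟩
      by_cases h0 : (c : F) = 0
      · have : c = 0 := Subtype.ext h0
        exact ⟨c', hc', y', by rw [this, map_zero, zero_mul, zero_add]⟩
      by_cases h0' : (c' : F) = 0
      · have : c' = 0 := Subtype.ext h0'
        exact ⟨c, hc, y, by rw [this, map_zero, zero_mul, add_zero]⟩
      rcases le_total (𝒪.valuation (algebraMap F L c)) (𝒪.valuation (algebraMap F L c')) with h | h
      · obtain ⟨d, hd⟩ := hdiv c c' h h0'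
        refine ⟨c', hc', algebraMap A B d * y + y', ?_⟩
        rw [hd, map_mul]
        ring
      · obtain ⟨d, hd⟩ := hdiv c' c h h0
        refine ⟨c, hc, y + algebraMap A B d * y', ?_⟩
        rw [hd, map_mul]
        ring
    · rintro a _ _ ⟨c, hc, y, rfl⟩
      refine ⟨c, hc, a * y, ?_⟩
      rw [smul_eq_mul]
      ring
  obtain ⟨b, hb, f, hf⟩ := hmap _ (Ideal.mul_mem_left _ (g * (g - 1)) hM)
  -- claim 2
  have key : ∀ u ∈ U, ∃ k : ℕ, IsIntegral A ((g : L) ^ k * u) := by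
    intro u hu
    obtain ⟨y, hy, hyu, hy1⟩ := exists_unit_mul_vInt (F := F) 𝒪 (hU u hu)
      (Algebra.IsAlgebraic.isAlgebraic u)
    rw [vInt_iff] at hy hyu
    let I : Ideal B :=
      { carrier := {z | IsIntegral A ((z : L) * u)}
        add_mem' := by
          intro z z' hz hz'
          simp only [Set.mem_ofPred_eq] at hz hz' ⊢
          push_cast
          rw [add_mul]
          exact hz.add hz'
        zero_mem' := by
          simp only [Set.mem_ofPred_eq]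
          push_cast
          rw [zero_mul]
          exact isIntegral_zero
        smul_mem' := by
          intro c z hz
          simp only [Set.mem_ofPred_eq] at hz ⊢
          rw [smul_eq_mul]
          push_cast
          rw [mul_assoc]
          exact (c.2 : IsIntegral A (c : L)).mul hz }
    have hyI : (⟨y, hy⟩ : B) ∈ I := hyu
    by_contra hcon
    have hgr : g ∉ I.radical := by
      rintro ⟨k, hk⟩
      apply hcon
      refine ⟨k, ?_⟩
      have : ((g ^ k : B) : L) = (g : L) ^ k := by push_cast; rfl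
      rw [← this]
      exact hk
    rw [Ideal.radical_eq_sInf, Submodule.mem_sInf] at hgr
    push Not at hgr
    obtain ⟨𝔮, ⟨hI𝔮, h𝔮p⟩, hg𝔮⟩ := hgr
    have hy0 : (⟨y, hy⟩ : B) ≠ 0 := by
      intro h
      have h1 : y = 0 := congrArg Subtype.val h
      rw [h1, map_zero] at hy1
      exact zero_ne_one hy1
    have hne := Ideal.comap_ne_bot_of_integral_mem (R := A) hy0 hyI
      (Algebra.IsIntegral.isIntegral _)
    obtain ⟨a, haI, ha0⟩ := (Submodule.ne_bot_iff _).1 hne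
    have ha𝔮 : algebraMap A B a ∈ 𝔮 := hI𝔮 haI
    have ha0' : (a : F) ≠ 0 := fun h => ha0 (Subtype.ext h)
    have h𝔪𝔮 : ∀ c ∈ 𝔪, algebraMap A B c ∈ 𝔮 := by
      intro c hc
      obtain ⟨N, hN⟩ := harch a c ha0' ((h𝔪 c).1 hc)
      obtain ⟨d, hd⟩ := hdiv (c ^ N) a (by
        have h1 : 𝒪.valuation (algebraMap F L ((c ^ N : A) : F)) =
            𝒪.valuation (algebraMap F L (c : F)) ^ N := by
          rw [SubmonoidClass.coe_pow, map_pow, map_pow]
        rw [h1]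
        exact hN) ha0'
      apply h𝔮p.mem_of_pow_mem N
      rw [← map_pow, hd, map_mul]
      exact Ideal.mul_mem_right _ 𝔮 ha𝔮
    have h𝔮m := hmaxof 𝔮 h𝔮p h𝔪𝔮
    have h𝔮P : 𝔮 = P := by
      by_contra h
      exact hg𝔮 (hg0 𝔮 h𝔮m h)
    have h2 : (⟨y, hy⟩ : B) ∈ P := by
      rw [← h𝔮P]
      exact hI𝔮 hyI
    have h3 : 𝒪.valuation y < 1 := (hP _).1 h2
    rw [hy1] at h3
    exact lt_irrefl _ h3
  choose! K hK using key
  refine ⟨g, f, b, U.sup K, M + 1, Nat.succ_pos _, vInt_iff.2 g.2, ?_, vInt_iff.2 f.2,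
    (h𝔪 b).1 hb, ?_, ?_⟩
  · have := (hP _).1 hg1
    push_cast at this
    exact this
  · have h1 : ((g * (g - 1) * (g * (g - 1)) ^ M : B) : L) = ((algebraMap A B b * f : B) : L) :=
      congrArg (fun z : B => (z : L)) hf
    push_cast at h1
    rw [pow_succ, mul_comm]
    exact h1
  · intro u hu
    rw [vInt_iff]
    have h1 : K u ≤ U.sup K := Finset.le_sup hu
    obtain ⟨j, hj⟩ := Nat.exists_eq_add_of_le h1
    rw [hj, add_comm, pow_add, mul_assoc]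
    exact ((g.2 : IsIntegral A (g : L)).pow j).mul (hK u hu)

end Pool.Agent.Lib.MP_209724_lc.GC
end

section

/-!
Transcendence degrees.
-/

namespace Pool.Agent.Lib.MP_209724_lc.GC

open MvPolynomial Filter Topology Metric

theorem trdeg_facts {n d k : ℕ} (hdk : d + k = n) {L : Type} [Field L] [Algebra ℂ L]
    (ξ η : Fin n → L) (hgen : IntermediateField.adjoin ℂ (Set.range ξ ∪ Set.range η) = ⊤)
    (htr : Algebra.trdeg ℂ L = n)
    (htrK : Algebra.trdeg ℂ (IntermediateField.adjoin ℂ (Set.range ξ)) = d) (ζ : Fin d → L)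
    (hζK : ∀ j, ζ j ∈ IntermediateField.adjoin ℂ (Set.range ξ)) (hζ : AlgebraicIndependent ℂ ζ)
    (t : Fin k → L)
    (ht : AlgebraicIndependent (IntermediateField.adjoin ℂ (Set.range ξ)) t) :
    (∀ i, IsAlgebraic (Algebra.adjoin ℂ (Set.range ζ)) (ξ i)) ∧
      AlgebraicIndependent ℂ (Sum.elim t ζ) ∧
      (∀ x : L, IsAlgebraic (Algebra.adjoin ℂ (Set.range (Sum.elim t ζ))) x) ∧
      FiniteDimensional (IntermediateField.adjoin ℂ (Set.range (Sum.elim t ζ))) L := by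
  set K := IntermediateField.adjoin ℂ (Set.range ξ) with hK
  -- the transcendence basis of `K`
  set ζ' : Fin d → K := fun j => ⟨ζ j, hζK j⟩ with hζ'
  have hζ'ind : AlgebraicIndependent ℂ ζ' := by
    apply AlgebraicIndependent.of_comp K.val
    exact hζ
  have hbK : IsTranscendenceBasis ℂ ζ' := by
    apply AlgebraicIndependent.isTranscendenceBasis_of_trdeg_le_of_finite hζ'ind
    rw [htrK, Cardinal.mk_fintype, Fintype.card_fin]
  have halgK := hbK.isAlgebraic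
  have h1 : ∀ i, IsAlgebraic (Algebra.adjoin ℂ (Set.range ζ)) (ξ i) := by
    intro i
    have h2 : IsAlgebraic (Algebra.adjoin ℂ (Set.range ζ')) (⟨ξ i,
        IntermediateField.subset_adjoin _ _ ⟨i, rfl⟩⟩ : K) := halgK.isAlgebraic _
    have h3 : IsAlgebraic (Algebra.adjoin ℂ (Set.range ζ')) (ξ i) := h2.algebraMap
    have hmap : ∀ r ∈ Algebra.adjoin ℂ (Set.range ζ'), (r : L) ∈ Algebra.adjoin ℂ (Set.range ζ) := by
      intro r hr
      have e : (Algebra.adjoin ℂ (Set.range ζ')).map K.val = Algebra.adjoin ℂ (Set.range ζ) := by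
        rw [← Algebra.adjoin_image, ← Set.range_comp]
        rfl
      rw [← e]
      exact ⟨r, hr, rfl⟩
    let φ : Algebra.adjoin ℂ (Set.range ζ') →+* Algebra.adjoin ℂ (Set.range ζ) :=
      RingHom.codRestrict (K.val.toRingHom.comp (Algebra.adjoin ℂ (Set.range ζ')).val.toRingHom)
        (Algebra.adjoin ℂ (Set.range ζ)) (fun r => hmap r.1 r.2)
    refine MV.isAlgebraic_of_map φ (fun r => rfl) ?_ h3
    intro a b hab
    have h4 := congrArg (fun y : Algebra.adjoin ℂ (Set.range ζ) => (y : L)) hab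
    exact Subtype.ext (Subtype.ext h4)
  have hsub : Set.range ζ ⊆ Set.range (algebraMap K L) := by
    rintro _ ⟨j, rfl⟩
    exact ⟨⟨ζ j, hζK j⟩, rfl⟩
  have h2 : AlgebraicIndependent ℂ (Sum.elim t ζ) := hζ.sumElim_of_tower hsub ht
  have hb : IsTranscendenceBasis ℂ (Sum.elim t ζ) := by
    apply AlgebraicIndependent.isTranscendenceBasis_of_trdeg_le_of_finite h2
    rw [htr, Cardinal.mk_fintype, Fintype.card_sum, Fintype.card_fin, Fintype.card_fin]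
    exact_mod_cast (by omega : n ≤ k + d)
  have h3 : ∀ x : L, IsAlgebraic (Algebra.adjoin ℂ (Set.range (Sum.elim t ζ))) x :=
    fun x => hb.isAlgebraic.isAlgebraic x
  refine ⟨h1, h2, h3, ?_⟩
  set F := IntermediateField.adjoin ℂ (Set.range (Sum.elim t ζ)) with hF
  have h4 : ∀ x : L, IsAlgebraic F x := by
    intro x
    have hle : Algebra.adjoin ℂ (Set.range (Sum.elim t ζ)) ≤ F.toSubalgebra := by
      apply Algebra.adjoin_le
      exact IntermediateField.subset_adjoin _ _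
    exact MV.isAlgebraic_of_map (Subalgebra.inclusion hle).toRingHom (fun r => rfl)
      (Subalgebra.inclusion_injective hle) (h3 x)
  have hfin : Finite ↥(Set.range ξ ∪ Set.range η) :=
    Set.Finite.to_subtype ((Set.finite_range ξ).union (Set.finite_range η))
  have h5 : FiniteDimensional F (IntermediateField.adjoin F (Set.range ξ ∪ Set.range η)) :=
    IntermediateField.finiteDimensional_adjoin fun x _ => (h4 x).isIntegral
  have h6 : IntermediateField.adjoin F (Set.range ξ ∪ Set.range η) = ⊤ := by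
    rw [eq_top_iff]
    intro x _
    have h7 : x ∈ IntermediateField.adjoin ℂ (Set.range ξ ∪ Set.range η) := by
      rw [hgen]; trivial
    have h8 : IntermediateField.adjoin ℂ (Set.range ξ ∪ Set.range η) ≤
        (IntermediateField.adjoin F (Set.range ξ ∪ Set.range η)).restrictScalars ℂ := by
      rw [IntermediateField.adjoin_le_iff]
      intro y hy
      exact IntermediateField.subset_adjoin F _ hy
    exact h8 h7
  rw [h6] at h5
  exact (IntermediateField.topEquiv (F := F) (E := L)).toLinearEquiv.finiteDimensional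

end Pool.Agent.Lib.MP_209724_lc.GC
end

section

/-!
Bounds for integral elements.
-/

namespace Pool.Agent.Lib.MP_209724_lc.GC

open MvPolynomial Filter Topology Metric
open MV (lead)

private theorem bound_norm_le {τ : Type} [Fintype τ] {D : Set (τ → ℂ)} {R : ℝ}
    (hR : ∀ z ∈ D, ‖z‖ ≤ R) {z : τ → ℂ} (hz : z ∈ D) {r : ℝ} (hr : 0 ≤ r) :
    ‖fun j => (r : ℂ) * z j‖ ≤ R * r := by
  have h1 : (fun j => (r : ℂ) * z j) = (r : ℂ) • z := rfl
  rw [h1, norm_smul, Complex.norm_real, Real.norm_of_nonneg hr, mul_comm]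
  exact mul_le_mul_of_nonneg_right (hR z hz) hr

private theorem bound_prod_pos {k : ℕ} (r : ℝ) (ς : Fin k → ℂ) (μ : Fin k →₀ ℕ) :
    0 < ‖∏ j, Complex.exp (r * ς j) ^ μ j‖ := by
  rw [norm_pos_iff]
  exact Finset.prod_ne_zero_iff.2 fun j _ => pow_ne_zero _ (Complex.exp_ne_zero _)

theorem IntRel.exists_bound {τ L : Type} [Fintype τ] {k : ℕ} [Field L] [Algebra ℂ L]
    {ω : Fin k → ℝ} {ζ : τ → L} {t : Fin k → L} {f : L} (h : IntRel ω ζ t f)
    (A : Subalgebra ℂ L) (hζ : ∀ j, ζ j ∈ A) (ht : ∀ j, t j ∈ A) (hf : f ∈ A) :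
    ∃ c : MvPolynomial τ ℂ, c ≠ 0 ∧ ∃ ε : ℝ, 0 < ε ∧ ∀ D : Set (τ → ℂ), IsCompact D →
      (∀ z ∈ D, eval z c ≠ 0) → ∃ C : ℕ, ∀ᶠ r : ℝ in atTop, ∀ z ∈ D, ∀ ς : Fin k → ℂ,
        (∀ j, ‖ς j + ω j‖ ≤ ε) → ∀ ψ : A →ₐ[ℂ] ℂ, (∀ j, ψ ⟨ζ j, hζ j⟩ = r * z j) →
          (∀ j, ψ ⟨t j, ht j⟩ = Complex.exp (r * ς j)) → ‖ψ ⟨f, hf⟩‖ ≤ r ^ C := by
  obtain ⟨m, μ, e, a, he, ha, hrel⟩ := h
  -- the relation in `A`
  have hA : evM (fun j => (⟨ζ j, hζ j⟩ : A)) (fun j => (⟨t j, ht j⟩ : A)) e *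
      (⟨f, hf⟩ : A) ^ m +
      ∑ i ∈ Finset.range m, evM (fun j => (⟨ζ j, hζ j⟩ : A)) (fun j => (⟨t j, ht j⟩ : A)) (a i) *
        (⟨f, hf⟩ : A) ^ i = 0 := by
    have hinj : Function.Injective A.val := Subtype.val_injective
    apply hinj
    rw [map_zero, map_add, map_mul, map_pow, map_sum, map_evM]
    have h2 : ∀ i, A.val (evM (fun j => (⟨ζ j, hζ j⟩ : A)) (fun j => (⟨t j, ht j⟩ : A)) (a i) *
        (⟨f, hf⟩ : A) ^ i) = evM ζ t (a i) * f ^ i := by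
      intro i
      rw [map_mul, map_pow, map_evM]
      rfl
    simp only [h2]
    exact hrel
  obtain ⟨ε₁, hε₁, hlow⟩ := lower_bound ω e μ he
  choose εf hεf hup using fun i => upper_bound ω (a i) μ (ha i)
  -- the minimum of the epsilons
  obtain ⟨ε, hε, hε1, hεi⟩ : ∃ ε : ℝ, 0 < ε ∧ ε ≤ ε₁ ∧ ∀ i ∈ Finset.range m, ε ≤ εf i := by
    have hmin : ∀ s : Finset ℕ, ∃ ε : ℝ, 0 < ε ∧ ε ≤ ε₁ ∧ ∀ i ∈ s, ε ≤ εf i := by
      intro s
      induction s using Finset.induction_on with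
      | empty => exact ⟨ε₁, hε₁, le_rfl, by simp⟩
      | insert i s _ ih =>
        obtain ⟨ε, h1, h2, h3⟩ := ih
        refine ⟨min ε (εf i), lt_min h1 (hεf i), (min_le_left _ _).trans h2, ?_⟩
        intro i' hi'
        rw [Finset.mem_insert] at hi'
        rcases hi' with rfl | hi'
        · exact min_le_right _ _
        · exact (min_le_left _ _).trans (h3 i' hi')
    exact hmin _
  refine ⟨lead (e.coeff μ), MV.lead_ne_zero he.1, ε, hε, fun D hD hcD => ?_⟩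
  obtain ⟨c₀, hc₀, hlow'⟩ := hlow D hD hcD
  obtain ⟨R, hR⟩ := hD.isBounded.exists_norm_le
  choose Cf hCf using fun i => hup i R
  set C₀ := (Finset.range m).sup Cf with hC₀
  have hall : ∀ᶠ r : ℝ in atTop, ∀ i ∈ Finset.range m, ∀ x : τ → ℂ, ‖x‖ ≤ R * r →
      ∀ ς : Fin k → ℂ, (∀ j, ‖ς j + ω j‖ ≤ εf i) →
        ‖evM x (fun j => Complex.exp (r * ς j)) (a i)‖ ≤
          r ^ Cf i * ‖∏ j, Complex.exp (r * ς j) ^ μ j‖ := by
    rw [Filter.eventually_all_finset]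
    exact fun i _ => hCf i
  refine ⟨C₀ + 1, ?_⟩
  filter_upwards [hlow', hall, eventually_ge_atTop (max 1 ((m : ℝ) / c₀))] with r hr1 hr2 hr3
    z hz ς hς ψ hψζ hψt
  have hrpos : (1 : ℝ) ≤ r := (le_max_left _ _).trans hr3
  have hrm : (m : ℝ) / c₀ ≤ r := (le_max_right _ _).trans hr3
  set y := ψ ⟨f, hf⟩ with hy
  set T := ‖∏ j, Complex.exp (r * ς j) ^ μ j‖ with hT
  have hTpos : 0 < T := bound_prod_pos r ς μ
  have hrelψ : evM (fun j => (r : ℂ) * z j) (fun j => Complex.exp (r * ς j)) e * y ^ m +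
      ∑ i ∈ Finset.range m, evM (fun j => (r : ℂ) * z j) (fun j => Complex.exp (r * ς j)) (a i) *
        y ^ i = 0 := by
    have h1 := congrArg ψ hA
    rw [map_zero, map_add, map_mul, map_pow, map_sum, map_evM] at h1
    have h3 : ∀ i, ψ (evM (fun j => (⟨ζ j, hζ j⟩ : A)) (fun j => (⟨t j, ht j⟩ : A)) (a i) *
        (⟨f, hf⟩ : A) ^ i) =
        evM (fun j => (r : ℂ) * z j) (fun j => Complex.exp (r * ς j)) (a i) * y ^ i := by
      intro i
      rw [map_mul, map_pow, map_evM]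
      simp only [hψζ, hψt]
      rfl
    simp only [h3] at h1
    simp only [hψζ, hψt] at h1
    exact h1
  have hx := bound_norm_le hR hz (show (0 : ℝ) ≤ r by linarith)
  rcases le_or_gt ‖y‖ 1 with hz1 | hz1
  · exact hz1.trans (one_le_pow₀ hrpos)
  · have hlow2 := hr1 z hz ς (fun j => (hς j).trans hε1)
    rcases Nat.eq_zero_or_pos m with hm | hm
    · subst hm
      simp only [pow_zero, mul_one, Finset.range_zero, Finset.sum_empty, add_zero] at hrelψ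
      rw [hrelψ, norm_zero] at hlow2
      exact absurd hlow2 (not_le.mpr (mul_pos hc₀ hTpos))
    · have h1 : ‖evM (fun j => (r : ℂ) * z j) (fun j => Complex.exp (r * ς j)) e * y ^ m‖ ≤
          ∑ i ∈ Finset.range m, (r ^ C₀ * T) * ‖y‖ ^ (m - 1) := by
        have h2 : evM (fun j => (r : ℂ) * z j) (fun j => Complex.exp (r * ς j)) e * y ^ m =
            -∑ i ∈ Finset.range m,
              evM (fun j => (r : ℂ) * z j) (fun j => Complex.exp (r * ς j)) (a i) * y ^ i :=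
          eq_neg_of_add_eq_zero_left hrelψ
        rw [h2, norm_neg]
        refine (norm_sum_le _ _).trans (Finset.sum_le_sum fun i hi => ?_)
        rw [norm_mul, norm_pow]
        have h3 := hr2 i hi _ hx ς (fun j => (hς j).trans (hεi i hi))
        have h4 : r ^ Cf i ≤ r ^ C₀ :=
          pow_le_pow_right₀ hrpos (Finset.le_sup (f := Cf) hi)
        have h5 : ‖y‖ ^ i ≤ ‖y‖ ^ (m - 1) :=
          pow_le_pow_right₀ hz1.le (by have := Finset.mem_range.mp hi; omega)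
        exact mul_le_mul (h3.trans (mul_le_mul_of_nonneg_right h4 hTpos.le)) h5 (by positivity)
          (by positivity)
      rw [Finset.sum_const, Finset.card_range, nsmul_eq_mul, norm_mul, norm_pow] at h1
      have h6 : (c₀ * T) * ‖y‖ ^ m ≤ (m : ℝ) * ((r ^ C₀ * T) * ‖y‖ ^ (m - 1)) :=
        (mul_le_mul_of_nonneg_right hlow2 (by positivity)).trans h1
      have h7 : ‖y‖ ^ m = ‖y‖ * ‖y‖ ^ (m - 1) := by
        rw [← pow_succ']
        congr 1
        omega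
      rw [h7] at h6
      have h8 : 0 < T * ‖y‖ ^ (m - 1) := by positivity
      have h9 : c₀ * ‖y‖ ≤ (m : ℝ) * r ^ C₀ := by
        have h10 : (c₀ * ‖y‖) * (T * ‖y‖ ^ (m - 1)) ≤ ((m : ℝ) * r ^ C₀) * (T * ‖y‖ ^ (m - 1)) := by
          calc (c₀ * ‖y‖) * (T * ‖y‖ ^ (m - 1)) = (c₀ * T) * (‖y‖ * ‖y‖ ^ (m - 1)) := by ring
            _ ≤ _ := h6
            _ = _ := by ring
        exact le_of_mul_le_mul_right h10 h8
      have h11 : (m : ℝ) ≤ r * c₀ := by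
        rwa [div_le_iff₀ hc₀] at hrm
      have h12 : c₀ * ‖y‖ ≤ c₀ * r ^ (C₀ + 1) := by
        calc c₀ * ‖y‖ ≤ (m : ℝ) * r ^ C₀ := h9
          _ ≤ (r * c₀) * r ^ C₀ := mul_le_mul_of_nonneg_right h11 (by positivity)
          _ = _ := by ring
      exact le_of_mul_le_mul_left h12 hc₀

theorem SmallRel.exists_bound {τ L : Type} [Fintype τ] {k : ℕ} [Field L] [Algebra ℂ L]
    {ω : Fin k → ℝ} {ζ : τ → L} {t : Fin k → L} {f : L} (h : SmallRel ω ζ t f)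
    (A : Subalgebra ℂ L) (hζ : ∀ j, ζ j ∈ A) (ht : ∀ j, t j ∈ A) (hf : f ∈ A) :
    ∃ c : MvPolynomial τ ℂ, c ≠ 0 ∧ ∃ ε : ℝ, 0 < ε ∧ ∃ δ : ℝ, 0 < δ ∧
      ∀ D : Set (τ → ℂ), IsCompact D → (∀ z ∈ D, eval z c ≠ 0) →
      ∀ᶠ r : ℝ in atTop, ∀ z ∈ D, ∀ ς : Fin k → ℂ, (∀ j, ‖ς j + ω j‖ ≤ ε) →
        ∀ ψ : A →ₐ[ℂ] ℂ, (∀ j, ψ ⟨ζ j, hζ j⟩ = r * z j) →
          (∀ j, ψ ⟨t j, ht j⟩ = Complex.exp (r * ς j)) →
          ‖ψ ⟨f, hf⟩‖ ≤ Real.exp (-(δ * r)) := by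
  obtain ⟨μ, e, a, he, ha, hrel⟩ := h
  have hA : evM (fun j => (⟨ζ j, hζ j⟩ : A)) (fun j => (⟨t j, ht j⟩ : A)) e * (⟨f, hf⟩ : A) =
      evM (fun j => (⟨ζ j, hζ j⟩ : A)) (fun j => (⟨t j, ht j⟩ : A)) a := by
    have hinj : Function.Injective A.val := Subtype.val_injective
    apply hinj
    rw [map_mul, map_evM, map_evM]
    exact hrel
  obtain ⟨ε₁, hε₁, hlow⟩ := lower_bound ω e μ he
  obtain ⟨ε₂, hε₂, δ, hδ, hsmall⟩ := small_bound ω a μ ha
  refine ⟨lead (e.coeff μ), MV.lead_ne_zero he.1, min ε₁ ε₂, lt_min hε₁ hε₂, δ / 2, by linarith,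
    fun D hD hcD => ?_⟩
  obtain ⟨c₀, hc₀, hlow'⟩ := hlow D hD hcD
  obtain ⟨R, hR⟩ := hD.isBounded.exists_norm_le
  filter_upwards [hlow', hsmall R, eventually_ge_atTop (0 : ℝ),
    eventually_ge_atTop (2 / δ * Real.log (1 / c₀))] with r hr1 hr2 hr0 hr3 z hz ς hς ψ hψζ hψt
  set y := ψ ⟨f, hf⟩ with hy
  set T := ‖∏ j, Complex.exp (r * ς j) ^ μ j‖ with hT
  have hTpos : 0 < T := bound_prod_pos r ς μ
  have hx := bound_norm_le hR hz hr0
  have h1 := congrArg ψ hA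
  rw [map_mul, map_evM, map_evM] at h1
  simp only [hψζ, hψt] at h1
  have h2 := hr1 z hz ς (fun j => (hς j).trans (min_le_left _ _))
  have h3 := hr2 _ hx ς (fun j => (hς j).trans (min_le_right _ _))
  rw [← h1, norm_mul] at h3
  have h4 : (c₀ * T) * ‖y‖ ≤ Real.exp (-(δ * r)) * T :=
    (mul_le_mul_of_nonneg_right h2 (norm_nonneg _)).trans h3
  have h5 : c₀ * ‖y‖ ≤ Real.exp (-(δ * r)) := by
    have h6 : (c₀ * ‖y‖) * T ≤ Real.exp (-(δ * r)) * T := by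
      calc (c₀ * ‖y‖) * T = (c₀ * T) * ‖y‖ := by ring
        _ ≤ _ := h4
    exact le_of_mul_le_mul_right h6 hTpos
  have h7 : ‖y‖ ≤ (1 / c₀) * Real.exp (-(δ * r)) := by
    rw [one_div, ← div_eq_inv_mul, le_div_iff₀ hc₀, mul_comm]
    exact h5
  have h8 : 1 / c₀ ≤ Real.exp (δ / 2 * r) := by
    have h9 : Real.log (1 / c₀) ≤ δ / 2 * r := by
      have h10 : δ / 2 * (2 / δ * Real.log (1 / c₀)) ≤ δ / 2 * r :=
        mul_le_mul_of_nonneg_left hr3 (by linarith)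
      have h11 : δ / 2 * (2 / δ * Real.log (1 / c₀)) = Real.log (1 / c₀) := by
        field_simp
      rwa [h11] at h10
    calc 1 / c₀ = Real.exp (Real.log (1 / c₀)) := (Real.exp_log (by positivity)).symm
      _ ≤ _ := Real.exp_le_exp.2 h9
  refine h7.trans ?_
  calc (1 / c₀) * Real.exp (-(δ * r)) ≤ Real.exp (δ / 2 * r) * Real.exp (-(δ * r)) :=
        mul_le_mul_of_nonneg_right h8 (Real.exp_pos _).le
    _ = Real.exp (-(δ / 2 * r)) := by
        rw [← Real.exp_add]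
        congr 1
        ring

end Pool.Agent.Lib.MP_209724_lc.GC
end

section

/-!
Solving the exponential equations near a nondegenerate zero of the limit system.
-/

namespace Pool.Agent.Lib.MP_209724_lc.GC

open MvPolynomial Filter Topology Metric Set
open MV (exists_log hurwitz_multi)

private lemma gsol_adjust (z : ℂ) :
    ∃ c : ℤ, |(z + c * (2 * Real.pi * Complex.I)).im| ≤ Real.pi := by
  refine ⟨-round (z.im / (2 * Real.pi)), ?_⟩
  have h1 := abs_sub_round (z.im / (2 * Real.pi))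
  have hpi := Real.pi_pos
  have h2 : (z + ((-round (z.im / (2 * Real.pi)) : ℤ) : ℂ) * (2 * Real.pi * Complex.I)).im =
      (2 * Real.pi) * (z.im / (2 * Real.pi) - round (z.im / (2 * Real.pi))) := by
    have h3 : (((-round (z.im / (2 * Real.pi)) : ℤ) : ℂ) * (2 * Real.pi * Complex.I)).im =
        -(round (z.im / (2 * Real.pi)) : ℝ) * (2 * Real.pi) := by
      have : ((-round (z.im / (2 * Real.pi)) : ℤ) : ℂ) * (2 * Real.pi * Complex.I) =
          ((-(round (z.im / (2 * Real.pi)) : ℝ) * (2 * Real.pi) : ℝ) : ℂ) * Complex.I := by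
        push_cast
        ring
      rw [this, Complex.im_ofReal_mul, Complex.I_im, mul_one]
    rw [Complex.add_im, h3]
    field_simp
    ring
  rw [h2, abs_mul, abs_of_pos (by positivity)]
  nlinarith

private lemma gsol_log {P : Type} [NormedAddCommGroup P] [NormedSpace ℂ P] {p₀ : P} {ρ : ℝ}
    {f : P → ℂ} (hf : DifferentiableOn ℂ f (ball p₀ ρ))
    (hf0 : ∀ p ∈ ball p₀ ρ, f p ≠ 0) :
    ∃ L : P → ℂ, DifferentiableOn ℂ L (ball p₀ ρ) ∧ (∀ p ∈ ball p₀ ρ, Complex.exp (L p) = f p) ∧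
      |(L p₀).im| ≤ Real.pi := by
  obtain ⟨g, hg1, hg2⟩ := exists_log isOpen_ball (convex_ball p₀ ρ) hf hf0
  obtain ⟨c, hc⟩ := gsol_adjust (g p₀)
  refine ⟨fun p => g p + c * (2 * Real.pi * Complex.I), hg1.add_const _, ?_, ?_⟩
  · intro p hp
    rw [Complex.exp_add, Complex.exp_int_mul_two_pi_mul_I, mul_one, hg2 p hp]
  · exact hc

private lemma gsol_small {E : Type} [NormedAddCommGroup E] [NormedSpace ℂ E] {p₀ : E} {ρ : ℝ}
    (hρ : 0 < ρ) (r : ℕ → ℝ) (hr : Tendsto r atTop atTop) (Λ : ℕ → E → ℂ)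
    (hd : ∀ᶠ N : ℕ in atTop, DifferentiableOn ℂ (Λ N) (ball p₀ ρ))
    (hre : ∀ ε : ℝ, 0 < ε → ∀ᶠ N : ℕ in atTop, ∀ p ∈ ball p₀ ρ, |(Λ N p).re| ≤ ε * r N)
    (him : ∃ C : ℝ, ∀ᶠ N : ℕ in atTop, |(Λ N p₀).im| ≤ C) :
    ∀ ε : ℝ, 0 < ε → ∀ᶠ N : ℕ in atTop, ∀ p ∈ ball p₀ (ρ / 2), ‖Λ N p‖ ≤ ε * r N := by
  intro ε hε
  obtain ⟨C, hC⟩ := him
  have hε6 : 0 < ε / 6 := by positivity
  have hN : ∀ᶠ N : ℕ in atTop, C ≤ ε / 6 * r N := by
    have : Tendsto (fun N : ℕ => ε / 6 * r N) atTop atTop := hr.const_mul_atTop hε6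
    exact this.eventually_ge_atTop C
  filter_upwards [hd, hre (ε / 6) hε6, hC, hN, hr.eventually_gt_atTop 0] with N h1 h2 h3 h4 hNpos
  intro p hp
  set F : ℂ → ℂ := fun z => Λ N (p₀ + z • (p - p₀)) - Λ N p₀ with hF
  have hp' : ‖p - p₀‖ < ρ / 2 := by rwa [mem_ball, dist_eq_norm] at hp
  have hmap : ∀ z ∈ ball (0 : ℂ) 2, p₀ + z • (p - p₀) ∈ ball p₀ ρ := by
    intro z hz
    rw [mem_ball_zero_iff] at hz
    rw [mem_ball, dist_eq_norm, add_sub_cancel_left, norm_smul]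
    have := norm_nonneg (p - p₀)
    have := norm_nonneg z
    nlinarith
  have hp₀ : p₀ ∈ ball p₀ ρ := mem_ball_self hρ
  have h6 := Complex.borelCaratheodory_zero (f := F) (M := 2 * (ε / 6) * r N) (R := 2) (z := 1)
    (by positivity) (by
      apply DifferentiableOn.sub_const
      apply h1.comp
      · fun_prop
      · exact hmap) (by
      intro z hz
      simp only [Set.mem_ofPred_eq, hF, Complex.sub_re]
      have h7 := abs_le.1 (h2 _ (hmap z hz))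
      have h8 := abs_le.1 (h2 _ hp₀)
      linarith [h7.2, h8.1]) (by norm_num) (by simp) (by simp [hF])
  have h9 : F 1 = Λ N p - Λ N p₀ := by simp [hF]
  rw [h9] at h6
  simp only [norm_one, mul_one] at h6
  have h10 : ‖Λ N p₀‖ ≤ |(Λ N p₀).re| + |(Λ N p₀).im| := Complex.norm_le_abs_re_add_abs_im _
  have h11 := h2 _ hp₀
  have h12 : ‖Λ N p‖ ≤ ‖Λ N p - Λ N p₀‖ + ‖Λ N p₀‖ := by
    have := norm_add_le (Λ N p - Λ N p₀) (Λ N p₀)
    rwa [sub_add_cancel] at this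
  have h13 : 2 * (2 * (ε / 6) * r N) * 1 / (2 - 1) = 4 * (ε / 6 * r N) := by ring
  nlinarith

private lemma gsol_log_le (r : ℕ → ℝ) (hr : Tendsto r atTop atTop) (C : ℕ) (ε : ℝ) (hε : 0 < ε) :
    ∀ᶠ N : ℕ in atTop, C * Real.log (r N) ≤ ε * r N := by
  have h1 := (Real.isLittleO_log_id_atTop.comp_tendsto hr).def
    (show (0 : ℝ) < ε / (C + 1) by positivity)
  filter_upwards [h1, hr.eventually_ge_atTop 1] with N hN hN1
  have hlog : 0 ≤ Real.log (r N) := Real.log_nonneg hN1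
  simp only [Function.comp_apply, id_eq, Real.norm_eq_abs, abs_of_nonneg hlog,
    abs_of_nonneg (show (0 : ℝ) ≤ r N by linarith)] at hN
  calc C * Real.log (r N) ≤ (C + 1) * Real.log (r N) := by nlinarith
    _ ≤ (C + 1) * (ε / (C + 1) * r N) := mul_le_mul_of_nonneg_left hN (by positivity)
    _ = ε * r N := by field_simp

theorem exists_solution {n d k : ℕ} (hdk : d + k = n) (a : Fin n → Fin k → ℤ) (κ : Fin n → ℝ)
    (z₀ : Fin d → ℂ) (ς₀ : Fin k → ℂ) (H : (Fin d → ℂ) → Fin n → ℂ)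
    (hHκ : ∀ i, H z₀ i = 2 * Real.pi * Complex.I * κ i + ∑ j, (a i j : ℂ) * ς₀ j) {ρ : ℝ}
    (hρ : 0 < ρ) (hHd : ContDiffOn ℂ 1 H (ball z₀ ρ))
    (htrans : ∀ (v : Fin d → ℂ) (β : Fin k → ℂ),
      (∀ i, fderiv ℂ H z₀ v i = ∑ j, (a i j : ℂ) * β j) → v = 0 ∧ β = 0)
    (r : ℕ → ℝ) (hr : Tendsto r atTop atTop)
    (X U : ℕ → Fin n → (Fin d → ℂ) × (Fin k → ℂ) → ℂ)
    (hX : ∀ᶠ N : ℕ in atTop, ∀ i, DifferentiableOn ℂ (X N i) (ball (z₀, ς₀) ρ))
    (hU : ∀ᶠ N : ℕ in atTop, ∀ i, DifferentiableOn ℂ (U N i) (ball (z₀, ς₀) ρ))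
    (hXlim : ∀ ε : ℝ, 0 < ε → ∀ᶠ N : ℕ in atTop, ∀ i, ∀ p ∈ ball (z₀, ς₀) ρ,
      ‖X N i p - H p.1 i‖ ≤ ε)
    (hbd : ∃ C : ℕ, ∀ᶠ N : ℕ in atTop, ∀ i, ∀ p ∈ ball (z₀, ς₀) ρ,
      U N i p ≠ 0 ∧ ‖U N i p‖ ≤ r N ^ C ∧ ‖(U N i p)⁻¹‖ ≤ r N ^ C) :
    ∀ᶠ N : ℕ in atTop, ∃ p ∈ ball (z₀, ς₀) ρ, ∀ i,
      U N i p * Complex.exp (r N * ∑ j, (a i j : ℂ) * p.2 j) = Complex.exp (r N * X N i p) := by
  classical
  obtain ⟨C, hbd⟩ := hbd
  -- the logarithms
  have hexL : ∀ (N : ℕ) (i : Fin n), ∃ L : (Fin d → ℂ) × (Fin k → ℂ) → ℂ,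
      DifferentiableOn ℂ (U N i) (ball (z₀, ς₀) ρ) → (∀ p ∈ ball (z₀, ς₀) ρ, U N i p ≠ 0) →
      DifferentiableOn ℂ L (ball (z₀, ς₀) ρ) ∧
        (∀ p ∈ ball (z₀, ς₀) ρ, Complex.exp (L p) = U N i p) ∧
      |(L (z₀, ς₀)).im| ≤ Real.pi := by
    intro N i
    by_cases h1 : DifferentiableOn ℂ (U N i) (ball (z₀, ς₀) ρ) ∧
        ∀ p ∈ ball (z₀, ς₀) ρ, U N i p ≠ 0
    · obtain ⟨L, hL⟩ := gsol_log h1.1 h1.2
      exact ⟨L, fun _ _ => hL⟩
    · exact ⟨0, fun h2 h3 => absurd ⟨h2, h3⟩ h1⟩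
  choose L hL using hexL
  have hLd : ∀ᶠ N : ℕ in atTop, ∀ i, DifferentiableOn ℂ (L N i) (ball (z₀, ς₀) ρ) := by
    filter_upwards [hU, hbd] with N h1 h2 i
    exact (hL N i (h1 i) (fun p hp => (h2 i p hp).1)).1
  have hre : ∀ i, ∀ ε : ℝ, 0 < ε → ∀ᶠ N : ℕ in atTop, ∀ p ∈ ball (z₀, ς₀) ρ,
      |(L N i p).re| ≤ ε * r N := by
    intro i ε hε
    filter_upwards [hU, hbd, gsol_log_le r hr C ε hε, hr.eventually_ge_atTop 1]
      with N h1 h2 h3 hN1 p hp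
    have hexpL := (hL N i (h1 i) (fun p hp => (h2 i p hp).1)).2.1 p hp
    have h5 := (h2 i p hp).2.1
    have h6 := (h2 i p hp).2.2
    rw [← hexpL, Complex.norm_exp] at h5
    rw [← hexpL, ← Complex.exp_neg, Complex.norm_exp, Complex.neg_re] at h6
    have h7 : (L N i p).re ≤ C * Real.log (r N) := by
      rw [← Real.log_pow, ← Real.log_exp ((L N i p).re)]
      exact Real.log_le_log (Real.exp_pos _) h5
    have h8 : -(L N i p).re ≤ C * Real.log (r N) := by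
      rw [← Real.log_pow, ← Real.log_exp (-(L N i p).re)]
      exact Real.log_le_log (Real.exp_pos _) h6
    rw [abs_le]
    constructor <;> linarith
  have hsmall : ∀ i, ∀ ε : ℝ, 0 < ε → ∀ᶠ N : ℕ in atTop, ∀ p ∈ ball (z₀, ς₀) (ρ / 2),
      ‖L N i p‖ ≤ ε * r N := by
    intro i
    apply gsol_small hρ r hr (fun N => L N i)
    · filter_upwards [hLd] with N h1
      exact h1 i
    · exact hre i
    · refine ⟨Real.pi, ?_⟩
      filter_upwards [hU, hbd] with N h1 h2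
      exact (hL N i (h1 i) (fun p hp => (h2 i p hp).1)).2.2
  -- the linear part
  set ℓ : Fin n → ((Fin d → ℂ) × (Fin k → ℂ) →L[ℂ] ℂ) := fun i =>
    (∑ j, (a i j : ℂ) • ContinuousLinearMap.proj (R := ℂ) (φ := fun _ : Fin k => ℂ) j).comp
      (ContinuousLinearMap.snd ℂ (Fin d → ℂ) (Fin k → ℂ)) with hℓ
  have hℓa : ∀ i p, ℓ i p = ∑ j, (a i j : ℂ) * p.2 j := by
    intro i p
    simp [hℓ]
  -- the limit system
  set f : (Fin d → ℂ) × (Fin k → ℂ) → (Fin n → ℂ) := fun p i =>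
    H p.1 i - ℓ i p - 2 * Real.pi * Complex.I * κ i with hf
  set G : ℕ → (Fin d → ℂ) × (Fin k → ℂ) → (Fin n → ℂ) := fun N p i =>
    X N i p - 1 / (r N : ℂ) * L N i p - ℓ i p -
      2 * Real.pi * Complex.I * ((⌊r N * κ i⌋ : ℤ) / (r N : ℂ)) with hG
  have hf0 : f (z₀, ς₀) = 0 := by
    ext i
    simp only [hf, Pi.zero_apply, hℓa, hHκ i]
    ring
  -- its derivative
  have hHs : HasStrictFDerivAt H (fderiv ℂ H z₀) z₀ :=
    (hHd.contDiffAt (ball_mem_nhds z₀ hρ)).hasStrictFDerivAt (by simp)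
  set f' : (Fin d → ℂ) × (Fin k → ℂ) →L[ℂ] (Fin n → ℂ) :=
    ContinuousLinearMap.pi fun i =>
      ((ContinuousLinearMap.proj (R := ℂ) (φ := fun _ : Fin n => ℂ) i).comp
        (fderiv ℂ H z₀)).comp (ContinuousLinearMap.fst ℂ _ _) - ℓ i with hf'
  have hfs : HasStrictFDerivAt f f' (z₀, ς₀) := by
    rw [hasStrictFDerivAt_pi']
    intro i
    have h1 : HasStrictFDerivAt (fun p : (Fin d → ℂ) × (Fin k → ℂ) => H p.1 i)
        (((ContinuousLinearMap.proj (R := ℂ) (φ := fun _ : Fin n => ℂ) i).comp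
          (fderiv ℂ H z₀)).comp (ContinuousLinearMap.fst ℂ _ _)) (z₀, ς₀) := by
      have h2 : HasStrictFDerivAt (fun z => H z i)
          ((ContinuousLinearMap.proj (R := ℂ) (φ := fun _ : Fin n => ℂ) i).comp
            (fderiv ℂ H z₀)) z₀ := (hasStrictFDerivAt_pi'.1 hHs) i
      exact HasStrictFDerivAt.comp (g := fun z => H z i) (z₀, ς₀) h2 hasStrictFDerivAt_fst
    exact (h1.sub (ℓ i).hasStrictFDerivAt).sub_const (2 * Real.pi * Complex.I * κ i)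
  have hf'a : ∀ z i, f' z i = fderiv ℂ H z₀ z.1 i - ∑ j, (a i j : ℂ) * z.2 j := by
    intro z i
    rw [← hℓa]
    rfl
  have hinj : Function.Injective f' := by
    rw [injective_iff_map_eq_zero]
    intro z hz
    have h1 := htrans z.1 z.2 (fun i => by
      have h2 := congrFun hz i
      rw [hf'a, Pi.zero_apply] at h2
      exact sub_eq_zero.1 h2)
    exact Prod.ext h1.1 h1.2
  have hsurj : Function.Surjective f' := by
    have hfr : Module.finrank ℂ ((Fin d → ℂ) × (Fin k → ℂ)) = Module.finrank ℂ (Fin n → ℂ) := by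
      rw [Module.finrank_prod, Module.finrank_fin_fun, Module.finrank_fin_fun,
        Module.finrank_fin_fun, hdk]
    exact (LinearMap.injective_iff_surjective_of_finrank_eq_finrank
      (f := (f' : (Fin d → ℂ) × (Fin k → ℂ) →ₗ[ℂ] (Fin n → ℂ))) hfr).1 hinj
  let e : ((Fin d → ℂ) × (Fin k → ℂ)) ≃L[ℂ] (Fin n → ℂ) :=
    ContinuousLinearEquiv.ofBijective f' (LinearMap.ker_eq_bot.2 hinj)
      (LinearMap.range_eq_top.2 hsurj)
  have he : (e : (Fin d → ℂ) × (Fin k → ℂ) →L[ℂ] (Fin n → ℂ)) = f' :=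
    ContinuousLinearEquiv.coe_ofBijective _ _ _
  have hfe : HasStrictFDerivAt f (e : (Fin d → ℂ) × (Fin k → ℂ) →L[ℂ] (Fin n → ℂ)) (z₀, ς₀) := by
    rw [he]; exact hfs
  have hball : ball (z₀, ς₀) (ρ / 2) ⊆ ball (z₀, ς₀) ρ := ball_subset_ball (by linarith)
  have hfst : MapsTo Prod.fst (ball (z₀, ς₀) ρ) (ball z₀ ρ) := by
    intro p hp
    rw [mem_ball] at hp ⊢
    exact lt_of_le_of_lt (by rw [Prod.dist_eq]; exact le_max_left _ _) hp
  have hfd : DifferentiableOn ℂ f (ball (z₀, ς₀) (ρ / 2)) := by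
    have h1 : DifferentiableOn ℂ (fun p : (Fin d → ℂ) × (Fin k → ℂ) => H p.1)
        (ball (z₀, ς₀) ρ) :=
      (hHd.differentiableOn (by simp)).comp differentiable_fst.differentiableOn hfst
    have h2 := h1.mono hball
    rw [differentiableOn_pi] at h2 ⊢
    intro i
    exact ((h2 i).sub (ℓ i).differentiable.differentiableOn).sub_const _
  have hGd : ∀ᶠ N : ℕ in atTop, DifferentiableOn ℂ (G N) (ball (z₀, ς₀) (ρ / 2)) := by
    filter_upwards [hX, hLd] with N h1 h4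
    rw [differentiableOn_pi]
    intro i
    exact ((((h1 i).mono hball).sub (((h4 i).mono hball).const_mul (1 / (r N : ℂ)))).sub
      (ℓ i).differentiable.differentiableOn).sub_const _
  have hlim : ∀ ε : ℝ, 0 < ε → ∀ᶠ N : ℕ in atTop, ∀ p ∈ ball (z₀, ς₀) (ρ / 2),
      ‖G N p - f p‖ ≤ ε := by
    intro ε hε
    have hNlarge : ∀ᶠ N : ℕ in atTop, 2 * Real.pi / (ε / 3) ≤ r N :=
      hr.eventually_ge_atTop _
    filter_upwards [hXlim (ε / 3) (by positivity),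
      eventually_all.2 fun i => hsmall i (ε / 3) (by positivity), hNlarge,
      hr.eventually_ge_atTop 1] with N h1 h2 h3 hN1 p hp
    have hNpos : (0 : ℝ) < r N := by linarith
    have hN0 : (r N : ℂ) ≠ 0 := by exact_mod_cast hNpos.ne'
    rw [pi_norm_le_iff_of_nonneg hε.le]
    intro i
    have e1 : (G N p - f p) i = (X N i p - H p.1 i) -
        1 / (r N : ℂ) * L N i p +
        2 * Real.pi * Complex.I * (((κ i - (⌊r N * κ i⌋ : ℤ) / r N : ℝ)) : ℂ) := by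
      simp only [hf, hG, Pi.sub_apply]
      push_cast
      ring
    have e2 : ‖X N i p - H p.1 i‖ ≤ ε / 3 := h1 i p (hball hp)
    have e3 : ‖1 / (r N : ℂ) * L N i p‖ ≤ ε / 3 := by
      rw [norm_mul, norm_div, norm_one, Complex.norm_real, Real.norm_eq_abs, abs_of_pos hNpos,
        one_div, inv_mul_le_iff₀ hNpos]
      calc ‖L N i p‖ ≤ ε / 3 * r N := h2 i p hp
        _ = r N * (ε / 3) := mul_comm _ _
    have e4 : ‖2 * Real.pi * Complex.I *
        (((κ i - (⌊r N * κ i⌋ : ℤ) / r N : ℝ)) : ℂ)‖ ≤ ε / 3 := by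
      rw [norm_mul, norm_mul, norm_mul, Complex.norm_I, Complex.norm_ofNat, Complex.norm_real,
        Complex.norm_real, Real.norm_eq_abs, Real.norm_eq_abs, abs_of_pos Real.pi_pos, mul_one]
      have h5 : |κ i - (⌊r N * κ i⌋ : ℤ) / r N| ≤ 1 / r N := by
        have h6 := Int.floor_le (r N * κ i)
        have h7 := Int.lt_floor_add_one (r N * κ i)
        have h8 : κ i - (⌊r N * κ i⌋ : ℤ) / r N =
            (r N * κ i - (⌊r N * κ i⌋ : ℤ)) / r N := by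
          field_simp
        rw [h8, abs_of_nonneg (div_nonneg (by linarith) hNpos.le)]
        apply div_le_div_of_nonneg_right _ hNpos.le
        linarith
      calc 2 * Real.pi * |κ i - (⌊r N * κ i⌋ : ℤ) / r N| ≤ 2 * Real.pi * (1 / r N) :=
            mul_le_mul_of_nonneg_left h5 (by positivity)
        _ = 2 * Real.pi / r N := by ring
        _ ≤ ε / 3 := by
          rw [div_le_iff₀ (by positivity)] at h3
          rw [div_le_iff₀ hNpos]
          linarith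
    rw [e1]
    calc _ ≤ ‖(X N i p - H p.1 i) - 1 / (r N : ℂ) * L N i p‖ +
          ‖2 * Real.pi * Complex.I *
            (((κ i - (⌊r N * κ i⌋ : ℤ) / r N : ℝ)) : ℂ)‖ := norm_add_le _ _
      _ ≤ (‖X N i p - H p.1 i‖ + ‖1 / (r N : ℂ) * L N i p‖) +
          ‖2 * Real.pi * Complex.I *
            (((κ i - (⌊r N * κ i⌋ : ℤ) / r N : ℝ)) : ℂ)‖ := by
        gcongr
        exact norm_sub_le _ _
      _ ≤ (ε / 3 + ε / 3) + ε / 3 := add_le_add (add_le_add e2 e3) e4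
      _ = ε := by ring
  filter_upwards [hurwitz_multi hfe hf0 (by positivity : 0 < ρ / 2) hfd hGd hlim, hU, hbd,
    hr.eventually_ge_atTop 1] with N hN h1 h2 hN1
  obtain ⟨p, hp, hp0⟩ := hN
  refine ⟨p, hball hp, fun i => ?_⟩
  have hN0 : (r N : ℂ) ≠ 0 := by exact_mod_cast (by linarith : (0 : ℝ) < r N).ne'
  have h3 := congrFun hp0 i
  simp only [hG, Pi.zero_apply] at h3
  have h4 : (r N : ℂ) * X N i p = L N i p + r N * ∑ j, (a i j : ℂ) * p.2 j +
      (⌊r N * κ i⌋ : ℤ) * (2 * Real.pi * Complex.I) := by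
    have h5 : X N i p = 1 / (r N : ℂ) * L N i p + ∑ j, (a i j : ℂ) * p.2 j +
      2 * Real.pi * Complex.I * ((⌊r N * κ i⌋ : ℤ) / (r N : ℂ)) := by
      rw [← hℓa]
      linear_combination h3
    rw [h5]
    field_simp
  rw [h4, Complex.exp_add, Complex.exp_int_mul_two_pi_mul_I, mul_one, Complex.exp_add,
    (hL N i (h1 i) (fun p hp => (h2 i p hp).1)).2.1 p (hball hp)]

end Pool.Agent.Lib.MP_209724_lc.GC
end

section

namespace Pool.Agent.Lib.MP_209724_lc.GC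

open MvPolynomial Filter Topology Metric
open MV (lead)

/-- Homomorphisms of the coordinate algebra from points. -/
theorem cover_hom_of_point {n : ℕ} {L : Type} [Field L] [Algebra ℂ L] (ξ : Fin n → L)
    (x : Fin n → ℂ) (hx : ∀ f : MvPolynomial (Fin n) ℂ, aeval ξ f = 0 → eval x f = 0)
    (hξ : ∀ i, ξ i ∈ Algebra.adjoin ℂ (Set.range ξ)) :
    ∃ φ : Algebra.adjoin ℂ (Set.range ξ) →ₐ[ℂ] ℂ, ∀ i, φ ⟨ξ i, hξ i⟩ = x i := by
  obtain ⟨Φ, hΦ⟩ := MV.sheets_lift (Algebra.adjoin ℂ (Set.range ξ))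
    (aeval ξ : MvPolynomial (Fin n) ℂ →ₐ[ℂ] L) (aeval x : MvPolynomial (Fin n) ℂ →ₐ[ℂ] ℂ)
    (fun s hs => by rw [aeval_eq_eval]; exact hx s hs) 1 (by simp) (by
      intro y hy
      rw [Algebra.adjoin_range_eq_range_aeval] at hy
      obtain ⟨s, hs⟩ := hy
      exact ⟨0, s, by rw [pow_zero, one_mul]; exact hs.symm⟩)
  refine ⟨Φ, fun i => ?_⟩
  rw [hΦ ⟨ξ i, hξ i⟩ 0 (X i) (by simp)]
  simp

/-- Points from homomorphisms of the coordinate algebra. -/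
theorem cover_point_of_hom {n : ℕ} {L : Type} [Field L] [Algebra ℂ L] (ξ : Fin n → L)
    (hξ : ∀ i, ξ i ∈ Algebra.adjoin ℂ (Set.range ξ))
    (φ : Algebra.adjoin ℂ (Set.range ξ) →ₐ[ℂ] ℂ) (f : MvPolynomial (Fin n) ℂ)
    (hf : aeval ξ f = 0) : eval (fun i => φ ⟨ξ i, hξ i⟩) f = 0 := by
  rw [← MvPolynomial.aeval_eq_eval, ← MvPolynomial.comp_aeval_apply]
  have : aeval (fun i => (⟨ξ i, hξ i⟩ : Algebra.adjoin ℂ (Set.range ξ))) f = 0 := by
    apply Subtype.ext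
    have h1 := MvPolynomial.comp_aeval_apply
      (fun i => (⟨ξ i, hξ i⟩ : Algebra.adjoin ℂ (Set.range ξ)))
      (Algebra.adjoin ℂ (Set.range ξ)).val f
    simp only [Subalgebra.coe_val] at h1
    rw [h1, hf]
    rfl
  rw [this, map_zero]

/-- transport along a segment -/
theorem cover_transport {n d : ℕ} {L : Type} [Field L] [Algebra ℂ L] (ξ : Fin n → L)
    (Z : Fin d → Fin n → ℂ) (ζ : Fin d → L)
    (hξ : ∀ i, ξ i ∈ Algebra.adjoin ℂ (Set.range ξ))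
    (hζA : ∀ j, ζ j ∈ Algebra.adjoin ℂ (Set.range ξ))
    (b : MvPolynomial (Fin d) ℂ)
    (hsh : ∀ (E : Type) [NormedAddCommGroup E] [NormedSpace ℂ E] [FiniteDimensional ℂ E]
        (D : Set E), IsOpen D → Convex ℝ D → ∀ Z : E → Fin d → ℂ,
        (∀ i, AnalyticOnNhd ℂ (fun p => Z p i) D) →
        (∀ p ∈ D, MvPolynomial.eval (Z p) b ≠ 0) → ∀ p₀ ∈ D,
        ∀ φ₀ : Algebra.adjoin ℂ (Set.range ξ) →ₐ[ℂ] ℂ,
        (∀ i, φ₀ ⟨ζ i, hζA i⟩ = Z p₀ i) →
        ∃ Φ : E → (Algebra.adjoin ℂ (Set.range ξ) →ₐ[ℂ] ℂ), Φ p₀ = φ₀ ∧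
          (∀ p ∈ D, ∀ i, Φ p ⟨ζ i, hζA i⟩ = Z p i) ∧
          ∀ x : Algebra.adjoin ℂ (Set.range ξ), DifferentiableOn ℂ (fun p => Φ p x) D)
    (w : Fin n → ℂ) {ρ r₀ R : ℝ} (hr₀ : 0 < r₀)
    (hstep : ∀ φ : Algebra.adjoin ℂ (Set.range ξ) →ₐ[ℂ] ℂ,
      ∀ z ∈ ball (prj Z w) ρ, (∀ j, φ ⟨ζ j, hζA j⟩ = (R : ℂ) * z j) →
      ‖(fun i => φ ⟨ξ i, hξ i⟩ / (R : ℂ)) - w‖ ≤ r₀ →
      ‖(fun i => φ ⟨ξ i, hξ i⟩ / (R : ℂ)) - w‖ < 3 * r₀ / 4)
    (z₂ z₃ : Fin d → ℂ)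
    (hseg : ∀ z ∈ segment ℝ z₂ z₃, z ∈ ball (prj Z w) ρ ∧ eval (fun j => (R : ℂ) * z j) b ≠ 0)
    (φ : Algebra.adjoin ℂ (Set.range ξ) →ₐ[ℂ] ℂ) (hφ : ∀ j, φ ⟨ζ j, hζA j⟩ = (R : ℂ) * z₂ j)
    (hφ' : ‖(fun i => φ ⟨ξ i, hξ i⟩ / (R : ℂ)) - w‖ ≤ r₀) :
    ∃ φ' : Algebra.adjoin ℂ (Set.range ξ) →ₐ[ℂ] ℂ,
      (∀ j, φ' ⟨ζ j, hζA j⟩ = (R : ℂ) * z₃ j) ∧
      ‖(fun i => φ' ⟨ξ i, hξ i⟩ / (R : ℂ)) - w‖ ≤ r₀ := by
  have hcomp : IsCompact (segment ℝ z₂ z₃) := by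
    rw [segment_eq_image_lineMap]
    exact isCompact_Icc.image AffineMap.lineMap_continuous
  have hVo : IsOpen {z : Fin d → ℂ | z ∈ ball (prj Z w) ρ ∧
      eval (fun j => (R : ℂ) * z j) b ≠ 0} := by
    have h1 : Continuous fun z : Fin d → ℂ => eval (fun j => (R : ℂ) * z j) b := by
      have h2 : Continuous fun y : Fin d → ℂ => eval y b := MvPolynomial.continuous_eval b
      exact h2.comp (by fun_prop)
    exact isOpen_ball.inter (isOpen_ne_fun h1 continuous_const)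
  obtain ⟨δ, hδ, hsub⟩ := hcomp.exists_thickening_subset_open hVo hseg
  set D := thickening δ (segment ℝ z₂ z₃) with hD
  have hDo : IsOpen D := isOpen_thickening
  have hDc : Convex ℝ D := (convex_segment z₂ z₃).thickening δ
  have h2D : z₂ ∈ D := self_subset_thickening hδ _ (left_mem_segment ℝ z₂ z₃)
  have h3D : z₃ ∈ D := self_subset_thickening hδ _ (right_mem_segment ℝ z₂ z₃)
  obtain ⟨Φ, hΦ0, hΦ1, hΦ2⟩ := hsh (Fin d → ℂ) D hDo hDc (fun z j => (R : ℂ) * z j)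
    (fun i => by
      intro p hp
      have h1 : AnalyticAt ℂ (fun p : Fin d → ℂ => p i) p :=
        (ContinuousLinearMap.proj (R := ℂ) (φ := fun _ : Fin d => ℂ) i).analyticAt p
      exact analyticAt_const.mul h1)
    (fun p hp => (hsub hp).2) z₂ h2D φ hφ
  refine ⟨Φ z₃, hΦ1 z₃ h3D, ?_⟩
  have hcont : ContinuousOn
      (fun z => ‖(fun i => Φ z ⟨ξ i, hξ i⟩ / (R : ℂ)) - w‖) D := by
    apply ContinuousOn.norm
    apply ContinuousOn.sub _ continuousOn_const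
    rw [continuousOn_pi]
    intro i
    exact (hΦ2 ⟨ξ i, hξ i⟩).continuousOn.div_const _
  by_contra hcon
  have hpre : IsPreconnected D := hDc.isPreconnected
  have h2lt : ‖(fun i => Φ z₂ ⟨ξ i, hξ i⟩ / (R : ℂ)) - w‖ < 3 * r₀ / 4 := by
    apply hstep _ z₂ (hsub h2D).1 (hΦ1 z₂ h2D)
    rw [hΦ0]
    exact hφ'
  have := hpre.intermediate_value h2D h3D hcont
  obtain ⟨y, hy, hyc⟩ := this (show (7 * r₀ / 8) ∈ _ from ⟨by linarith, by linarith⟩)
  have hyc' : ‖(fun i => Φ y ⟨ξ i, hξ i⟩ / (R : ℂ)) - w‖ = 7 * r₀ / 8 := hyc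
  have h4 := hstep (Φ y) y (hsub hy).1 (hΦ1 y hy) (by rw [hyc']; linarith)
  rw [hyc'] at h4
  linarith

theorem exists_cover {n d : ℕ} {L : Type} [Field L] [Algebra ℂ L] (ξ : Fin n → L)
    (Z : Fin d → Fin n → ℂ) (ζ : Fin d → L)
    (hζ : ∀ j, ζ j = ∑ i, algebraMap ℂ L (Z j i) * ξ i) (hind : AlgebraicIndependent ℂ ζ)
    (halg : ∀ i, IsAlgebraic (Algebra.adjoin ℂ (Set.range ζ)) (ξ i))
    (w : Fin n → ℂ) (H : (Fin d → ℂ) → Fin n → ℂ) {ρ r₀ : ℝ} (hρ : 0 < ρ) (hr₀ : 0 < r₀)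
    (hHw : ∀ z ∈ ball (prj Z w) ρ, ‖H z - w‖ < r₀ / 2)
    (hclose : ∀ ε : ℝ, 0 < ε → ∀ᶠ r : ℝ in atTop, ∀ x : Fin n → ℂ,
      (∀ f : MvPolynomial (Fin n) ℂ, aeval ξ f = 0 → eval x f = 0) →
      ‖(fun i => x i / (r : ℂ)) - w‖ ≤ r₀ →
      ‖(fun i => x i / (r : ℂ)) - H (prj Z fun i => x i / (r : ℂ))‖ < ε)
    (r : ℕ → ℝ) (hr : Tendsto r atTop atTop) (x : ℕ → Fin n → ℂ)
    (hx : ∀ N, ∀ f : MvPolynomial (Fin n) ℂ, aeval ξ f = 0 → eval (x N) f = 0)
    (hxw : Tendsto (fun N i => x N i / (r N : ℂ)) atTop (𝓝 w)) :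
    ∃ b : MvPolynomial (Fin d) ℂ, b ≠ 0 ∧ ∀ᶠ N : ℕ in atTop, ∀ z ∈ ball (prj Z w) ρ,
      eval (fun j => (r N : ℂ) * z j) b ≠ 0 → ∃ x' : Fin n → ℂ,
        (∀ f : MvPolynomial (Fin n) ℂ, aeval ξ f = 0 → eval x' f = 0) ∧
        (∀ j, prj Z x' j = (r N : ℂ) * z j) ∧ ‖(fun i => x' i / (r N : ℂ)) - w‖ ≤ r₀ := by
  classical
  have hξ : ∀ i, ξ i ∈ Algebra.adjoin ℂ (Set.range ξ) := fun i =>
    Algebra.subset_adjoin ⟨i, rfl⟩
  have hζA : ∀ j, ζ j ∈ Algebra.adjoin ℂ (Set.range ξ) := by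
    intro j
    rw [hζ j]
    exact Subalgebra.sum_mem _ fun i _ => Subalgebra.mul_mem _ (Subalgebra.algebraMap_mem _ _) (hξ i)
  have hζ' : ∀ j, (⟨ζ j, hζA j⟩ : Algebra.adjoin ℂ (Set.range ξ)) =
      ∑ i, algebraMap ℂ _ (Z j i) * ⟨ξ i, hξ i⟩ := by
    intro j
    apply Subtype.ext
    simp only [hζ j]
    rw [AddSubmonoidClass.coe_finsetSum]
    rfl
  have hFG : (Algebra.adjoin ℂ (Set.range ξ)).FG :=
    ⟨(Set.finite_range ξ).toFinset, by simp⟩
  have halgA : ∀ y ∈ Algebra.adjoin ℂ (Set.range ξ),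
      IsAlgebraic (Algebra.adjoin ℂ (Set.range ζ)) y := by
    intro y hy
    induction hy using Algebra.adjoin_induction with
    | mem y hy => obtain ⟨i, rfl⟩ := hy; exact halg i
    | algebraMap c =>
      have : algebraMap ℂ L c = algebraMap (Algebra.adjoin ℂ (Set.range ζ)) L
          (algebraMap ℂ _ c) := rfl
      rw [this]
      exact isAlgebraic_algebraMap _
    | add a b _ _ ha hb => exact ha.add hb
    | mul a b _ _ ha hb => exact ha.mul hb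
  obtain ⟨b, hb0, hsh⟩ := MV.exists_sheets ζ hind _ hFG hζA halgA
  refine ⟨b, hb0, ?_⟩
  have hcmem : aeval ζ b ∈ Algebra.adjoin ℂ (Set.range ξ) := by
    have h1 : aeval ζ b ∈ Algebra.adjoin ℂ (Set.range ζ) := by
      rw [Algebra.adjoin_range_eq_range_aeval]
      exact ⟨b, rfl⟩
    refine Algebra.adjoin_le ?_ h1
    rintro _ ⟨i, rfl⟩
    exact hζA i
  have hc0 : (⟨aeval ζ b, hcmem⟩ : Algebra.adjoin ℂ (Set.range ξ)) ≠ 0 := by
    intro h
    have h1 : aeval ζ b = 0 := congrArg Subtype.val h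
    exact hb0 ((algebraicIndependent_iff.mp hind) b h1)
  have hnear : ∀ᶠ N : ℕ in atTop, ‖(fun i => x N i / (r N : ℂ)) - w‖ < r₀ ∧
      prj Z (fun i => x N i / (r N : ℂ)) ∈ ball (prj Z w) ρ := by
    have h1 : ∀ᶠ y in 𝓝 w, ‖y - w‖ < r₀ ∧ prj Z y ∈ ball (prj Z w) ρ := by
      apply Filter.Eventually.and
      · have := ball_mem_nhds w hr₀
        filter_upwards [this] with y hy
        rwa [mem_ball_iff_norm] at hy
      · exact (continuous_prj Z).continuousAt.eventually (ball_mem_nhds _ hρ)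
    exact hxw.eventually h1
  filter_upwards [hnear, hr.eventually (hclose (r₀ / 4) (by positivity)),
    hr.eventually_gt_atTop 0] with N hN1 hN2 hR
  set R := r N with hRdef
  have hR0 : (R : ℂ) ≠ 0 := by exact_mod_cast hR.ne'
  -- coordinates of homs
  have hφζ : ∀ (φ : Algebra.adjoin ℂ (Set.range ξ) →ₐ[ℂ] ℂ) (j : Fin d),
      φ ⟨ζ j, hζA j⟩ = prj Z (fun i => φ ⟨ξ i, hξ i⟩) j := by
    intro φ j
    rw [hζ' j, map_sum]
    unfold prj
    refine Finset.sum_congr rfl fun i _ => ?_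
    rw [map_mul, AlgHom.commutes]
    rfl
  have hprjdiv : ∀ (y : Fin n → ℂ) (j : Fin d),
      prj Z (fun i => y i / (R : ℂ)) j = prj Z y j / R := by
    intro y j
    unfold prj
    rw [Finset.sum_div]
    exact Finset.sum_congr rfl fun i _ => by ring
  have hstep : ∀ φ : Algebra.adjoin ℂ (Set.range ξ) →ₐ[ℂ] ℂ,
      ∀ z ∈ ball (prj Z w) ρ, (∀ j, φ ⟨ζ j, hζA j⟩ = (R : ℂ) * z j) →
      ‖(fun i => φ ⟨ξ i, hξ i⟩ / (R : ℂ)) - w‖ ≤ r₀ →
      ‖(fun i => φ ⟨ξ i, hξ i⟩ / (R : ℂ)) - w‖ < 3 * r₀ / 4 := by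
    intro φ z hz hφz hφ
    have h1 := hN2 (fun i => φ ⟨ξ i, hξ i⟩) (cover_point_of_hom ξ hξ φ) hφ
    have h2 : (prj Z fun i => φ ⟨ξ i, hξ i⟩ / (R : ℂ)) = z := by
      funext j
      rw [hprjdiv (fun i => φ ⟨ξ i, hξ i⟩) j, ← hφζ, hφz j, mul_div_cancel_left₀ _ hR0]
    rw [h2] at h1
    have h3 := hHw z hz
    have h4 : ‖(fun i => φ ⟨ξ i, hξ i⟩ / (R : ℂ)) - w‖ ≤
        ‖(fun i => φ ⟨ξ i, hξ i⟩ / (R : ℂ)) - H z‖ + ‖H z - w‖ := by
      have := norm_add_le ((fun i => φ ⟨ξ i, hξ i⟩ / (R : ℂ)) - H z) (H z - w)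
      rwa [sub_add_sub_cancel] at this
    linarith
  -- the start
  obtain ⟨φ₀, hφ₀⟩ := cover_hom_of_point ξ (x N) (hx N) hξ
  have hUo : IsOpen {y : Fin n → ℂ | ‖(fun i => y i / (R : ℂ)) - w‖ < r₀ ∧
      prj Z (fun i => y i / (R : ℂ)) ∈ ball (prj Z w) ρ} := by
    have h1 : Continuous fun y : Fin n → ℂ => (fun i => y i / (R : ℂ)) := by
      apply continuous_pi
      intro i
      exact (continuous_apply i).div_const _
    apply IsOpen.inter
    · exact isOpen_lt (h1.sub continuous_const).norm continuous_const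
    · exact isOpen_ball.preimage ((continuous_prj Z).comp h1)
  obtain ⟨ε, hε, hεU⟩ := Metric.isOpen_iff.mp hUo (x N) hN1
  obtain ⟨φ₁, hφ₁c, hφ₁⟩ := exists_near _ hFG φ₀ _ hc0
    (Finset.univ.image fun i => (⟨ξ i, hξ i⟩ : Algebra.adjoin ℂ (Set.range ξ))) hε
  have hφ₁U := hεU (show (fun i => φ₁ ⟨ξ i, hξ i⟩) ∈ ball (x N) ε by
    rw [mem_ball, dist_pi_lt_iff hε]
    intro i
    rw [dist_eq_norm, ← hφ₀ i]
    exact hφ₁ _ (Finset.mem_image_of_mem _ (Finset.mem_univ i)))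
  obtain ⟨hφ₁r, hφ₁b⟩ := hφ₁U
  set z₁ : Fin d → ℂ := prj Z (fun i => φ₁ ⟨ξ i, hξ i⟩ / (R : ℂ)) with hz₁
  have hφ₁z : ∀ j, φ₁ ⟨ζ j, hζA j⟩ = (R : ℂ) * z₁ j := by
    intro j
    rw [hφζ, hz₁, hprjdiv (fun i => φ₁ ⟨ξ i, hξ i⟩) j, mul_div_cancel₀ _ hR0]
  have hbz₁ : eval (fun j => (R : ℂ) * z₁ j) b ≠ 0 := by
    have h1 : eval (fun j => (R : ℂ) * z₁ j) b = φ₁ ⟨aeval ζ b, hcmem⟩ := by
      have h2 : (fun j => (R : ℂ) * z₁ j) = fun j => φ₁ ⟨ζ j, hζA j⟩ :=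
        funext fun j => (hφ₁z j).symm
      rw [h2, ← MvPolynomial.aeval_eq_eval, ← MvPolynomial.comp_aeval_apply]
      congr 1
      apply Subtype.ext
      have h1 := MvPolynomial.comp_aeval_apply
        (fun i => (⟨ζ i, hζA i⟩ : Algebra.adjoin ℂ (Set.range ξ)))
        (Algebra.adjoin ℂ (Set.range ξ)).val b
      simp only [Subalgebra.coe_val] at h1
      exact h1
    rw [h1]
    exact hφ₁c
  intro z hz hbz
  -- the polynomial on the complex line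
  obtain ⟨q, hq⟩ : ∃ q : Polynomial ℂ, ∀ s : ℂ,
      q.eval s = eval (fun j => (R : ℂ) * (z₁ j + s * (z j - z₁ j))) b := by
    refine ⟨aeval (fun j => Polynomial.C ((R : ℂ) * z₁ j) +
      Polynomial.X * Polynomial.C ((R : ℂ) * (z j - z₁ j))) b, fun s => ?_⟩
    have h1 := MvPolynomial.comp_aeval_apply (fun j => Polynomial.C ((R : ℂ) * z₁ j) +
      Polynomial.X * Polynomial.C ((R : ℂ) * (z j - z₁ j))) (Polynomial.aeval s : Polynomial ℂ →ₐ[ℂ] ℂ) b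
    rw [Polynomial.coe_aeval_eq_eval] at h1
    rw [h1, MvPolynomial.aeval_eq_eval]
    congr 2
    funext j
    simp
    ring
  have hq0 : q ≠ 0 := by
    intro h
    have h1 := hq 0
    rw [h, Polynomial.eval_zero] at h1
    apply hbz₁
    rw [h1]
    congr 2
    funext j
    ring
  have hq1 : q.eval 0 ≠ 0 := by
    rw [hq 0]
    simpa using hbz₁
  have hq2 : q.eval 1 ≠ 0 := by
    rw [hq 1]
    simpa using hbz
  -- choice of the intermediate point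
  have hτ : ∀ᶠ τ : ℝ in 𝓝 0, z₁ + ((1 / 2 : ℂ) + τ * Complex.I) • (z - z₁) ∈
      ball (prj Z w) ρ := by
    have h1 : Continuous fun τ : ℝ => z₁ + ((1 / 2 : ℂ) + τ * Complex.I) • (z - z₁) := by
      fun_prop
    apply h1.continuousAt.eventually
    apply isOpen_ball.mem_nhds
    have h2 := (convex_ball (prj Z w) ρ) hφ₁b hz (show (0 : ℝ) ≤ 1 / 2 by norm_num)
      (show (0 : ℝ) ≤ 1 / 2 by norm_num) (by norm_num)
    convert h2 using 1
    funext j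
    simp
    ring
  obtain ⟨τ₀, hτ₀, hτ₀'⟩ := Metric.eventually_nhds_iff.mp hτ
  set B : Finset ℝ := q.roots.toFinset.image (fun s => s.im / (2 * s.re)) ∪
    q.roots.toFinset.image (fun s => s.im / (2 * (1 - s.re))) with hB
  obtain ⟨τ, hτ1, hτ2⟩ := (Set.Ioo_infinite hτ₀).exists_notMem_finset B
  have hτball := hτ₀' (y := τ) (by
    rw [Real.dist_eq, sub_zero, abs_of_pos hτ1.1]
    exact hτ1.2)
  set s : ℂ := (1 / 2 : ℂ) + τ * Complex.I with hs
  have hsre : s.re = 1 / 2 := by simp [hs]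
  have hsim : s.im = τ := by simp [hs]
  rw [hB, Finset.mem_union, not_or] at hτ2
  have hroot1 : ∀ l : ℝ, 0 ≤ l → l ≤ 1 → q.eval (l * s) ≠ 0 := by
    intro l hl0 hl1 h
    apply hτ2.1
    rw [Finset.mem_image]
    refine ⟨l * s, ?_, ?_⟩
    · rw [Multiset.mem_toFinset, Polynomial.mem_roots hq0]
      exact h
    · have hl : l ≠ 0 := by
        rintro rfl
        apply hq1
        simpa using h
      simp only [Complex.mul_re, Complex.mul_im, Complex.ofReal_re, Complex.ofReal_im, hsre, hsim]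
      rw [show 2 * (l * (1 / 2) - 0 * τ) = l by ring, show l * τ + 0 * (1 / 2) = l * τ by ring,
        mul_div_cancel_left₀ _ hl]
  have hroot2 : ∀ l : ℝ, 0 ≤ l → l ≤ 1 → q.eval (1 - l * (1 - s)) ≠ 0 := by
    intro l hl0 hl1 h
    apply hτ2.2
    rw [Finset.mem_image]
    refine ⟨1 - l * (1 - s), ?_, ?_⟩
    · rw [Multiset.mem_toFinset, Polynomial.mem_roots hq0]
      exact h
    · have hl : l ≠ 0 := by
        rintro rfl
        apply hq2
        simpa using h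
      simp only [Complex.mul_re, Complex.mul_im, Complex.ofReal_re, Complex.ofReal_im,
        Complex.sub_re, Complex.sub_im, Complex.one_re, Complex.one_im, hsre, hsim]
      rw [show 2 * (1 - (1 - (l * (1 - 1 / 2) - 0 * (0 - τ)))) = l by ring,
        show 0 - (l * (0 - τ) + 0 * (1 - 1 / 2)) = l * τ by ring, mul_div_cancel_left₀ _ hl]
  set z' : Fin d → ℂ := z₁ + s • (z - z₁) with hz'
  obtain ⟨φ₂, hφ₂z, hφ₂r⟩ := cover_transport ξ Z ζ hξ hζA b hsh w hr₀ hstep z₁ z'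
    (by
      intro y hy
      refine ⟨(convex_ball _ _).segment_subset hφ₁b hτball hy, ?_⟩
      rw [segment_eq_image] at hy
      obtain ⟨l, hl, rfl⟩ := hy
      have := hroot1 l hl.1 hl.2
      rw [hq] at this
      convert this using 3
      funext j
      simp only [hz', Pi.add_apply, Pi.smul_apply, Pi.sub_apply, smul_eq_mul, Complex.real_smul,
        Complex.ofReal_sub, Complex.ofReal_one]
      ring) φ₁ hφ₁z hφ₁r.le
  obtain ⟨φ₃, hφ₃z, hφ₃r⟩ := cover_transport ξ Z ζ hξ hζA b hsh w hr₀ hstep z' z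
    (by
      intro y hy
      refine ⟨(convex_ball _ _).segment_subset hτball hz hy, ?_⟩
      rw [segment_eq_image] at hy
      obtain ⟨l, hl, rfl⟩ := hy
      have := hroot2 (1 - l) (by linarith [hl.2]) (by linarith [hl.1])
      rw [hq] at this
      convert this using 3
      funext j
      simp only [hz', Pi.add_apply, Pi.smul_apply, Pi.sub_apply, smul_eq_mul, Complex.real_smul,
        Complex.ofReal_sub, Complex.ofReal_one]
      ring) φ₂ hφ₂z hφ₂r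
  refine ⟨fun i => φ₃ ⟨ξ i, hξ i⟩, cover_point_of_hom ξ hξ φ₃, ?_, hφ₃r⟩
  intro j
  rw [← hφζ, hφ₃z]

end Pool.Agent.Lib.MP_209724_lc.GC
end

section

/-!
The analytic part of the proof of the criterion in arbitrary codimension.
-/

namespace Pool.Agent.Lib.MP_209724_lc.GC

open MvPolynomial Filter Topology Metric
open MV (lead persist)

/-- `ψ` lies over the point `(r z, exp (r ς))`. -/
def Over {d k : ℕ} {S : Type*} [CommRing S] [Algebra ℂ S] (ζ : Fin d → S) (t : Fin k → S)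
    (r : ℝ) (p : (Fin d → ℂ) × (Fin k → ℂ)) (ψ : S →ₐ[ℂ] ℂ) : Prop :=
  (∀ j, ψ (ζ j) = r * p.1 j) ∧ ∀ j, ψ (t j) = Complex.exp (r * p.2 j)

/-- Uniform polynomial bound for the values of `f`. -/
def Bdd {d k : ℕ} {S : Type*} [CommRing S] [Algebra ℂ S] (ζ : Fin d → S) (t : Fin k → S)
    (r : ℕ → ℝ) (V : Set ((Fin d → ℂ) × (Fin k → ℂ))) (f : S) : Prop :=
  ∃ C : ℕ, ∀ᶠ N : ℕ in atTop, ∀ p ∈ V, ∀ ψ : S →ₐ[ℂ] ℂ, Over ζ t (r N) p ψ → ‖ψ f‖ ≤ r N ^ C

theorem tendsto_exp_mul_pow {δ : ℝ} (hδ : 0 < δ) (C : ℕ) :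
    Tendsto (fun x : ℝ => Real.exp (-(δ * x)) * x ^ C) atTop (𝓝 0) := by
  have h1 : Tendsto (fun x : ℝ => x ^ C * Real.exp (-δ * x)) atTop (𝓝 0) := by
    have := tendsto_rpow_mul_exp_neg_mul_atTop_nhds_zero (C : ℝ) δ hδ
    refine this.congr' ?_
    filter_upwards with x
    rw [Real.rpow_natCast]
  refine h1.congr fun N => ?_
  rw [mul_comm]
  congr 2
  ring

theorem core_analysis {n d k : ℕ} (hdk : d + k = n) {S : Type} [CommRing S] [Algebra ℂ S]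
    (ξ η u u' : Fin n → S) (ζ : Fin d → S) (t : Fin k → S) (g f b : S)
    (Z : Fin d → Fin n → ℂ) (hζ : ∀ j, ζ j = ∑ i, algebraMap ℂ S (Z j i) * ξ i)
    (a : Fin n → Fin k → ℤ) (κ : Fin n → ℝ) (w : Fin n → ℂ) (z₀ : Fin d → ℂ) (ς₀ : Fin k → ℂ)
    (H : (Fin d → ℂ) → Fin n → ℂ)
    (hHκ : ∀ i, H z₀ i = 2 * Real.pi * Complex.I * κ i + ∑ j, (a i j : ℂ) * ς₀ j)
    {ρ r₀ δ₀ : ℝ} (hρ : 0 < ρ) (hr₀ : 0 < r₀) (hδ₀ : 0 < δ₀)
    (hH0 : ∀ z ∈ ball z₀ ρ, δ₀ ≤ ‖H z‖)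
    (hHd : ContDiffOn ℂ 1 H (ball z₀ ρ))
    (htrans : ∀ (v : Fin d → ℂ) (β : Fin k → ℂ),
      (∀ i, fderiv ℂ H z₀ v i = ∑ j, (a i j : ℂ) * β j) → v = 0 ∧ β = 0)
    (hHw : ∀ z ∈ ball z₀ ρ, ‖H z - w‖ < r₀ / 2)
    (r : ℕ → ℝ) (hr : Tendsto r atTop atTop)
    (hclose : ∀ ε : ℝ, 0 < ε → ∀ᶠ N : ℕ in atTop, ∀ ψ : S →ₐ[ℂ] ℂ,
      ‖(fun i => ψ (ξ i) / (r N : ℂ)) - w‖ ≤ r₀ →
      ‖(fun i => ψ (ξ i) / (r N : ℂ)) - H (prj Z fun i => ψ (ξ i) / (r N : ℂ))‖ < ε)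
    (hstart : ∀ᶠ N : ℕ in atTop, ∃ ψ : S →ₐ[ℂ] ℂ, Over ζ t (r N) (z₀, ς₀) ψ ∧
      ‖(fun i => ψ (ξ i) / (r N : ℂ)) - w‖ ≤ r₀ ∧ ‖ψ g - 1‖ ≤ 1 / 2)
    (hsheets : ∀ᶠ N : ℕ in atTop, ∀ ψ : S →ₐ[ℂ] ℂ, Over ζ t (r N) (z₀, ς₀) ψ →
      ∃ Φ : (Fin d → ℂ) × (Fin k → ℂ) → (S →ₐ[ℂ] ℂ), Φ (z₀, ς₀) = ψ ∧
        (∀ p ∈ ball (z₀, ς₀) ρ, Over ζ t (r N) p (Φ p)) ∧
        ∀ x : S, DifferentiableOn ℂ (fun p => Φ p x) (ball (z₀, ς₀) ρ))
    {M : ℕ} (_hM : 0 < M) (hgf : (g * (g - 1)) ^ M = b * f)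
    (hb : ∃ δ : ℝ, 0 < δ ∧ ∀ᶠ N : ℕ in atTop, ∀ p ∈ ball (z₀, ς₀) ρ, ∀ ψ : S →ₐ[ℂ] ℂ,
      Over ζ t (r N) p ψ → ‖ψ b‖ ≤ Real.exp (-(δ * r N)))
    (hf : Bdd ζ t r (ball (z₀, ς₀) ρ) f) (e : ℕ)
    (hu : ∀ i, Bdd ζ t r (ball (z₀, ς₀) ρ) (g ^ e * u i))
    (hu' : ∀ i, Bdd ζ t r (ball (z₀, ς₀) ρ) (g ^ e * u' i))
    (huu : ∀ i, u i * u' i = 1)
    (hη : ∀ i, ∀ ψ : S →ₐ[ℂ] ℂ, ∀ ς : Fin k → ℂ, (∀ j, ψ (t j) = Complex.exp (ς j)) →
      ψ (η i) = ψ (u i) * Complex.exp (∑ j, (a i j : ℂ) * ς j)) (B : ℝ) :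
    ∃ ψ : S →ₐ[ℂ] ℂ, B < ‖fun i => ψ (ξ i)‖ ∧ ∀ i, ψ (η i) = Complex.exp (ψ (ξ i)) := by
  classical
  set p₀ : (Fin d → ℂ) × (Fin k → ℂ) := (z₀, ς₀) with hp₀
  have hp₀mem : p₀ ∈ ball p₀ ρ := mem_ball_self hρ
  have hz₀mem : z₀ ∈ ball z₀ ρ := mem_ball_self hρ
  have hball1 : ∀ p ∈ ball p₀ ρ, p.1 ∈ ball z₀ ρ := by
    intro p hp
    rw [mem_ball, Prod.dist_eq] at hp
    exact mem_ball.mpr ((le_max_left _ _).trans_lt hp)
  have hprj : ∀ (N : ℕ), (r N : ℂ) ≠ 0 → ∀ (p : (Fin d → ℂ) × (Fin k → ℂ)) (ψ : S →ₐ[ℂ] ℂ),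
      Over ζ t (r N) p ψ → prj Z (fun i => ψ (ξ i) / (r N : ℂ)) = p.1 := by
    intro N hN p ψ hψ
    funext j
    have h1 := hψ.1 j
    rw [hζ j, map_sum] at h1
    simp only [map_mul, AlgHom.commutes, Algebra.algebraMap_self, RingHom.id_apply] at h1
    have h2 : prj Z (fun i => ψ (ξ i) / (r N : ℂ)) j = (∑ i, Z j i * ψ (ξ i)) / (r N : ℂ) := by
      simp only [prj, Finset.sum_div]
      exact Finset.sum_congr rfl fun i _ => by ring
    rw [h2, h1]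
    field_simp
  obtain ⟨δ, hδ, hbδ⟩ := hb
  obtain ⟨Cf, hCf⟩ := hf
  -- the family of homomorphisms
  have hfam : ∀ᶠ N : ℕ in atTop, ∃ Φ : (Fin d → ℂ) × (Fin k → ℂ) → (S →ₐ[ℂ] ℂ),
      (∀ p ∈ ball p₀ ρ, Over ζ t (r N) p (Φ p)) ∧
        (∀ x : S, DifferentiableOn ℂ (fun p => Φ p x) (ball p₀ ρ)) ∧
        (∀ p ∈ ball p₀ ρ, ‖(fun i => Φ p (ξ i) / (r N : ℂ)) - w‖ ≤ r₀) ∧
        (∀ p ∈ ball p₀ ρ, ‖Φ p g - 1‖ < 3 / 4) := by
    have hsmall : ∀ᶠ N : ℕ in atTop,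
        Real.exp (-(δ * r N)) * (r N) ^ Cf < (3 / 16 : ℝ) ^ M := by
      have := ((tendsto_exp_mul_pow hδ Cf).comp hr).eventually (gt_mem_nhds
        (show (0 : ℝ) < (3 / 16 : ℝ) ^ M by positivity))
      exact this
    filter_upwards [hstart, hsheets, hclose (r₀ / 4) (by positivity), hbδ, hCf, hsmall,
      hr.eventually_gt_atTop 0] with N hN1 hN2 hN3 hN4 hN5 hN6 hN7
    have hN0 : (r N : ℂ) ≠ 0 := by exact_mod_cast hN7.ne'
    obtain ⟨ψ₀, hψ₀, hψ₀w, hψ₀g⟩ := hN1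
    obtain ⟨Φ, hΦ0, hΦ, hΦd⟩ := hN2 ψ₀ hψ₀
    -- the shell
    have hshell : ∀ p ∈ ball p₀ ρ, ∀ ψ : S →ₐ[ℂ] ℂ, Over ζ t (r N) p ψ →
        ‖(fun i => ψ (ξ i) / (r N : ℂ)) - w‖ ≤ r₀ →
        ‖(fun i => ψ (ξ i) / (r N : ℂ)) - w‖ < 3 * r₀ / 4 := by
      intro p hp ψ hψ h1
      have h2 := hN3 ψ h1
      rw [hprj N hN0 p ψ hψ] at h2
      have h3 := hHw p.1 (hball1 p hp)
      have h4 : (fun i => ψ (ξ i) / (r N : ℂ)) - w =
          ((fun i => ψ (ξ i) / (r N : ℂ)) - H p.1) + (H p.1 - w) := by abel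
      rw [h4]
      refine (norm_add_le _ _).trans_lt ?_
      linarith
    have hcont : ContinuousOn (fun p => ‖(fun i => Φ p (ξ i) / (r N : ℂ)) - w‖) (ball p₀ ρ) := by
      apply ContinuousOn.norm
      apply ContinuousOn.sub _ continuousOn_const
      rw [continuousOn_pi]
      intro i
      exact ((hΦd (ξ i)).continuousOn).div_const _
    refine ⟨Φ, hΦ, hΦd, ?_, ?_⟩
    · have h1 := persist hρ (fun p => ‖(fun i => Φ p (ξ i) / (r N : ℂ)) - w‖) hcont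
        (c := 7 * r₀ / 8) (by
          simp only [hΦ0]
          have := hshell p₀ hp₀mem ψ₀ hψ₀ hψ₀w
          linarith) (by
          intro p hp hcon
          have h2 := hshell p hp (Φ p) (hΦ p hp) (by rw [hcon]; linarith)
          rw [hcon] at h2
          linarith)
      intro p hp
      have := h1 p hp
      linarith
    · apply persist hρ
      · apply ContinuousOn.norm
        exact ((hΦd g).continuousOn).sub continuousOn_const
      · rw [hΦ0]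
        linarith
      · intro p hp hcon
        have h1 : (Φ p g * (Φ p g - 1)) ^ M = Φ p b * Φ p f := by
          have := congrArg (Φ p) hgf
          simpa using this
        have h2 : ‖Φ p f‖ ≤ (r N : ℝ) ^ Cf := hN5 p hp (Φ p) (hΦ p hp)
        have h3 : ‖Φ p b‖ ≤ Real.exp (-(δ * r N)) := hN4 p hp (Φ p) (hΦ p hp)
        have h4 : ‖(Φ p g * (Φ p g - 1)) ^ M‖ < (3 / 16 : ℝ) ^ M := by
          rw [h1, norm_mul]
          refine lt_of_le_of_lt ?_ hN6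
          exact mul_le_mul h3 h2 (norm_nonneg _) (Real.exp_pos _).le
        rw [norm_pow] at h4
        have h5 := lt_of_pow_lt_pow_left₀ M (by positivity) h4
        rw [norm_mul, hcon] at h5
        have h6 : (1 : ℝ) / 4 ≤ ‖Φ p g‖ := by
          have h7 : ‖(1 : ℂ)‖ ≤ ‖Φ p g‖ + ‖Φ p g - 1‖ := by
            calc ‖(1 : ℂ)‖ = ‖Φ p g - (Φ p g - 1)‖ := by congr 1; ring
              _ ≤ _ := norm_sub_le _ _
          rw [norm_one, hcon] at h7
          linarith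
        linarith
  rw [Filter.eventually_atTop] at hfam
  obtain ⟨N₀, hN₀⟩ := hfam
  have hfam' : ∀ N : ℕ, ∃ Φ : (Fin d → ℂ) × (Fin k → ℂ) → (S →ₐ[ℂ] ℂ), N₀ ≤ N →
      (∀ p ∈ ball p₀ ρ, Over ζ t (r N) p (Φ p)) ∧
        (∀ x : S, DifferentiableOn ℂ (fun p => Φ p x) (ball p₀ ρ)) ∧
        (∀ p ∈ ball p₀ ρ, ‖(fun i => Φ p (ξ i) / (r N : ℂ)) - w‖ ≤ r₀) ∧
        (∀ p ∈ ball p₀ ρ, ‖Φ p g - 1‖ < 3 / 4) := by
    intro N
    by_cases hN : N₀ ≤ N
    · obtain ⟨Φ, hΦ⟩ := hN₀ N hN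
      exact ⟨Φ, fun _ => hΦ⟩
    · obtain ⟨Φ, hΦ⟩ := hN₀ N₀ le_rfl
      exact ⟨Φ, fun hcon => absurd hcon hN⟩
  choose Φ hΦ using hfam'
  have hev : ∀ᶠ N : ℕ in atTop, N₀ ≤ N := eventually_ge_atTop N₀
  -- bounds for the units
  have hunit : ∀ U : Fin n → S, (∀ i, Bdd ζ t r (ball p₀ ρ) (g ^ e * U i)) →
      ∃ C : ℕ, ∀ᶠ N : ℕ in atTop, ∀ i, ∀ p ∈ ball p₀ ρ, ‖Φ N p (U i)‖ ≤ (r N : ℝ) ^ C := by
    intro U hU
    choose C hC using hU
    set C₀ : ℕ := Finset.univ.sup C with hC₀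
    refine ⟨C₀ + 1, ?_⟩
    have hC' := Filter.eventually_all.mpr hC
    have hlarge : ∀ᶠ N : ℕ in atTop, (4 : ℝ) ^ e ≤ r N := hr.eventually_ge_atTop _
    filter_upwards [hC', hlarge, hev, hr.eventually_ge_atTop 1] with N h1 h3 h4 h5
    intro i p hp
    obtain ⟨hΦ1, hΦ2, hΦ3, hΦ4⟩ := hΦ N h4
    have h6 := h1 i p hp (Φ N p) (hΦ1 p hp)
    rw [map_mul, map_pow, norm_mul, norm_pow] at h6
    have h9 : (1 : ℝ) / 4 ≤ ‖Φ N p g‖ := by
      have h10 : ‖(1 : ℂ)‖ ≤ ‖Φ N p g‖ + ‖Φ N p g - 1‖ := by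
        calc ‖(1 : ℂ)‖ = ‖Φ N p g - (Φ N p g - 1)‖ := by congr 1; ring
          _ ≤ _ := norm_sub_le _ _
      rw [norm_one] at h10
      have := hΦ4 p hp
      linarith
    have h10 : (1 / 4 : ℝ) ^ e ≤ ‖Φ N p g‖ ^ e := pow_le_pow_left₀ (by norm_num) h9 e
    have h11 : (1 / 4 : ℝ) ^ e * ‖Φ N p (U i)‖ ≤ (r N : ℝ) ^ C i :=
      (mul_le_mul_of_nonneg_right h10 (norm_nonneg _)).trans h6
    have h12 : (r N : ℝ) ^ C i ≤ (r N : ℝ) ^ C₀ :=
      pow_le_pow_right₀ h5 (Finset.le_sup (f := C) (Finset.mem_univ i))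
    have h13 : ‖Φ N p (U i)‖ ≤ 4 ^ e * (r N : ℝ) ^ C₀ := by
      have h14 := h11.trans h12
      have h15 : (4 ^ e : ℝ) * ((1 / 4 : ℝ) ^ e * ‖Φ N p (U i)‖) = ‖Φ N p (U i)‖ := by
        rw [← mul_assoc, ← mul_pow]
        norm_num
      calc ‖Φ N p (U i)‖ = (4 ^ e : ℝ) * ((1 / 4 : ℝ) ^ e * ‖Φ N p (U i)‖) := h15.symm
        _ ≤ _ := mul_le_mul_of_nonneg_left h14 (by positivity)
    refine h13.trans ?_
    rw [pow_succ']
    exact mul_le_mul_of_nonneg_right h3 (by positivity)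
  obtain ⟨C₁, hC₁⟩ := hunit u hu
  obtain ⟨C₂, hC₂⟩ := hunit u' hu'
  have hXlim : ∀ ε : ℝ, 0 < ε → ∀ᶠ N : ℕ in atTop, ∀ i, ∀ p ∈ ball p₀ ρ,
      ‖Φ N p (ξ i) / (r N : ℂ) - H p.1 i‖ ≤ ε := by
    intro ε hε
    filter_upwards [hev, hclose ε hε, hr.eventually_gt_atTop 0] with N h1 h2 h3
    intro i p hp
    have hN0 : (r N : ℂ) ≠ 0 := by exact_mod_cast h3.ne'
    obtain ⟨hΦ1, hΦ2, hΦ3, hΦ4⟩ := hΦ N h1
    have h4 := h2 (Φ N p) (hΦ3 p hp)
    rw [hprj N hN0 p _ (hΦ1 p hp)] at h4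
    exact (norm_le_pi_norm ((fun i => Φ N p (ξ i) / (r N : ℂ)) - H p.1) i).trans h4.le
  have hsol := exists_solution hdk a κ z₀ ς₀ H hHκ hρ hHd htrans r hr
    (fun N i p => Φ N p (ξ i) / (r N : ℂ)) (fun N i p => Φ N p (u i))
    (hev.mono fun N hN i => by
      simp only [div_eq_mul_inv]
      exact ((hΦ N hN).2.1 (ξ i)).mul_const _)
    (hev.mono fun N hN i => (hΦ N hN).2.1 (u i)) hXlim
    (by
      refine ⟨max C₁ C₂, ?_⟩
      filter_upwards [hev, hC₁, hC₂, hr.eventually_ge_atTop 1] with N h1 h2 h3 h4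
      intro i p hp
      have h6 : Φ N p (u i) * Φ N p (u' i) = 1 := by
        rw [← map_mul, huu, map_one]
      refine ⟨?_, ?_, ?_⟩
      · intro hcon
        rw [hcon, zero_mul] at h6
        exact zero_ne_one h6
      · exact (h2 i p hp).trans (pow_le_pow_right₀ h4 (le_max_left _ _))
      · rw [← eq_inv_of_mul_eq_one_right h6]
        exact (h3 i p hp).trans (pow_le_pow_right₀ h4 (le_max_right _ _)))
  -- the size of the solution
  have hlarge : ∀ᶠ N : ℕ in atTop, B < δ₀ / 2 * r N :=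
    (hr.const_mul_atTop (by positivity)).eventually_gt_atTop B
  obtain ⟨N, ⟨p, hp, hpη⟩, h2, h3, h4, h5⟩ :=
    (hsol.and (hev.and ((hr.eventually_gt_atTop 0).and
      (hlarge.and (hXlim (δ₀ / 2) (by positivity)))))).exists
  obtain ⟨hΦ1, hΦ2, hΦ3, hΦ4⟩ := hΦ N h2
  have hN0 : (r N : ℂ) ≠ 0 := by exact_mod_cast h3.ne'
  refine ⟨Φ N p, ?_, ?_⟩
  · have h6 : ‖(fun i => Φ N p (ξ i) / (r N : ℂ)) - H p.1‖ ≤ δ₀ / 2 := by
      rw [pi_norm_le_iff_of_nonneg (by positivity)]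
      exact fun i => h5 i p hp
    have h7 := hH0 p.1 (hball1 p hp)
    have h8 : δ₀ / 2 ≤ ‖fun i => Φ N p (ξ i) / (r N : ℂ)‖ := by
      have h9 : ‖H p.1‖ ≤ ‖fun i => Φ N p (ξ i) / (r N : ℂ)‖ +
          ‖(fun i => Φ N p (ξ i) / (r N : ℂ)) - H p.1‖ := by
        calc ‖H p.1‖ = ‖(fun i => Φ N p (ξ i) / (r N : ℂ)) -
              ((fun i => Φ N p (ξ i) / (r N : ℂ)) - H p.1)‖ := by
              congr 1; abel
          _ ≤ _ := norm_sub_le _ _
      linarith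
    have h9 : (fun i => Φ N p (ξ i)) = (r N : ℂ) • fun i => Φ N p (ξ i) / (r N : ℂ) := by
      funext i
      simp only [Pi.smul_apply, smul_eq_mul]
      field_simp
    rw [h9, norm_smul, Complex.norm_real, Real.norm_eq_abs, abs_of_pos h3]
    calc B < δ₀ / 2 * r N := h4
      _ = r N * (δ₀ / 2) := mul_comm _ _
      _ ≤ _ := mul_le_mul_of_nonneg_left h8 h3.le
  · intro i
    have h6 := hη i (Φ N p) (fun j => r N * p.2 j) (hΦ1 p hp).2
    have h7 := hpη i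
    rw [h6]
    have h8 : ∑ j, (a i j : ℂ) * ((r N : ℂ) * p.2 j) = (r N : ℂ) * ∑ j, (a i j : ℂ) * p.2 j := by
      rw [Finset.mul_sum]
      exact Finset.sum_congr rfl fun j _ => by ring
    rw [h8, h7]
    congr 1
    field_simp

end Pool.Agent.Lib.MP_209724_lc.GC
end

section

/-!
The main theorem in terms of a place of the function field.
-/

namespace Pool.Agent.Lib.MP_209724_lc.GC

open MvPolynomial Filter Topology Metric
open MV (lead)

/-- transfer of the condition on `x` along homomorphisms -/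
theorem eval_hom_eq_zero {n : ℕ} {L : Type} [Field L] [Algebra ℂ L] (ξ : Fin n → L)
    (A : Subalgebra ℂ L) (hξA : ∀ i, ξ i ∈ A) (ψ : A →ₐ[ℂ] ℂ) (f : MvPolynomial (Fin n) ℂ)
    (hf : aeval ξ f = 0) : eval (fun i => ψ ⟨ξ i, hξA i⟩) f = 0 := by
  rw [MV.eval_hom]
  have h1 : (aeval (fun i => (⟨ξ i, hξA i⟩ : A)) f : A) = 0 := by
    apply Subtype.ext
    have := MvPolynomial.comp_aeval_apply (B := L) (fun i => (⟨ξ i, hξA i⟩ : A)) A.val f
    rw [← Subalgebra.val_apply, this]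
    exact hf
  rw [h1, map_zero]

theorem exists_pos_le {n : ℕ} (f : Fin n → ℝ) (hf : ∀ i, 0 < f i) :
    ∃ ε : ℝ, 0 < ε ∧ ∀ i, ε ≤ f i := by
  rcases isEmpty_or_nonempty (Fin n) with h | h
  · exact ⟨1, one_pos, fun i => (h.false i).elim⟩
  · obtain ⟨i₀, hi₀⟩ := Finite.exists_min f
    exact ⟨f i₀, hf i₀, hi₀⟩

theorem eventually_eval_ne_zero {d : ℕ} (b : MvPolynomial (Fin d) ℂ) (hb : b ≠ 0)
    (z : Fin d → ℂ) (hz : eval z (lead b) ≠ 0) :
    ∀ᶠ r : ℝ in atTop, eval (fun j => (r : ℂ) * z j) b ≠ 0 := by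
  obtain ⟨ε, hε, h⟩ := lower_bound (k := 0) (fun _ => 0) (C b) 0 ⟨by simpa using hb, by
    intro ν _ hν
    exact absurd (Subsingleton.elim ν 0) hν⟩
  obtain ⟨c, hc, h1⟩ := h {z} isCompact_singleton (by
    intro z' hz'
    rw [Set.mem_singleton_iff] at hz'
    subst hz'
    rw [coeff_C, if_pos rfl]
    exact hz)
  filter_upwards [h1] with r hr h0
  have h2 := hr z rfl (fun _ => 0) (fun j => j.elim0)
  rw [evM_C, aeval_eq_eval, h0] at h2
  simp at h2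
  linarith

theorem core {n d k : ℕ} (hn : 0 < n) (hdk : d + k = n) {L : Type} [Field L] [Algebra ℂ L]
    (ξ η : Fin n → L) (hη : ∀ i, η i ≠ 0)
    (hgen : IntermediateField.adjoin ℂ (Set.range ξ ∪ Set.range η) = ⊤)
    (htr : Algebra.trdeg ℂ L = n)
    (htrK : Algebra.trdeg ℂ (IntermediateField.adjoin ℂ (Set.range ξ)) = d)
    (p : Ideal (MvPolynomial (Fin n) ℂ)) (hp : ∀ c, c ∈ p ↔ aeval ξ c = 0)
    (w : Fin n → ℂ) (hw : w ∈ cone p) (ω : Fin k → ℝ) (hωpos : ∀ j, 0 < ω j)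
    (hω : LinearIndependent ℚ ω) (m : Fin k → Fin n → ℤ) (a : Fin n → Fin k → ℤ)
    (hωm : ∀ j, ω j = ∑ i, m j i * (-(w i).re)) (hρa : ∀ i, -(w i).re = ∑ j, a i j * ω j)
    (𝒪 : ValuationSubring L) (hK : ∀ c ∈ IntermediateField.adjoin ℂ (Set.range ξ), c ∈ 𝒪)
    (h𝒪 : ∀ m : Fin n → ℤ, 𝒪.valuation (∏ i, η i ^ m i) < 1 ↔
      0 < ∑ i, (-(w i).re) * (m i : ℝ))
    (htan : ∀ β : Fin k → ℂ, β ≠ 0 → ∃ F : MvPolynomial (Fin n) ℂ, (∀ w' ∈ cone p, eval w' F = 0) ∧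
      ∑ i, (∑ j, (a i j : ℂ) * β j) * eval w (pderiv i F) ≠ 0)
    (A : Subalgebra ℂ L) (hA : A.FG) (hξA : ∀ i, ξ i ∈ A)
    (hηA : ∀ i, η i ∈ A) (M : ℝ) :
    ∃ ψ : A →ₐ[ℂ] ℂ, M < ‖fun i => ψ ⟨ξ i, hξA i⟩‖ ∧
      ∀ i, ψ ⟨η i, hηA i⟩ = Complex.exp (ψ ⟨ξ i, hξA i⟩) := by
  classical
  -- the variables and the units
  set t : Fin k → L := fun j => ∏ i, η i ^ m j i with ht
  set u : Fin n → L := fun i => η i * ∏ j, t j ^ (-a i j) with hu
  obtain ⟨ht0, hu0, h𝒪t, hu𝒪⟩ := exists_units η hη (fun i => -(w i).re) 𝒪 h𝒪 ω m a hωm hρa t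
    (fun j => rfl) u (fun i => rfl)
  -- the projection
  obtain ⟨F, hFS, hF, T, hTfin, hT⟩ := exists_functionals hdk w (cone p) a htan
  obtain ⟨Z, hZind, hZT⟩ := exists_proj ξ (d := d) (by rw [htrK]) T hTfin
  set ζ : Fin d → L := fun j => ∑ i, algebraMap ℂ L (Z j i) * ξ i with hζ
  obtain ⟨H, ρ₁, r₀, ρ, hρ, hρρ₁, hr₀, hHd, hHw, hZH, hr₀Z, huniq, hHshell, htrans⟩ :=
    exists_chart hdk (cone p) w hw a F hFS hF Z (fun b hb1 hb2 => hZT b (hT b hb1) hb2)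
  have hclose := closeness p w Z H hHd.continuousOn hr₀Z huniq
  obtain ⟨r, x, hr, hx, hxw⟩ := hw
  -- transcendence degrees
  have hζK : ∀ j, ζ j ∈ IntermediateField.adjoin ℂ (Set.range ξ) := by
    intro j
    refine sum_mem fun i _ => mul_mem ?_ (IntermediateField.subset_adjoin _ _ ⟨i, rfl⟩)
    exact IntermediateField.algebraMap_mem _ _
  have htK : AlgebraicIndependent (IntermediateField.adjoin ℂ (Set.range ξ)) t :=
    algebraicIndependent_t t ht0 𝒪 (fun c => hK c c.2) hω h𝒪t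
  obtain ⟨hξalg, hind, hzalg, hfd⟩ := trdeg_facts hdk ξ η hgen htr htrK ζ hζK hZind t htK
  set F₀ := IntermediateField.adjoin ℂ (Set.range (Sum.elim t ζ)) with hF₀
  have hK₀ : ∀ c ∈ IntermediateField.adjoin ℂ (Set.range ζ), c ∈ 𝒪 := by
    have h1 : IntermediateField.adjoin ℂ (Set.range ζ) ≤
        IntermediateField.adjoin ℂ (Set.range ξ) := by
      rw [IntermediateField.adjoin_le_iff]
      rintro _ ⟨j, rfl⟩
      exact hζK j
    exact fun c hc => hK c (h1 hc)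
  -- the cover
  obtain ⟨bc, hbc, hcover⟩ := exists_cover ξ Z ζ (fun j => rfl) hZind hξalg w H hρ hr₀ hHshell
    (by
      intro ε hε
      filter_upwards [hclose ε hε] with r hr1 x hx1 hx2
      exact hr1 x (fun f hf => hx1 f ((hp f).1 hf)) hx2) r hr x
    (fun N f hf => hx N f ((hp f).2 hf))
    (by
      refine hxw.congr fun N => ?_
      funext i
      rw [Pi.smul_apply, Complex.real_smul, Complex.ofReal_inv, div_eq_inv_mul])
  -- the idempotent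
  obtain ⟨g, f, b, e, M₀, hM₀, hgint, hg1, hfint, hb1, hgf, hUint⟩ :=
    exists_idem (F := F₀) (L := L) 𝒪
      (fun x y hx0 hy1 => arch t ζ hind 𝒪 hK₀ hω h𝒪t x.2 y.2 (by simpa using hx0) hy1)
      (Finset.univ.image u ∪ Finset.univ.image fun i => (u i)⁻¹) (by
        intro x hx
        rw [Finset.mem_union, Finset.mem_image, Finset.mem_image] at hx
        rcases hx with ⟨i, _, rfl⟩ | ⟨i, _, rfl⟩
        · exact (hu𝒪 i).1
        · exact (hu𝒪 i).2)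
  -- the bigger algebra
  set W : Finset L := {g, f, (b : L)} ∪ (Finset.univ.image t ∪ (Finset.univ.image u ∪
    Finset.univ.image fun i => (u i)⁻¹)) with hW
  set A' : Subalgebra ℂ L := A ⊔ Algebra.adjoin ℂ (W : Set L) with hA'
  have hAA' : A ≤ A' := le_sup_left
  have hWA' : ∀ x ∈ W, x ∈ A' := fun x hx =>
    (le_sup_right : Algebra.adjoin ℂ (W : Set L) ≤ A') (Algebra.subset_adjoin hx)
  have hA'fg : A'.FG := hA.sup (Subalgebra.fg_adjoin_finset W)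
  have hgA' : g ∈ A' := hWA' g (by simp [hW])
  have hfA' : f ∈ A' := hWA' f (by simp [hW])
  have hbA' : (b : L) ∈ A' := hWA' b (by simp [hW])
  have htA' : ∀ j, t j ∈ A' := fun j => hWA' _ (by
    rw [hW]
    exact Finset.mem_union_right _ (Finset.mem_union_left _
      (Finset.mem_image_of_mem t (Finset.mem_univ j))))
  have huA' : ∀ i, u i ∈ A' := fun i => hWA' _ (by
    rw [hW]
    exact Finset.mem_union_right _ (Finset.mem_union_right _ (Finset.mem_union_left _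
      (Finset.mem_image_of_mem u (Finset.mem_univ i)))))
  have hu'A' : ∀ i, (u i)⁻¹ ∈ A' := fun i => hWA' _ (by
    rw [hW]
    exact Finset.mem_union_right _ (Finset.mem_union_right _ (Finset.mem_union_right _
      (Finset.mem_image_of_mem (fun i => (u i)⁻¹) (Finset.mem_univ i)))))
  have hξA' : ∀ i, ξ i ∈ A' := fun i => hAA' (hξA i)
  have hηA' : ∀ i, η i ∈ A' := fun i => hAA' (hηA i)
  have hζA' : ∀ j, ζ j ∈ A' := fun j =>
    sum_mem fun i _ => mul_mem (A'.algebraMap_mem _) (hξA' i)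
  have hzA' : ∀ o : Fin k ⊕ Fin d, Sum.elim t ζ o ∈ A' := by
    rintro (j | j)
    · exact htA' j
    · exact hζA' j
  -- sheets
  obtain ⟨b₀, hb₀, hsheets⟩ := MV.exists_sheets (Sum.elim t ζ) hind A' hA'fg hzA'
    (fun x _ => hzalg x)
  set bs := sumAlgEquiv ℂ (Fin k) (Fin d) b₀ with hbs
  have hbs0 : bs ≠ 0 := by
    rw [hbs, Ne, EmbeddingLike.map_eq_zero_iff]
    exact hb₀
  obtain ⟨μs, hμs⟩ := exists_isLow hω hbs0
  obtain ⟨εs, hεs, hlows⟩ := lower_bound ω bs μs hμs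
  -- good points
  obtain ⟨cg, hcg, εg, hεg, hgood⟩ := exists_good ξ Z ζ (fun j => rfl) t ht0 hind hξalg 𝒪 hK hω
    h𝒪t g hgint hg1 A' hA'fg hξA' htA' hgA' (fun x _ => hzalg x)
  -- bounds
  have hGA' : ∀ i, g ^ e * u i ∈ A' := fun i => mul_mem (pow_mem hgA' e) (huA' i)
  have hG'A' : ∀ i, g ^ e * (u i)⁻¹ ∈ A' := fun i => mul_mem (pow_mem hgA' e) (hu'A' i)
  obtain ⟨cf, hcf, εf, hεf, hbdf⟩ := (intRel_of_vInt t ζ hind 𝒪 hK₀ hω h𝒪t hfint).exists_bound A'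
    hζA' htA' hfA'
  obtain ⟨cb, hcb, εb, hεb, δb, hδb, hbdb⟩ :=
    (smallRel_of_mem t ζ hind 𝒪 hK₀ hω h𝒪t b.2 hb1).exists_bound A' hζA' htA' hbA'
  have hbu := fun i => (intRel_of_vInt t ζ hind 𝒪 hK₀ hω h𝒪t (hUint (u i)
    (Finset.mem_union_left _ (Finset.mem_image_of_mem u (Finset.mem_univ i))))).exists_bound A'
    hζA' htA' (hGA' i)
  have hbu' := fun i => (intRel_of_vInt t ζ hind 𝒪 hK₀ hω h𝒪t (hUint (u i)⁻¹
    (Finset.mem_union_right _ (Finset.mem_image_of_mem (fun i => (u i)⁻¹)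
      (Finset.mem_univ i))))).exists_bound A' hζA' htA' (hG'A' i)
  choose cu hcu εu hεu hbdu using hbu
  choose cu' hcu' εu' hεu' hbdu' using hbu'
  -- the generic point
  obtain ⟨cX, hcX, hcX0⟩ : ∃ cX : MvPolynomial (Fin d) ℂ, cX ≠ 0 ∧
      ∀ z : Fin d → ℂ, (∃ i : Fin d, True) → eval z cX ≠ 0 → z ≠ 0 := by
    by_cases h : ∃ i : Fin d, True
    · obtain ⟨i, _⟩ := h
      refine ⟨X i, X_ne_zero i, fun z _ h1 h2 => h1 ?_⟩
      rw [eval_X, h2]
      rfl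
    · exact ⟨1, one_ne_zero, fun z h1 => absurd h1 h⟩
  set c : MvPolynomial (Fin d) ℂ :=
    cf * cg * cb * cX * (∏ i, cu i) * (∏ i, cu' i) * lead bc * lead (bs.coeff μs) with hc
  have hc0 : c ≠ 0 := by
    refine mul_ne_zero (mul_ne_zero (mul_ne_zero (mul_ne_zero (mul_ne_zero (mul_ne_zero
      (mul_ne_zero hcf hcg) hcb) hcX) ?_) ?_) ?_) ?_
    · exact Finset.prod_ne_zero_iff.mpr fun i _ => hcu i
    · exact Finset.prod_ne_zero_iff.mpr fun i _ => hcu' i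
    · exact MV.lead_ne_zero hbc
    · exact MV.lead_ne_zero hμs.1
  obtain ⟨εU, hεU, hεUle⟩ := exists_pos_le (fun i => min (εu i) (εu' i))
    (fun i => lt_min (hεu i) (hεu' i))
  set ε : ℝ := min (min εs εg) (min (min εf εb) εU) with hεdef
  have hε : 0 < ε := lt_min (lt_min hεs hεg) (lt_min (lt_min hεf hεb) hεU)
  have hε1 : ε ≤ εs := (min_le_left _ _).trans (min_le_left _ _)
  have hε2 : ε ≤ εg := (min_le_left _ _).trans (min_le_right _ _)
  have hε3 : ε ≤ εf := (min_le_right _ _).trans ((min_le_left _ _).trans (min_le_left _ _))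
  have hε4 : ε ≤ εb := (min_le_right _ _).trans ((min_le_left _ _).trans (min_le_right _ _))
  have hε5 : ε ≤ εU := (min_le_right _ _).trans (min_le_right _ _)
  have hHd' : ContDiffOn ℂ 1 H (ball (prj Z w) ρ) := hHd.mono (ball_subset_ball hρρ₁)
  obtain ⟨κ, z₀, ς₀, hς₀, hz₀, hHκ, hcz₀⟩ := exists_generic hdk a w ω
    (fun i => by rw [← hρa i, neg_neg]) H (prj Z w) hρ hHd' hHw
    (htrans _ (mem_ball_self hρ)) c hc0 (ε := min (ε / 2) ρ) (lt_min (half_pos hε) hρ)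
  have hz₀ρ : z₀ ∈ ball (prj Z w) ρ := ball_subset_ball (min_le_right _ _) hz₀
  -- `H z₀ ≠ 0`
  have hfac : eval z₀ cX ≠ 0 := by
    rw [hc] at hcz₀
    simp only [map_mul, map_prod, mul_ne_zero_iff] at hcz₀
    tauto
  have hHz₀ : H z₀ ≠ 0 := by
    intro h0
    by_cases hd : ∃ i : Fin d, True
    · apply hcX0 z₀ hd hfac
      rw [← hZH z₀ (ball_subset_ball hρρ₁ hz₀ρ), h0]
      funext j
      simp [prj]
    · have hd0 : IsEmpty (Fin d) := ⟨fun i => hd ⟨i, trivial⟩⟩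
      have h1 : z₀ = prj Z w := Subsingleton.elim _ _
      rw [h1, hHw] at h0
      have hd1 : d = 0 := by
        rcases Nat.eq_zero_or_pos d with h | h
        · exact h
        · exact (hd ⟨⟨0, h⟩, trivial⟩).elim
      have hk : 0 < k := by omega
      have h2 := hωpos ⟨0, hk⟩
      rw [hωm, h0] at h2
      simp at h2
  -- the radius
  have hopen1 : ball (prj Z w) ρ ∈ 𝓝 z₀ := isOpen_ball.mem_nhds hz₀ρ
  obtain ⟨ρa, hρa0, hρaB⟩ := Metric.mem_nhds_iff.mp hopen1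
  have hopen2 : {z : Fin d → ℂ | eval z c ≠ 0} ∈ 𝓝 z₀ :=
    (MvPolynomial.continuous_eval c).continuousAt.eventually_ne hcz₀
  obtain ⟨ρb, hρb0, hρbB⟩ := Metric.nhds_basis_closedBall.mem_iff.mp hopen2
  have hopen3 : {z : Fin d → ℂ | ‖H z₀‖ / 2 < ‖H z‖} ∈ 𝓝 z₀ := by
    have h1 : ContinuousAt H z₀ := hHd'.continuousOn.continuousAt hopen1
    have h2 : ‖H z₀‖ / 2 < ‖H z₀‖ := half_lt_self (norm_pos_iff.mpr hHz₀)
    exact h1.norm.eventually_const_lt h2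
  obtain ⟨ρc, hρc0, hρcB⟩ := Metric.mem_nhds_iff.mp hopen3
  set ρ' : ℝ := min (min ρa ρb) (min ρc (ε / 2)) with hρ'
  have hρ'0 : 0 < ρ' := lt_min (lt_min hρa0 hρb0) (lt_min hρc0 (half_pos hε))
  have hρ'a : ρ' ≤ ρa := (min_le_left _ _).trans (min_le_left _ _)
  have hρ'b : ρ' ≤ ρb := (min_le_left _ _).trans (min_le_right _ _)
  have hρ'c : ρ' ≤ ρc := (min_le_right _ _).trans (min_le_left _ _)
  have hρ'ε : ρ' ≤ ε / 2 := (min_le_right _ _).trans (min_le_right _ _)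
  set D : Set (Fin d → ℂ) := closedBall z₀ ρ' with hD
  have hDc : IsCompact D := isCompact_closedBall _ _
  have hDne : ∀ v ∈ D, eval v cf ≠ 0 ∧ eval v cg ≠ 0 ∧ eval v cb ≠ 0 ∧ (∀ i, eval v (cu i) ≠ 0) ∧
      (∀ i, eval v (cu' i) ≠ 0) ∧ eval v (lead bc) ≠ 0 ∧ eval v (lead (bs.coeff μs)) ≠ 0 := by
    intro v hv
    have h1 : eval v c ≠ 0 := hρbB (closedBall_subset_closedBall hρ'b hv)
    rw [hc] at h1
    simp only [map_mul, map_prod, mul_ne_zero_iff, Finset.prod_ne_zero_iff, Finset.mem_univ,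
      true_imp_iff] at h1
    tauto
  have hV1 : ∀ q ∈ ball (z₀, ς₀) ρ', q.1 ∈ ball z₀ ρ' := by
    intro q hq
    rw [mem_ball, Prod.dist_eq] at hq
    exact mem_ball.mpr ((le_max_left _ _).trans_lt hq)
  have hV2 : ∀ q ∈ ball (z₀, ς₀) ρ', ∀ j, ‖q.2 j + ω j‖ ≤ ε := by
    intro q hq j
    rw [mem_ball, Prod.dist_eq] at hq
    have h1 : dist q.2 ς₀ < ρ' := (le_max_right _ _).trans_lt hq
    have h2 : ‖q.2 j - ς₀ j‖ ≤ dist q.2 ς₀ := by
      rw [dist_eq_norm]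
      exact norm_le_pi_norm (q.2 - ς₀) j
    have h3 : ‖ς₀ j + ω j‖ < ε / 2 := (hς₀ j).trans_le (min_le_left _ _)
    calc ‖q.2 j + ω j‖ = ‖(q.2 j - ς₀ j) + (ς₀ j + ω j)‖ := by congr 1; ring
      _ ≤ _ := norm_add_le _ _
      _ ≤ ε := by linarith
  have hVD : ∀ q ∈ ball (z₀, ς₀) ρ', q.1 ∈ D := fun q hq => ball_subset_closedBall (hV1 q hq)
  have hq₀ : (z₀, ς₀) ∈ ball (z₀, ς₀) ρ' := mem_ball_self hρ'0
  have hHd'' : ContDiffOn ℂ 1 H (ball z₀ ρ') :=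
    hHd'.mono ((ball_subset_ball hρ'a).trans hρaB)
  obtain ⟨ψ, hψM, hψ⟩ := core_analysis (S := A') hdk (fun i => ⟨ξ i, hξA' i⟩)
    (fun i => ⟨η i, hηA' i⟩) (fun i => ⟨u i, huA' i⟩) (fun i => ⟨(u i)⁻¹, hu'A' i⟩)
    (fun j => ⟨ζ j, hζA' j⟩) (fun j => ⟨t j, htA' j⟩) ⟨g, hgA'⟩ ⟨f, hfA'⟩ ⟨b, hbA'⟩ Z
    (by
      intro j
      apply Subtype.ext
      change ζ j = A'.val _
      rw [map_sum]
      simp only [map_mul]
      rfl)
    a κ w z₀ ς₀ H hHκ (ρ := ρ') (r₀ := r₀) (δ₀ := ‖H z₀‖ / 2) hρ'0 hr₀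
    (half_pos (norm_pos_iff.mpr hHz₀))
    (fun z hz => (hρcB (ball_subset_ball hρ'c hz)).le) hHd'' (htrans z₀ hz₀ρ)
    (fun z hz => hHshell z (hρaB (ball_subset_ball hρ'a hz))) r hr
    (by
      intro ε' hε'
      filter_upwards [hr.eventually (hclose ε' hε')] with N hN ψ hψ
      exact hN (fun i => ψ ⟨ξ i, hξA' i⟩) (fun f hf => eval_hom_eq_zero ξ A' hξA' ψ f
        ((hp f).1 hf)) hψ)
    (by
      have h1 := hr.eventually (hgood D hDc (fun z hz => (hDne z hz).2.1) (‖w‖ + r₀))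
      have hz₀D : z₀ ∈ D := mem_closedBall_self hρ'0.le
      have h2 := hr.eventually (eventually_eval_ne_zero bc hbc z₀ (hDne z₀ hz₀D).2.2.2.2.2.1)
      filter_upwards [h1, h2, hcover, hr.eventually_gt_atTop 0] with N h1 h2 h3 h4
      obtain ⟨x', hx'1, hx'2, hx'3⟩ := h3 z₀ hz₀ρ h2
      have hrN : (r N : ℂ) ≠ 0 := by exact_mod_cast h4.ne'
      have hx'norm : ‖x'‖ ≤ (‖w‖ + r₀) * r N := by
        have h5 : x' = (r N : ℂ) • (((fun i => x' i / (r N : ℂ)) - w) + w) := by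
          funext i
          simp only [Pi.smul_apply, smul_eq_mul, sub_add_cancel]
          field_simp
        rw [h5, norm_smul, Complex.norm_real, Real.norm_eq_abs, abs_of_pos h4, mul_comm]
        apply mul_le_mul_of_nonneg_right _ h4.le
        refine (norm_add_le _ _).trans ?_
        linarith
      obtain ⟨ψ, hψ1, hψ2, hψ3⟩ := h1 x' hx'norm hx'1 z₀ hz₀D hx'2 ς₀
        (fun j => (hV2 _ hq₀ j).trans hε2)
      refine ⟨ψ, ⟨?_, hψ2⟩, ?_, hψ3⟩
      · intro j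
        have h5 : (⟨ζ j, hζA' j⟩ : A') = ∑ i, algebraMap ℂ A' (Z j i) * ⟨ξ i, hξA' i⟩ := by
          apply Subtype.ext
          change ζ j = A'.val _
          rw [map_sum]
          simp only [map_mul]
          rfl
        change ψ (⟨ζ j, hζA' j⟩ : A') = r N * z₀ j
        rw [h5, map_sum]
        simp only [map_mul, AlgHom.commutes, Algebra.algebraMap_self, RingHom.id_apply, hψ1]
        exact hx'2 j
      · simp only [hψ1]
        exact hx'3)
    (by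
      obtain ⟨cl, hcl, hlow⟩ := hlows D hDc (fun z hz => (hDne z hz).2.2.2.2.2.2)
      filter_upwards [hr.eventually hlow] with N hN
      intro ψ hψ
      obtain ⟨Φ, hΦ0, hΦ, hΦd⟩ := hsheets ((Fin d → ℂ) × (Fin k → ℂ)) (ball (z₀, ς₀) ρ')
        isOpen_ball (convex_ball _ _)
        (fun q => Sum.elim (fun j => Complex.exp (r N * q.2 j)) (fun j => r N * q.1 j))
        (by
          rintro (j | j)
          · intro q _
            have h1 : AnalyticAt ℂ (fun q : (Fin d → ℂ) × (Fin k → ℂ) => q.2 j) q := by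
              have h2 : AnalyticAt ℂ (fun v : Fin k → ℂ => v j) q.2 :=
                (ContinuousLinearMap.proj (R := ℂ) (φ := fun _ : Fin k => ℂ) j).analyticAt _
              exact h2.comp analyticAt_snd
            exact (analyticAt_const.mul h1).cexp
          · intro q _
            have h1 : AnalyticAt ℂ (fun q : (Fin d → ℂ) × (Fin k → ℂ) => q.1 j) q := by
              have h2 : AnalyticAt ℂ (fun v : Fin d → ℂ => v j) q.1 :=
                (ContinuousLinearMap.proj (R := ℂ) (φ := fun _ : Fin d => ℂ) j).analyticAt _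
              exact h2.comp analyticAt_fst
            exact analyticAt_const.mul h1)
        (by
          intro q hq h0
          have h1 := hN q.1 (hVD q hq) q.2 (fun j => (hV2 q hq j).trans hε1)
          rw [hbs, evM_sum, aeval_eq_eval, h0, norm_zero] at h1
          have h2 : 0 < cl * ‖∏ j, Complex.exp (r N * q.2 j) ^ μs j‖ := by
            apply mul_pos hcl
            rw [norm_pos_iff]
            exact Finset.prod_ne_zero_iff.2 fun j _ => pow_ne_zero _ (Complex.exp_ne_zero _)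
          linarith) (z₀, ς₀) hq₀ ψ (by
          rintro (j | j)
          · exact hψ.2 j
          · exact hψ.1 j)
      exact ⟨Φ, hΦ0, fun q hq => ⟨fun j => hΦ q hq (Sum.inr j), fun j => hΦ q hq (Sum.inl j)⟩,
        hΦd⟩)
    hM₀ (Subtype.ext hgf)
    ⟨δb, hδb, by
      filter_upwards [hr.eventually (hbdb D hDc fun z hz => (hDne z hz).2.2.1)] with N hN
      intro q hq ψ hψ
      exact hN q.1 (hVD q hq) q.2 (fun j => (hV2 q hq j).trans hε4) ψ hψ.1 hψ.2⟩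
    (by
      obtain ⟨C, hC⟩ := hbdf D hDc fun z hz => (hDne z hz).1
      refine ⟨C, ?_⟩
      filter_upwards [hr.eventually hC] with N hN
      intro q hq ψ hψ
      exact hN q.1 (hVD q hq) q.2 (fun j => (hV2 q hq j).trans hε3) ψ hψ.1 hψ.2)
    e
    (by
      intro i
      obtain ⟨C, hC⟩ := hbdu i D hDc fun z hz => (hDne z hz).2.2.2.1 i
      refine ⟨C, ?_⟩
      filter_upwards [hr.eventually hC] with N hN
      intro q hq ψ hψ
      exact hN q.1 (hVD q hq) q.2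
        (fun j => (hV2 q hq j).trans (hε5.trans ((hεUle i).trans (min_le_left _ _)))) ψ hψ.1 hψ.2)
    (by
      intro i
      obtain ⟨C, hC⟩ := hbdu' i D hDc fun z hz => (hDne z hz).2.2.2.2.1 i
      refine ⟨C, ?_⟩
      filter_upwards [hr.eventually hC] with N hN
      intro q hq ψ hψ
      exact hN q.1 (hVD q hq) q.2
        (fun j => (hV2 q hq j).trans (hε5.trans ((hεUle i).trans (min_le_right _ _)))) ψ hψ.1 hψ.2)
    (fun i => Subtype.ext (mul_inv_cancel₀ (hu0 i)))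
    (fun i ψ ς hς => hom_eta η a t ht0 u (fun i => rfl) A' hηA' htA' huA' i ψ ς hς) M
  exact ⟨ψ.comp (Subalgebra.inclusion hAA'), hψM, fun i => hψ i⟩

end Pool.Agent.Lib.MP_209724_lc.GC
end
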