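import Mathlib
import Pool.Agent.Lib.MP_209724_lc.MV.Branch
import Pool.Agent.Lib.MP_209724_lc.MV.Defs
import Pool.Agent.Lib.MP_209724_lc.GC.CoreB
import Pool.Agent.Lib.MP_209724_lc.MV.Final

section

/-!
# A positive basis of the lattice spanned by finitely many real numbers
-/

namespace Pool.Agent.Lib.MP_209724_lc.GC

open MvPolynomial Filter Topology Metric
open MV (lead)

theorem exists_lattice {n k : ℕ} (ρ : Fin n → ℝ)
    (hk : Module.finrank ℚ (Submodule.span ℚ (Set.range ρ)) = k) :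
    ∃ (ω : Fin k → ℝ) (m : Fin k → Fin n → ℤ) (a : Fin n → Fin k → ℤ),
      (∀ j, 0 < ω j) ∧ LinearIndependent ℚ ω ∧ (∀ j, ω j = ∑ i, m j i * ρ i) ∧
      ∀ i, ρ i = ∑ j, a i j * ω j := by
  classical
  set G : Submodule ℤ ℝ := Submodule.span ℤ (Set.range ρ) with hG
  have hfin : Module.Finite ℤ G := Module.Finite.span_of_finite ℤ (Set.finite_range ρ)
  have hfree : Module.Free ℤ G := inferInstance
  set b := Module.finBasis ℤ G with hb
  set ω₀ : Fin (Module.finrank ℤ G) → ℝ := fun j => (b j : ℝ) with hω₀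
  have hmem : ∀ i, ρ i ∈ G := fun i => Submodule.subset_span ⟨i, rfl⟩
  have hrepr : ∀ i, ρ i = ∑ j, (b.repr ⟨ρ i, hmem i⟩ j : ℝ) * ω₀ j := by
    intro i
    have h1 := congrArg (Subtype.val) (b.sum_repr ⟨ρ i, hmem i⟩)
    rw [Submodule.coe_sum] at h1
    change _ = ρ i at h1
    refine h1.symm.trans ?_
    refine Finset.sum_congr rfl fun j _ => ?_
    rw [Submodule.coe_smul, zsmul_eq_mul]
  have hcomb : ∀ j, ∃ c : Fin n → ℤ, ω₀ j = ∑ i, (c i : ℝ) * ρ i := by
    intro j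
    have h1 : (b j : ℝ) ∈ Submodule.span ℤ (Set.range ρ) := (b j).2
    obtain ⟨c, hc⟩ := (Submodule.mem_span_range_iff_exists_fun ℤ).1 h1
    refine ⟨c, ?_⟩
    rw [hω₀]
    change (b j : ℝ) = _
    rw [← hc]
    exact Finset.sum_congr rfl fun i _ => by rw [zsmul_eq_mul]
  have hliZ : LinearIndependent ℤ ω₀ :=
    b.linearIndependent.map' G.subtype (Submodule.ker_subtype G)
  have hliQ : LinearIndependent ℚ ω₀ := (LinearIndependent.iff_fractionRing ℤ ℚ).1 hliZ
  have hspan : Submodule.span ℚ (Set.range ω₀) = Submodule.span ℚ (Set.range ρ) := by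
    apply le_antisymm
    · refine Submodule.span_le.2 ?_
      rintro _ ⟨j, rfl⟩
      obtain ⟨c, hc⟩ := hcomb j
      rw [hc]
      refine Submodule.sum_mem _ fun i _ => ?_
      have : (c i : ℝ) * ρ i = ((c i : ℚ)) • ρ i := by
        rw [Rat.smul_def]
        push_cast
        rfl
      rw [this]
      exact Submodule.smul_mem _ _ (Submodule.subset_span ⟨i, rfl⟩)
    · refine Submodule.span_le.2 ?_
      rintro _ ⟨i, rfl⟩
      rw [hrepr i]
      refine Submodule.sum_mem _ fun j _ => ?_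
      have : ((b.repr ⟨ρ i, hmem i⟩ j : ℤ) : ℝ) * ω₀ j
          = ((b.repr ⟨ρ i, hmem i⟩ j : ℤ) : ℚ) • ω₀ j := by
        rw [Rat.smul_def]
        push_cast
        rfl
      rw [this]
      exact Submodule.smul_mem _ _ (Submodule.subset_span ⟨j, rfl⟩)
  have hkk : k = Module.finrank ℤ G := by
    rw [← hk, ← hspan, finrank_span_eq_card hliQ, Fintype.card_fin]
  clear_value b
  subst hkk
  have hne : ∀ j, ω₀ j ≠ 0 := fun j => hliQ.ne_zero j
  choose c hc using hcomb
  set s : Fin (Module.finrank ℤ G) → ℤ := fun j => if 0 < ω₀ j then 1 else -1 with hs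
  have hss : ∀ j, s j * s j = 1 := by
    intro j
    simp only [hs]
    split_ifs <;> norm_num
  have hssR : ∀ j, (s j : ℝ) * s j = 1 := fun j => by exact_mod_cast hss j
  refine ⟨fun j => s j * ω₀ j, fun j i => s j * c j i, fun i j => b.repr ⟨ρ i, hmem i⟩ j * s j,
    fun j => ?_, ?_, fun j => ?_, fun i => ?_⟩
  · simp only [hs]
    split_ifs with h
    · simpa using h
    · push Not at h
      have : ω₀ j < 0 := lt_of_le_of_ne h (hne j)
      push_cast
      linarith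
  · have h1 : LinearIndependent ℚ fun j => ((s j : ℤ) : ℚ) • ω₀ j := by
      have hu : ∀ j, IsUnit ((s j : ℤ) : ℚ) := by
        intro j
        rw [isUnit_iff_ne_zero]
        have := hss j
        intro h0
        have h0' : s j = 0 := by exact_mod_cast h0
        rw [h0'] at this
        norm_num at this
      have h2 := hliQ.units_smul (fun j => (hu j).unit)
      exact h2
    have h3 : (fun j => (s j : ℝ) * ω₀ j) = fun j => ((s j : ℤ) : ℚ) • ω₀ j := by
      funext j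
      rw [Rat.smul_def]
      push_cast
      rfl
    rw [h3]
    exact h1
  · change (s j : ℝ) * ω₀ j = ∑ i, ((s j * c j i : ℤ) : ℝ) * ρ i
    rw [hc j, Finset.mul_sum]
    refine Finset.sum_congr rfl fun i _ => ?_
    push_cast
    ring
  · change ρ i = ∑ j, ((b.repr ⟨ρ i, hmem i⟩ j * s j : ℤ) : ℝ) * (s j * ω₀ j)
    refine (hrepr i).trans ?_
    refine Finset.sum_congr rfl fun j _ => ?_
    push_cast
    have := hssR j
    linear_combination (-(b.repr ⟨ρ i, hmem i⟩ j : ℝ) * ω₀ j) * this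

end Pool.Agent.Lib.MP_209724_lc.GC
end

section

/-!
The place of a field given by a real tropical direction.
-/

namespace Pool.Agent.Lib.MP_209724_lc.GC

open MvPolynomial
open scoped Pointwise

private theorem pa_prod_add {n : ℕ} {L : Type} [Field L] (η : Fin n → L) (hη : ∀ i, η i ≠ 0)
    (m m' : Fin n → ℤ) : ∏ i, η i ^ (m + m') i = (∏ i, η i ^ m i) * ∏ i, η i ^ m' i := by
  rw [← Finset.prod_mul_distrib]
  exact Finset.prod_congr rfl fun i _ => by rw [Pi.add_apply, zpow_add₀ (hη i)]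

private theorem pa_sum_add {n : ℕ} (ρ : Fin n → ℝ) (m m' : Fin n → ℤ) :
    ∑ i, ρ i * ((m + m') i : ℝ) = (∑ i, ρ i * (m i : ℝ)) + ∑ i, ρ i * (m' i : ℝ) := by
  rw [← Finset.sum_add_distrib]
  exact Finset.sum_congr rfl fun i _ => by rw [Pi.add_apply, Int.cast_add, mul_add]

/-- the monomials of nonnegative weight -/
private def paMon {n : ℕ} {L : Type} [Field L] (η : Fin n → L) (hη : ∀ i, η i ≠ 0)
    (ρ : Fin n → ℝ) : Submonoid L where
  carrier := {x | ∃ m : Fin n → ℤ, 0 ≤ ∑ i, ρ i * (m i : ℝ) ∧ ∏ i, η i ^ m i = x}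
  one_mem' := ⟨0, by simp, by simp⟩
  mul_mem' := by
    rintro x y ⟨m, hm, rfl⟩ ⟨m', hm', rfl⟩
    exact ⟨m + m', by rw [pa_sum_add]; exact add_nonneg hm hm', pa_prod_add η hη m m'⟩

/-- `1` is not a combination of monomials of positive weight -/
private theorem pa_one_notMem {n : ℕ} {K L : Type} [Field K] [Field L] [Algebra K L]
    (η : Fin n → L) (hη : ∀ i, η i ≠ 0) (ρ : Fin n → ℝ)
    (hT : ∀ f : MvPolynomial (Fin n) K, aeval η f = 0 → ∀ m, f.coeff m ≠ 0 →
      ∃ m', m' ≠ m ∧ f.coeff m' ≠ 0 ∧ ∑ i, ρ i * (m' i : ℝ) ≤ ∑ i, ρ i * (m i : ℝ)) :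
    (1 : L) ∉ Submodule.span K
      ((fun m : Fin n → ℤ => ∏ i, η i ^ m i) '' {m | 0 < ∑ i, ρ i * (m i : ℝ)}) := by
  classical
  intro h1
  rw [Finsupp.mem_span_image_iff_linearCombination] at h1
  obtain ⟨l, hl, hl1⟩ := h1
  rw [Finsupp.mem_supported] at hl
  rw [Finsupp.linearCombination_apply, Finsupp.sum] at hl1
  set M : Fin n →₀ ℕ := Finsupp.equivFunOnFinite.symm fun i => ∑ m ∈ l.support, (m i).natAbs
    with hM
  have hMi : ∀ i, M i = ∑ m ∈ l.support, (m i).natAbs := fun i => rfl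
  set sh : (Fin n → ℤ) → (Fin n →₀ ℕ) := fun m =>
    Finsupp.equivFunOnFinite.symm fun i => ((M i : ℤ) + m i).toNat with hsh
  have hshi : ∀ m ∈ l.support, ∀ i, ((sh m i : ℕ) : ℤ) = (M i : ℤ) + m i := by
    intro m hm i
    have h2 : (m i).natAbs ≤ M i := by
      rw [hMi]
      exact Finset.single_le_sum (f := fun m : Fin n → ℤ => (m i).natAbs)
        (fun _ _ => Nat.zero_le _) hm
    have h3 : sh m i = ((M i : ℤ) + m i).toNat := rfl
    rw [h3, Int.toNat_of_nonneg]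
    omega
  have hwt : ∀ m ∈ l.support, ∑ i, ρ i * ((sh m i : ℕ) : ℝ) =
      (∑ i, ρ i * (M i : ℝ)) + ∑ i, ρ i * (m i : ℝ) := by
    intro m hm
    rw [← Finset.sum_add_distrib]
    refine Finset.sum_congr rfl fun i _ => ?_
    have h3 : ((sh m i : ℕ) : ℝ) = (M i : ℝ) + (m i : ℝ) := by exact_mod_cast hshi m hm i
    rw [h3, mul_add]
  set f : MvPolynomial (Fin n) K :=
    monomial M 1 - ∑ m ∈ l.support, monomial (sh m) (l m) with hf
  have hf0 : aeval η f = 0 := by
    rw [hf, map_sub, map_sum]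
    have h4 : aeval η (monomial M (1 : K)) = ∏ i, η i ^ (M i : ℤ) := by
      rw [aeval_monomial, map_one, one_mul, Finsupp.prod_fintype _ _ (fun i => pow_zero _)]
      exact Finset.prod_congr rfl fun i _ => (zpow_natCast _ _).symm
    have h5 : ∀ m ∈ l.support, aeval η (monomial (sh m) (l m)) =
        (∏ i, η i ^ (M i : ℤ)) * (l m • ∏ i, η i ^ m i) := by
      intro m hm
      rw [aeval_monomial, Finsupp.prod_fintype _ _ (fun i => pow_zero _), Algebra.smul_def,
        mul_left_comm, ← Finset.prod_mul_distrib]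
      congr 1
      refine Finset.prod_congr rfl fun i _ => ?_
      rw [← zpow_natCast, hshi m hm i, zpow_add₀ (hη i)]
    rw [h4, Finset.sum_congr rfl h5, ← Finset.mul_sum, hl1, mul_one, sub_self]
  have hpos : ∀ m ∈ l.support, 0 < ∑ i, ρ i * (m i : ℝ) := fun m hm => hl hm
  have hcM : f.coeff M ≠ 0 := by
    rw [hf, coeff_sub, coeff_monomial, if_pos rfl, coeff_sum]
    rw [Finset.sum_eq_zero, sub_zero]
    · exact one_ne_zero
    · intro m hm
      rw [coeff_monomial, if_neg]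
      intro h6
      have h7 := hwt m hm
      rw [h6] at h7
      have h8 := hpos m hm
      linarith
  obtain ⟨m', hne, hc, hle⟩ := hT f hf0 M hcM
  rw [hf, coeff_sub, coeff_monomial, if_neg (Ne.symm hne), zero_sub, coeff_sum, neg_ne_zero] at hc
  obtain ⟨m, hm, hmc⟩ := Finset.exists_ne_zero_of_sum_ne_zero hc
  rw [coeff_monomial] at hmc
  have h9 : sh m = m' := by
    by_contra h10
    rw [if_neg h10] at hmc
    exact hmc rfl
  have h11 := hwt m hm
  have h12 := hpos m hm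
  rw [h9] at h11
  linarith

theorem exists_place_of_trop {n : ℕ} {K L : Type} [Field K] [Field L] [Algebra K L]
    (η : Fin n → L) (hη : ∀ i, η i ≠ 0) (ρ : Fin n → ℝ)
    (hT : ∀ f : MvPolynomial (Fin n) K, aeval η f = 0 → ∀ m, f.coeff m ≠ 0 →
      ∃ m', m' ≠ m ∧ f.coeff m' ≠ 0 ∧ ∑ i, ρ i * (m' i : ℝ) ≤ ∑ i, ρ i * (m i : ℝ)) :
    ∃ 𝒪 : ValuationSubring L, (∀ c : K, algebraMap K L c ∈ 𝒪) ∧
      ∀ m : Fin n → ℤ, 𝒪.valuation (∏ i, η i ^ m i) < 1 ↔ 0 < ∑ i, ρ i * (m i : ℝ) := by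
  classical
  set A : Subalgebra K L := Algebra.adjoin K (paMon η hη ρ : Set L) with hA
  set PS : Set L := (fun m : Fin n → ℤ => ∏ i, η i ^ m i) '' {m | 0 < ∑ i, ρ i * (m i : ℝ)} with hPS
  have hAspan : ∀ x ∈ A, x ∈ Submodule.span K (paMon η hη ρ : Set L) := by
    intro x hx
    have h1 : x ∈ Subalgebra.toSubmodule A := hx
    rw [hA, Algebra.adjoin_eq_span, Submonoid.closure_eq] at h1
    exact h1
  have hmulP : ∀ x ∈ A, ∀ y ∈ Submodule.span K PS, x * y ∈ Submodule.span K PS := by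
    intro x hx y hy
    have h2 := Submodule.mul_mem_mul (hAspan x hx) hy
    rw [Submodule.span_mul_span] at h2
    refine Submodule.span_mono ?_ h2
    rintro _ ⟨_, ⟨m, hm, rfl⟩, _, ⟨m', hm', rfl⟩, rfl⟩
    refine ⟨m + m', ?_, pa_prod_add η hη m m'⟩
    change 0 < ∑ i, ρ i * ((m + m') i : ℝ)
    rw [pa_sum_add]
    exact add_pos_of_nonneg_of_pos hm hm'
  set I : Ideal A.toSubring := Ideal.span {x | (x : L) ∈ PS} with hI
  have hIP : ∀ x ∈ I, (x : L) ∈ Submodule.span K PS := by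
    intro x hx
    refine Submodule.span_induction (p := fun (x : A.toSubring) _ => (x : L) ∈ Submodule.span K PS)
      ?_ ?_ ?_ ?_ hx
    · intro x hx
      exact Submodule.subset_span hx
    · exact Submodule.zero_mem _
    · intro x y _ _ h3 h4
      exact Submodule.add_mem _ h3 h4
    · intro s x _ h3
      exact hmulP _ s.2 _ h3
  have hItop : I ≠ ⊤ := by
    intro h5
    have h6 : (1 : A.toSubring) ∈ I := by rw [h5]; trivial
    exact pa_one_notMem η hη ρ hT (hIP _ h6)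
  obtain ⟨𝒪, h𝒪1, h𝒪2⟩ := Ideal.image_subset_nonunits_valuationSubring I hItop
  have hmem : ∀ m : Fin n → ℤ, 0 ≤ ∑ i, ρ i * (m i : ℝ) → ∏ i, η i ^ m i ∈ A := fun m hm =>
    Algebra.subset_adjoin ⟨m, hm, rfl⟩
  refine ⟨𝒪, fun c => h𝒪1 (A.algebraMap_mem c), fun m => ⟨?_, ?_⟩⟩
  · intro hlt
    by_contra hle
    have h7 : 0 ≤ ∑ i, ρ i * ((-m) i : ℝ) := by
      have : ∑ i, ρ i * ((-m) i : ℝ) = - ∑ i, ρ i * (m i : ℝ) := by
        rw [← Finset.sum_neg_distrib]
        exact Finset.sum_congr rfl fun i _ => by rw [Pi.neg_apply, Int.cast_neg, mul_neg]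
      rw [this]
      linarith
    have h8 : ∏ i, η i ^ (-m) i ∈ 𝒪 := h𝒪1 (hmem _ h7)
    have h9 : ∏ i, η i ^ (-m) i = (∏ i, η i ^ m i)⁻¹ := by
      rw [← Finset.prod_inv_distrib]
      exact Finset.prod_congr rfl fun i _ => by rw [Pi.neg_apply, zpow_neg]
    rw [h9, ← 𝒪.valuation_le_one_iff, map_inv₀] at h8
    have h10 : 𝒪.valuation (∏ i, η i ^ m i) ≠ 0 := by
      rw [Valuation.ne_zero_iff]
      exact Finset.prod_ne_zero_iff.2 fun i _ => zpow_ne_zero _ (hη i)
    have h11 := (inv_le_one₀ (zero_lt_iff.2 h10)).1 h8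
    exact absurd hlt (not_lt.2 h11)
  · intro hm
    rw [← ValuationSubring.mem_nonunits_iff]
    apply h𝒪2
    refine ⟨⟨_, hmem m hm.le⟩, Ideal.subset_span ?_, rfl⟩
    exact ⟨m, hm, rfl⟩

end Pool.Agent.Lib.MP_209724_lc.GC
end

section

/-!
The criterion for prime ideals of `ℂ[x][y]`.
-/

namespace Pool.Agent.Lib.MP_209724_lc.GC

open MvPolynomial Filter Topology Metric
open MV (pi_C pi_eq rho_eq pi_eq_aeval denom_finset)

variable {n : ℕ}

/-- `ρ` is a tropical point of the generic fibre of the projection to the `x`-space. -/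
def IsTrop (Q : Ideal (MvPolynomial (Fin n) (MvPolynomial (Fin n) ℂ))) (ρ : Fin n → ℝ) : Prop :=
  ∀ f ∈ Q, ∀ m, C (f.coeff m) ∉ Q → ∃ m', m' ≠ m ∧ C (f.coeff m') ∉ Q ∧
    ∑ i, ρ i * (m' i : ℝ) ≤ ∑ i, ρ i * (m i : ℝ)

theorem trop_field {L : Type} [Field L] [Algebra ℂ L]
    (π : MvPolynomial (Fin n) (MvPolynomial (Fin n) ℂ) →ₐ[ℂ] L)
    (Q : Ideal (MvPolynomial (Fin n) (MvPolynomial (Fin n) ℂ)))
    (hπ0 : ∀ f, π f = 0 ↔ f ∈ Q) (ρ : Fin n → ℝ) (hT : IsTrop Q ρ)
    (f : MvPolynomial (Fin n) (IntermediateField.adjoin ℂ (Set.range fun i => π (C (X i)))))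
    (hf : aeval (fun i => π (X i)) f = 0) (m : Fin n →₀ ℕ) (hm : f.coeff m ≠ 0) :
    ∃ m', m' ≠ m ∧ f.coeff m' ≠ 0 ∧ ∑ i, ρ i * (m' i : ℝ) ≤ ∑ i, ρ i * (m i : ℝ) := by
  classical
  obtain ⟨c, p, hc, hp⟩ := denom_finset (fun i => π (C (X i))) (fun m => f.coeff m) f.support
  set F : MvPolynomial (Fin n) (MvPolynomial (Fin n) ℂ) :=
    ∑ m ∈ f.support, monomial m (p m) with hF
  have hFc : ∀ m, F.coeff m = if m ∈ f.support then p m else 0 := by
    intro m
    rw [hF, coeff_sum]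
    simp only [coeff_monomial]
    rw [Finset.sum_ite_eq']
  have hFm : ∀ m, aeval (fun i => π (C (X i))) (F.coeff m) =
      aeval (fun i => π (C (X i))) c *
        ((f.coeff m : IntermediateField.adjoin ℂ (Set.range fun i => π (C (X i)))) : L) := by
    intro m
    rw [hFc]
    by_cases h : m ∈ f.support
    · rw [if_pos h]
      exact hp m h
    · rw [if_neg h]
      rw [notMem_support_iff] at h
      rw [h]
      simp
  have hsupp : F.support ⊆ f.support := by
    intro m hm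
    rw [mem_support_iff, hFc] at hm
    by_contra h
    rw [if_neg h] at hm
    exact hm rfl
  have hFQ : F ∈ Q := by
    rw [← hπ0, pi_eq_aeval π _ f c F hFm hsupp, hf, mul_zero]
  have hne : ∀ m, C (F.coeff m) ∉ Q ↔ f.coeff m ≠ 0 := by
    intro m
    rw [← hπ0, pi_C, hFm, mul_eq_zero, not_or]
    constructor
    · rintro ⟨_, h⟩ h0
      apply h
      rw [h0]; rfl
    · intro h
      refine ⟨hc, fun h0 => h ?_⟩
      exact Subtype.ext h0
  obtain ⟨m', h1, h2, h3⟩ := hT F hFQ m ((hne m).mpr hm)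
  exact ⟨m', h1, (hne m').mp h2, h3⟩

open IntermediateField.algebraAdjoinAdjoin in
theorem trdeg_adjoin {L : Type} [Field L] [Algebra ℂ L] (ξ : Fin n → L)
    (p : Ideal (MvPolynomial (Fin n) ℂ)) (hp : ∀ c, c ∈ p ↔ aeval ξ c = 0) :
    Algebra.trdeg ℂ (IntermediateField.adjoin ℂ (Set.range ξ)) =
      Algebra.trdeg ℂ (MvPolynomial (Fin n) ℂ ⧸ p) := by
  have h1 : Algebra.trdeg ℂ (IntermediateField.adjoin ℂ (Set.range ξ)) =
      Algebra.trdeg ℂ (Algebra.adjoin ℂ (Set.range ξ)) :=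
    Elim.trdeg_fractionRing (A := Algebra.adjoin ℂ (Set.range ξ))
  have h2 : p = RingHom.ker (aeval ξ : MvPolynomial (Fin n) ℂ →ₐ[ℂ] L) := by
    ext c
    rw [hp, RingHom.mem_ker]
  rw [h1, Algebra.adjoin_range_eq_range_aeval, h2]
  exact (Ideal.quotientKerEquivRange (aeval ξ : MvPolynomial (Fin n) ℂ →ₐ[ℂ] L)).symm.trdeg_eq

theorem int_coeff_zero {k : ℕ} {ω : Fin k → ℝ} (hω : LinearIndependent ℚ ω) (c : Fin k → ℤ)
    (hc : ∑ j, (c j : ℝ) * ω j = 0) (j : Fin k) : c j = 0 := by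
  have h1 := Fintype.linearIndependent_iff.1 hω (fun j => (c j : ℚ)) (by
    rw [← hc]
    refine Finset.sum_congr rfl fun j _ => ?_
    rw [Rat.smul_def]
    norm_cast) j
  exact_mod_cast h1

theorem final (hn : 0 < n) (Q : Ideal (MvPolynomial (Fin n) (MvPolynomial (Fin n) ℂ)))
    [hQ : Q.IsPrime]
    (hy : ∀ i, (X i : MvPolynomial (Fin n) (MvPolynomial (Fin n) ℂ)) ∉ Q)
    (hdim : Algebra.trdeg ℂ (MvPolynomial (Fin n) (MvPolynomial (Fin n) ℂ) ⧸ Q) = n) (k : ℕ)
    (hk : Algebra.trdeg ℂ (MvPolynomial (Fin n) ℂ ⧸ Q.comap C) + k = n)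
    (w : Fin n → ℂ) (hw : w ∈ cone (Q.comap C)) (htrop : IsTrop Q fun i => -(w i).re)
    (hrank : Module.finrank ℚ (Submodule.span ℚ (Set.range fun i => (w i).re)) = k)
    (htrans : ∀ b : Fin n → ℂ, b ≠ 0 →
      (∀ m : Fin n → ℤ, ∑ i, (m i : ℝ) * (w i).re = 0 → ∑ i, (m i : ℂ) * b i = 0) →
      ∃ F : MvPolynomial (Fin n) ℂ, (∀ w' ∈ cone (Q.comap C), eval w' F = 0) ∧
        ∑ i, b i * eval w (pderiv i F) ≠ 0)
    (D : MvPolynomial (Fin n) (MvPolynomial (Fin n) ℂ)) (hD : D ∉ Q) (M : ℝ) :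
    ∃ x : Fin n → ℂ, M < ‖x‖ ∧
      (∀ f ∈ Q, eval (fun i => Complex.exp (x i)) (map (eval x) f) = 0) ∧
      eval (fun i => Complex.exp (x i)) (map (eval x) D) ≠ 0 := by
  classical
  set L := FractionRing (MvPolynomial (Fin n) (MvPolynomial (Fin n) ℂ) ⧸ Q) with hL
  set π : MvPolynomial (Fin n) (MvPolynomial (Fin n) ℂ) →ₐ[ℂ] L :=
    (IsScalarTower.toAlgHom ℂ (MvPolynomial (Fin n) (MvPolynomial (Fin n) ℂ) ⧸ Q) L).comp
      (Ideal.Quotient.mkₐ ℂ Q) with hπ
  have hπ0 : ∀ f, π f = 0 ↔ f ∈ Q := by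
    intro f
    have hinj : Function.Injective
        (algebraMap (MvPolynomial (Fin n) (MvPolynomial (Fin n) ℂ) ⧸ Q) L) :=
      IsFractionRing.injective _ _
    rw [hπ, AlgHom.comp_apply, IsScalarTower.coe_toAlgHom', map_eq_zero_iff _ hinj,
      Ideal.Quotient.mkₐ_eq_mk, Ideal.Quotient.eq_zero_iff_mem]
  set ξ : Fin n → L := fun i => π (C (X i)) with hξ
  set η : Fin n → L := fun i => π (X i) with hη
  have hη0 : ∀ i, η i ≠ 0 := fun i => by
    rw [hη]; simp only; rw [Ne, hπ0]; exact hy i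
  have hmem : ∀ (A : Subalgebra ℂ L), (∀ i, ξ i ∈ A) → (∀ i, η i ∈ A) → ∀ f, π f ∈ A := by
    intro A h1 h2 f
    rw [pi_eq]
    refine sum_mem fun m _ => mul_mem ?_ (prod_mem fun i _ => pow_mem (h2 i) _)
    have h3 : aeval (fun i => π (C (X i))) (f.coeff m) ∈ Algebra.adjoin ℂ (Set.range ξ) := by
      rw [Algebra.adjoin_range_eq_range_aeval]
      exact ⟨f.coeff m, rfl⟩
    have h4 : Algebra.adjoin ℂ (Set.range ξ) ≤ A := by
      apply Algebra.adjoin_le
      rintro _ ⟨i, rfl⟩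
      exact h1 i
    exact h4 h3
  have hgen : IntermediateField.adjoin ℂ (Set.range ξ ∪ Set.range η) = ⊤ := by
    rw [eq_top_iff]
    intro x _
    obtain ⟨r, s, hs, rfl⟩ := IsFractionRing.div_surjective
      (A := MvPolynomial (Fin n) (MvPolynomial (Fin n) ℂ) ⧸ Q) x
    obtain ⟨r, rfl⟩ := Ideal.Quotient.mk_surjective r
    obtain ⟨s, rfl⟩ := Ideal.Quotient.mk_surjective s
    have h1 : ∀ f, π f ∈ (IntermediateField.adjoin ℂ (Set.range ξ ∪ Set.range η)).toSubalgebra :=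
      hmem _ (fun i => IntermediateField.subset_adjoin _ _ (Or.inl ⟨i, rfl⟩))
        (fun i => IntermediateField.subset_adjoin _ _ (Or.inr ⟨i, rfl⟩))
    exact div_mem (h1 r) (h1 s)
  have htr : Algebra.trdeg ℂ L = n := by
    rw [← hdim]
    exact Elim.trdeg_fractionRing
  have hpξ : ∀ c, c ∈ Q.comap C ↔ aeval ξ c = 0 := by
    intro c
    rw [Ideal.mem_comap, ← hπ0, pi_C]
  -- the dimension of the projection
  have hkn : k ≤ n := by
    have h1 : (k : Cardinal) ≤ n := by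
      rw [← hk]
      exact self_le_add_left _ _
    exact_mod_cast h1
  set d := n - k with hd
  have hdk : d + k = n := by omega
  have htrK : Algebra.trdeg ℂ (IntermediateField.adjoin ℂ (Set.range ξ)) = d := by
    rw [trdeg_adjoin ξ (Q.comap C) hpξ]
    have h1 : Algebra.trdeg ℂ (MvPolynomial (Fin n) ℂ ⧸ Q.comap C) + k = (d : Cardinal) + k := by
      rw [hk]
      exact_mod_cast hdk.symm
    exact Cardinal.eq_of_add_eq_add_right h1 (Cardinal.natCast_lt_aleph0)
  -- the algebra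
  set W : Finset L := Finset.univ.image ξ ∪ Finset.univ.image η ∪ {(π D)⁻¹} with hW
  set A : Subalgebra ℂ L := Algebra.adjoin ℂ (W : Set L) with hA
  have hAfg : A.FG := Subalgebra.fg_adjoin_finset W
  have hWA : ∀ x ∈ W, x ∈ A := fun x hx => Algebra.subset_adjoin hx
  have hξA : ∀ i, ξ i ∈ A := fun i => hWA _ (by
    rw [hW]
    exact Finset.mem_union_left _ (Finset.mem_union_left _
      (Finset.mem_image_of_mem ξ (Finset.mem_univ i))))
  have hηA : ∀ i, η i ∈ A := fun i => hWA _ (by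
    rw [hW]
    exact Finset.mem_union_left _ (Finset.mem_union_right _
      (Finset.mem_image_of_mem η (Finset.mem_univ i))))
  have hDA : (π D)⁻¹ ∈ A := hWA _ (by rw [hW]; simp)
  have hπA := hmem A hξA hηA
  -- the lattice
  have hspan : Submodule.span ℚ (Set.range fun i => -(w i).re) =
      Submodule.span ℚ (Set.range fun i => (w i).re) := by
    apply le_antisymm
    · rw [Submodule.span_le]
      rintro _ ⟨i, rfl⟩
      exact neg_mem (Submodule.subset_span ⟨i, rfl⟩)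
    · rw [Submodule.span_le]
      rintro _ ⟨i, rfl⟩
      have h1 : (w i).re = -(-(w i).re) := by ring
      simp only
      rw [h1]
      exact neg_mem (Submodule.subset_span ⟨i, rfl⟩)
  have hrank' : Module.finrank ℚ (Submodule.span ℚ (Set.range fun i => -(w i).re)) = k := by
    rw [hspan, hrank]
  obtain ⟨ω, m, a, hωpos, hω, hωm, hρa⟩ := exists_lattice (fun i => -(w i).re) hrank'
  obtain ⟨𝒪, hK, h𝒪⟩ := exists_place_of_trop
    (K := IntermediateField.adjoin ℂ (Set.range ξ)) η hη0 (fun i => -(w i).re)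
    (trop_field π Q hπ0 _ htrop)
  have htan : ∀ β : Fin k → ℂ, β ≠ 0 → ∃ F : MvPolynomial (Fin n) ℂ,
      (∀ w' ∈ cone (Q.comap C), eval w' F = 0) ∧
      ∑ i, (∑ j, (a i j : ℂ) * β j) * eval w (pderiv i F) ≠ 0 := by
    intro β hβ
    -- `m a = 1`
    have hsw : ∀ μ : Fin n → ℤ, ∑ j, ((∑ i, μ i * a i j : ℤ) : ℝ) * ω j =
        ∑ i, (μ i : ℝ) * -(w i).re := by
      intro μ
      push_cast
      simp only [Finset.sum_mul, hρa, Finset.mul_sum]
      rw [Finset.sum_comm]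
      exact Finset.sum_congr rfl fun i _ => Finset.sum_congr rfl fun j _ => by ring
    have hma : ∀ j l, ∑ i, m j i * a i l = if j = l then 1 else 0 := by
      intro j l
      have h1 := int_coeff_zero hω (fun l => ∑ i, m j i * a i l - if j = l then 1 else 0) (by
        have h2 := hsw (m j)
        rw [← hωm j] at h2
        push_cast at h2 ⊢
        simp only [sub_mul, Finset.sum_sub_distrib, h2]
        simp) l
      omega
    have hma0 : ∀ μ : Fin n → ℤ, ∑ i, (μ i : ℝ) * (w i).re = 0 → ∀ j, ∑ i, μ i * a i j = 0 := by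
      intro μ hμ
      apply int_coeff_zero hω
      rw [hsw μ]
      simp only [mul_neg, Finset.sum_neg_distrib, hμ, neg_zero]
    apply htrans (fun i => ∑ j, (a i j : ℂ) * β j)
    · intro h0
      apply hβ
      funext l
      have h1 : ∑ i, (m l i : ℂ) * ∑ j, (a i j : ℂ) * β j = β l := by
        simp only [Finset.mul_sum]
        rw [Finset.sum_comm]
        have h2 : ∀ j, ∑ i, (m l i : ℂ) * ((a i j : ℂ) * β j) =
            ((∑ i, m l i * a i j : ℤ) : ℂ) * β j := by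
          intro j
          push_cast
          rw [Finset.sum_mul]
          exact Finset.sum_congr rfl fun i _ => by ring
        rw [Finset.sum_congr rfl fun j _ => h2 j]
        simp [hma]
      rw [← h1]
      simp only [Pi.zero_apply]
      refine Finset.sum_eq_zero fun i _ => ?_
      have := congrFun h0 i
      simp only [Pi.zero_apply] at this
      rw [this, mul_zero]
    · intro μ hμ
      simp only [Finset.mul_sum]
      rw [Finset.sum_comm]
      refine Finset.sum_eq_zero fun j _ => ?_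
      have h1 : ∑ i, (μ i : ℂ) * ((a i j : ℂ) * β j) = ((∑ i, μ i * a i j : ℤ) : ℂ) * β j := by
        push_cast
        rw [Finset.sum_mul]
        exact Finset.sum_congr rfl fun i _ => by ring
      rw [h1, hma0 μ hμ j]
      simp
  obtain ⟨ψ, hψM, hψ⟩ := core hn hdk ξ η hη0 hgen htr htrK (Q.comap C) hpξ w hw ω hωpos hω m a
    hωm hρa 𝒪 (fun c hc => hK ⟨c, hc⟩) h𝒪 htan A hAfg hξA hηA M
  set ρ : MvPolynomial (Fin n) (MvPolynomial (Fin n) ℂ) →ₐ[ℂ] ℂ :=
    ψ.comp (π.codRestrict A hπA) with hρ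
  have hρ1 : ∀ f, eval (fun i => Complex.exp (ψ ⟨ξ i, hξA i⟩))
      (map (eval fun i => ψ ⟨ξ i, hξA i⟩) f) = ρ f := by
    intro f
    rw [rho_eq ρ f]
    have h1 : (fun i => Complex.exp (ψ ⟨ξ i, hξA i⟩)) = fun i => ρ (X i) := by
      funext i
      rw [← hψ i]
      rfl
    rw [h1]
    rfl
  refine ⟨fun i => ψ ⟨ξ i, hξA i⟩, hψM, ?_, ?_⟩
  · intro f hf
    rw [hρ1]
    have h1 : π.codRestrict A hπA f = 0 := by
      apply Subtype.ext
      exact (hπ0 f).mpr hf
    rw [hρ, AlgHom.comp_apply, h1, map_zero]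
  · rw [hρ1]
    intro hcon
    have h1 : (π.codRestrict A hπA D) * ⟨(π D)⁻¹, hDA⟩ = 1 := by
      apply Subtype.ext
      have h2 : π D ≠ 0 := fun h0 => hD ((hπ0 D).mp h0)
      exact mul_inv_cancel₀ h2
    have h2 := congrArg ψ h1
    rw [map_mul, map_one] at h2
    rw [hρ, AlgHom.comp_apply] at hcon
    rw [hcon, zero_mul] at h2
    exact zero_ne_one h2

end Pool.Agent.Lib.MP_209724_lc.GC
end
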